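import Pool.Agent.R723.KT.Defs

/-!
# KT-AREA: comparisons of areas of explicit triangles
-/

set_option autoImplicit false
open MeasureTheory Set

namespace Pool.Agent.R723.KT.AREA

open Pool.Agent.R723.KT

/-- closed standard triangle -/
def SC : Set Pl := {u | 0 ≤ 1 - u.1 - u.2 ∧ 0 ≤ u.1 ∧ 0 ≤ u.2}

/-- open standard triangle -/
def SO : Set Pl := {u | 0 < 1 - u.1 - u.2 ∧ 0 < u.1 ∧ 0 < u.2}

theorem null1 : volume {u : Pl | u.1 = 0} = 0 := by
  have h : {u : Pl | u.1 = 0} = ({0} : Set ℝ) ×ˢ (univ : Set ℝ) := by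
    ext u; simp
  rw [h, Measure.volume_eq_prod, Measure.prod_prod]
  simp

theorem null2 : volume {u : Pl | u.2 = 0} = 0 := by
  have h : {u : Pl | u.2 = 0} = (univ : Set ℝ) ×ˢ ({0} : Set ℝ) := by
    ext u; simp
  rw [h, Measure.volume_eq_prod, Measure.prod_prod]
  simp

theorem null3 : volume {u : Pl | 1 - u.1 - u.2 = 0} = 0 := by
  have hm : MeasurableSet {u : Pl | 1 - u.1 - u.2 = 0} :=
    (isClosed_eq (by fun_prop) continuous_const).measurableSet
  rw [Measure.volume_eq_prod, Measure.measure_prod_null hm]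
  refine Filter.Eventually.of_forall fun x => ?_
  have h : Prod.mk x ⁻¹' {u : Pl | 1 - u.1 - u.2 = 0} = {1 - x} := by
    ext y
    simp only [mem_preimage, mem_ofPred_eq, mem_singleton_iff]
    constructor <;> intro h <;> linarith
  show volume (Prod.mk x ⁻¹' {u : Pl | 1 - u.1 - u.2 = 0}) = 0
  rw [h]
  simp

theorem SC_le : volume SC ≤ volume SO := by
  have hsub : SC ⊆ SO ∪ ({u : Pl | u.1 = 0} ∪ ({u : Pl | u.2 = 0} ∪ {u : Pl | 1 - u.1 - u.2 = 0})) := by
    rintro u ⟨h1, h2, h3⟩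
    rcases h1.eq_or_lt with h | h1'
    · exact Or.inr (Or.inr (Or.inr h.symm))
    rcases h2.eq_or_lt with h | h2'
    · exact Or.inr (Or.inl h.symm)
    rcases h3.eq_or_lt with h | h3'
    · exact Or.inr (Or.inr (Or.inl h.symm))
    exact Or.inl ⟨h1', h2', h3'⟩
  calc volume SC ≤ _ := measure_mono hsub
    _ ≤ volume SO + volume ({u : Pl | u.1 = 0} ∪ ({u : Pl | u.2 = 0} ∪ {u : Pl | 1 - u.1 - u.2 = 0})) :=
        measure_union_le _ _
    _ = volume SO + 0 := by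
        rw [measure_union_null null1 (measure_union_null null2 null3)]
    _ = volume SO := add_zero _

/-- preimages under affine maps -/
theorem vol_pre (a b c d e f : ℝ) (h : a * d - b * c ≠ 0) (s : Set Pl) :
    volume ((fun G : Pl => ((a * G.1 + b * G.2 + e, c * G.1 + d * G.2 + f) : Pl)) ⁻¹' s)
      = ENNReal.ofReal |(a * d - b * c)⁻¹| * volume s := by
  let T : Pl →ₗ[ℝ] Pl := Matrix.toLin (Module.Basis.finTwoProd ℝ) (Module.Basis.finTwoProd ℝ) !![a, b; c, d]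
  have hT : ∀ G : Pl, T G = (a * G.1 + b * G.2, c * G.1 + d * G.2) := by
    intro G
    simp [T, Matrix.toLin_finTwoProd_apply]
  have hdet : LinearMap.det T = a * d - b * c := by
    simp only [T, LinearMap.det_toLin, Matrix.det_fin_two_of]
  have h1 : (fun G : Pl => ((a * G.1 + b * G.2 + e, c * G.1 + d * G.2 + f) : Pl)) ⁻¹' s
      = T ⁻¹' ((fun u : Pl => u + (e, f)) ⁻¹' s) := by
    ext G
    simp only [mem_preimage, hT, Prod.mk_add_mk]
  rw [h1, Measure.addHaar_preimage_linearMap _ (by rw [hdet]; exact h), hdet,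
    measure_preimage_add_right]

theorem tri (a1 b1 g1 a2 b2 g2 a3 b3 g3 c1 c2 c3 : ℝ) (h1 : 0 < c1) (h2 : 0 < c2) (h3 : 0 < c3)
    (hid : ∀ x y : ℝ, c1 * (a1 * x + b1 * y + g1) + c2 * (a2 * x + b2 * y + g2)
      + c3 * (a3 * x + b3 * y + g3) = 1) (hdet : |a2 * b3 - b2 * a3| = c1) :
    volume {G : Pl | 0 ≤ a1 * G.1 + b1 * G.2 + g1 ∧ 0 ≤ a2 * G.1 + b2 * G.2 + g2 ∧
      0 ≤ a3 * G.1 + b3 * G.2 + g3} = ENNReal.ofReal (c1 * c2 * c3)⁻¹ * volume SC ∧
    volume {G : Pl | 0 < a1 * G.1 + b1 * G.2 + g1 ∧ 0 < a2 * G.1 + b2 * G.2 + g2 ∧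
      0 < a3 * G.1 + b3 * G.2 + g3} = ENNReal.ofReal (c1 * c2 * c3)⁻¹ * volume SO := by
  have hD : (c2 * a2) * (c3 * b3) - (c2 * b2) * (c3 * a3) = c2 * c3 * (a2 * b3 - b2 * a3) := by ring
  have hDne : (c2 * a2) * (c3 * b3) - (c2 * b2) * (c3 * a3) ≠ 0 := by
    rw [hD]
    have : a2 * b3 - b2 * a3 ≠ 0 := by
      intro h0
      rw [h0, abs_zero] at hdet
      exact h1.ne hdet
    positivity
  have hAbs : |((c2 * a2) * (c3 * b3) - (c2 * b2) * (c3 * a3))⁻¹| = (c1 * c2 * c3)⁻¹ := by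
    rw [hD, abs_inv, abs_mul, hdet, abs_of_pos (mul_pos h2 h3)]
    congr 1
    ring
  have key := vol_pre (c2 * a2) (c2 * b2) (c3 * a3) (c3 * b3) (c2 * g2) (c3 * g3) hDne
  rw [hAbs] at key
  constructor
  · rw [← key SC]
    congr 1
    ext G
    simp only [mem_ofPred_eq, mem_preimage, SC]
    have e1 : 1 - (c2 * a2 * G.1 + c2 * b2 * G.2 + c2 * g2) - (c3 * a3 * G.1 + c3 * b3 * G.2 + c3 * g3)
        = c1 * (a1 * G.1 + b1 * G.2 + g1) := by linarith [hid G.1 G.2]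
    have e2 : c2 * a2 * G.1 + c2 * b2 * G.2 + c2 * g2 = c2 * (a2 * G.1 + b2 * G.2 + g2) := by ring
    have e3 : c3 * a3 * G.1 + c3 * b3 * G.2 + c3 * g3 = c3 * (a3 * G.1 + b3 * G.2 + g3) := by ring
    rw [e1, e2, e3, mul_nonneg_iff_of_pos_left h1, mul_nonneg_iff_of_pos_left h2,
      mul_nonneg_iff_of_pos_left h3]
  · rw [← key SO]
    congr 1
    ext G
    simp only [mem_ofPred_eq, mem_preimage, SO]
    have e1 : 1 - (c2 * a2 * G.1 + c2 * b2 * G.2 + c2 * g2) - (c3 * a3 * G.1 + c3 * b3 * G.2 + c3 * g3)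
        = c1 * (a1 * G.1 + b1 * G.2 + g1) := by linarith [hid G.1 G.2]
    have e2 : c2 * a2 * G.1 + c2 * b2 * G.2 + c2 * g2 = c2 * (a2 * G.1 + b2 * G.2 + g2) := by ring
    have e3 : c3 * a3 * G.1 + c3 * b3 * G.2 + c3 * g3 = c3 * (a3 * G.1 + b3 * G.2 + g3) := by ring
    rw [e1, e2, e3, mul_pos_iff_of_pos_left h1, mul_pos_iff_of_pos_left h2,
      mul_pos_iff_of_pos_left h3]

/-- `T1` -/
theorem volT1 (A b : ℝ) (hA : 1 ≤ A) (hAb : 0 < A - b) :
    volume {G : Pl | -(A * G.1 + b * G.2) + G.2 ≤ 1 ∧ 1 ≤ -(A * G.1 + b * G.2) + 2 * G.2 ∧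
      1 ≤ -(A * G.1 + b * G.2) - G.1}
      = ENNReal.ofReal ((2 * A + 2 - b) * (A + 1 - b) * A)⁻¹ * volume SC := by
  have h := (tri A (b - 1) 1 (-A) (2 - b) (-1) (-A - 1) (-b) (-1) (2 * A + 2 - b) (A + 1 - b) A
    (by linarith) (by linarith) (by linarith) (by intro x y; ring)
    (by
      rw [show -A * -b - (2 - b) * (-A - 1) = 2 * A + 2 - b by ring]
      exact abs_of_pos (by linarith))).1
  rw [← h]
  congr 1
  ext G
  simp only [mem_ofPred_eq]
  constructor <;> rintro ⟨h1, h2, h3⟩ <;> refine ⟨?_, ?_, ?_⟩ <;> linarith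

/-- `T2` -/
theorem volT2 (A b : ℝ) (hA : 1 ≤ A) (hAb : 0 < A - b) :
    volume {G : Pl | -(A * G.1 + b * G.2) < 1 ∧ 1 < -(A * G.1 + b * G.2) + G.2 ∧ G.2 < -G.1}
      = ENNReal.ofReal ((A + 1 - b) * (A - b) * A)⁻¹ * volume SO := by
  have h := (tri A b 1 (-A) (1 - b) (-1) (-1) (-1) 0 (A + 1 - b) (A - b) A
    (by linarith) (by linarith) (by linarith) (by intro x y; ring)
    (by
      rw [show -A * -1 - (1 - b) * -1 = A + 1 - b by ring]
      exact abs_of_pos (by linarith))).2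
  rw [← h]
  congr 1
  ext G
  simp only [mem_ofPred_eq]
  constructor <;> rintro ⟨h1, h2, h3⟩ <;> refine ⟨?_, ?_, ?_⟩ <;> linarith

/-- `T1'` -/
theorem volT1' (A b : ℝ) (hA : 1 ≤ A) (hAb : 0 < A - b) :
    volume {G : Pl | -(A * G.1 + b * G.2) + G.2 ≤ 1 ∧ 1 ≤ -(A * G.1 + b * G.2) + 2 * G.2 ∧
      1 ≤ -(A * G.1 + b * G.2) - G.1 - G.2}
      = ENNReal.ofReal ((3 * A + 2 - b) * (2 * A + 1 - b) * A)⁻¹ * volume SC := by
  have h := (tri A (b - 1) 1 (-A) (2 - b) (-1) (-A - 1) (-b - 1) (-1) (3 * A + 2 - b)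
    (2 * A + 1 - b) A
    (by linarith) (by linarith) (by linarith) (by intro x y; ring)
    (by
      rw [show -A * (-b - 1) - (2 - b) * (-A - 1) = 3 * A + 2 - b by ring]
      exact abs_of_pos (by linarith))).1
  rw [← h]
  congr 1
  ext G
  simp only [mem_ofPred_eq]
  constructor <;> rintro ⟨h1, h2, h3⟩ <;> refine ⟨?_, ?_, ?_⟩ <;> linarith

/-- `T2'` -/
theorem volT2' (A b : ℝ) (hA : 1 ≤ A) (hAb : 0 < A - b) :
    volume {G : Pl | -(A * G.1 + b * G.2) < 1 ∧ 1 < -(A * G.1 + b * G.2) + G.2 ∧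
      1 < -(A * G.1 + b * G.2) - G.1 - G.2}
      = ENNReal.ofReal ((2 * A + 1 - b) * (A - b) * A)⁻¹ * volume SO := by
  have h := (tri A b 1 (-A) (1 - b) (-1) (-A - 1) (-b - 1) (-1) (2 * A + 1 - b) (A - b) A
    (by linarith) (by linarith) (by linarith) (by intro x y; ring)
    (by
      rw [show -A * (-b - 1) - (1 - b) * (-A - 1) = 2 * A + 1 - b by ring]
      exact abs_of_pos (by linarith))).2
  rw [← h]
  congr 1
  ext G
  simp only [mem_ofPred_eq]
  constructor <;> rintro ⟨h1, h2, h3⟩ <;> refine ⟨?_, ?_, ?_⟩ <;> linarith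

/-- `T3` -/
theorem volT3 (A b : ℝ) (hA : 1 ≤ A) (hb : b < 0) :
    volume {G : Pl | -G.1 < G.2 ∧ -(A * G.1 + b * G.2) + G.1 + G.2 < 1 ∧
        1 < -(A * G.1 + b * G.2) - G.1}
      = ENNReal.ofReal ((A + 1 - 2 * b) * (A + 1 - b) * (A - b))⁻¹ * volume SO := by
  have h := (tri 1 1 0 (A - 1) (b - 1) 1 (-A - 1) (-b) (-1) (A + 1 - 2 * b) (A + 1 - b) (A - b)
    (by linarith) (by linarith) (by linarith) (by intro x y; ring)
    (by
      rw [show (A - 1) * -b - (b - 1) * (-A - 1) = -(A + 1 - 2 * b) by ring, abs_neg]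
      exact abs_of_pos (by linarith))).2
  rw [← h]
  congr 1
  ext G
  simp only [mem_ofPred_eq]
  constructor <;> rintro ⟨h1, h2, h3⟩ <;> refine ⟨?_, ?_, ?_⟩ <;> linarith

theorem cmp (x y : ℝ) (hx : 0 < x) (hy : 0 < y) (h : 2 * y ≤ x) :
    2 * (ENNReal.ofReal x⁻¹ * volume SC) ≤ ENNReal.ofReal y⁻¹ * volume SO := by
  rw [← mul_assoc]
  refine mul_le_mul' ?_ SC_le
  rw [show (2 : ENNReal) = ENNReal.ofReal 2 by simp, ← ENNReal.ofReal_mul (by norm_num)]
  apply ENNReal.ofReal_le_ofReal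
  rw [← div_eq_mul_inv, ← one_div, div_le_div_iff₀ hx hy]
  linarith

/-- KT-AREA -/
theorem taskAREA : S_AREA := by
  refine ⟨?_, ?_, ?_⟩
  · intro A b hA hb hAb
    rw [volT1 A b hA (by linarith), volT2 A b hA (by linarith)]
    have p1 : 0 < A := by linarith
    have p2 : 0 < A - b := by linarith
    have p3 : 0 < A + 1 - b := by linarith
    have p4 : 0 < 2 * A + 2 - b := by linarith
    refine cmp _ _ (by positivity) (by positivity) ?_
    have : 0 ≤ (A + 1 - b) * A * ((2 * A + 2 - b) - 2 * (A - b)) := by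
      have : 0 ≤ (2 * A + 2 - b) - 2 * (A - b) := by linarith
      positivity
    nlinarith [this]
  · intro A b hA hb hAb
    rw [volT1' A b hA (by linarith), volT2' A b hA (by linarith)]
    have p1 : 0 < A := by linarith
    have p2 : 0 < A - b := by linarith
    have p3 : 0 < 2 * A + 1 - b := by linarith
    have p4 : 0 < 3 * A + 2 - b := by linarith
    refine cmp _ _ (by positivity) (by positivity) ?_
    have : 0 ≤ (2 * A + 1 - b) * A * ((3 * A + 2 - b) - 2 * (A - b)) := by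
      have : 0 ≤ (3 * A + 2 - b) - 2 * (A - b) := by linarith
      positivity
    nlinarith [this]
  · intro A b hA hb hAb
    have p1 : 0 < A := by linarith
    have p2 : 0 < A - b := by linarith
    have p3 : 0 < A + 1 - b := by linarith
    have p4 : 0 < 2 * A + 2 - b := by linarith
    have p5 : 0 < A + 1 - 2 * b := by linarith
    have hd : Disjoint
        {G : Pl | -(A * G.1 + b * G.2) < 1 ∧ 1 < -(A * G.1 + b * G.2) + G.2 ∧ G.2 < -G.1}
        {G : Pl | -G.1 < G.2 ∧ -(A * G.1 + b * G.2) + G.1 + G.2 < 1 ∧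
          1 < -(A * G.1 + b * G.2) - G.1} := by
      rw [Set.disjoint_left]
      rintro G ⟨-, -, h⟩ ⟨h', -, -⟩
      exact lt_asymm h h'
    have hm : MeasurableSet {G : Pl | -G.1 < G.2 ∧ -(A * G.1 + b * G.2) + G.1 + G.2 < 1 ∧
          1 < -(A * G.1 + b * G.2) - G.1} := by
      have o1 : IsOpen {G : Pl | -G.1 < G.2} := isOpen_lt (by fun_prop) (by fun_prop)
      have o2 : IsOpen {G : Pl | -(A * G.1 + b * G.2) + G.1 + G.2 < 1} :=
        isOpen_lt (by fun_prop) (by fun_prop)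
      have o3 : IsOpen {G : Pl | 1 < -(A * G.1 + b * G.2) - G.1} :=
        isOpen_lt (by fun_prop) (by fun_prop)
      exact (o1.inter (o2.inter o3)).measurableSet
    rw [measure_union hd hm, volT1 A b hA p2, volT2 A b hA p2, volT3 A b hA hb, ← add_mul,
      ← mul_assoc, ← ENNReal.ofReal_add (by positivity) (by positivity)]
    refine mul_le_mul' ?_ SC_le
    rw [show (2 : ENNReal) = ENNReal.ofReal 2 by simp, ← ENNReal.ofReal_mul (by norm_num)]
    apply ENNReal.ofReal_le_ofReal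
    have e1 : ((A + 1 - b) * (A - b) * A)⁻¹ + ((A + 1 - 2 * b) * (A + 1 - b) * (A - b))⁻¹
        = (2 * A + 1 - 2 * b) / ((A + 1 - b) * (A - b) * A * (A + 1 - 2 * b)) := by
      rw [inv_eq_one_div, inv_eq_one_div, div_add_div _ _ (by positivity) (by positivity),
        div_eq_div_iff (by positivity) (by positivity)]
      ring
    rw [e1, ← div_eq_mul_inv, div_le_div_iff₀ (by positivity) (by positivity)]
    have e2 : (2 * A + 1 - 2 * b) * ((2 * A + 2 - b) * (A + 1 - b) * A)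
        - 2 * ((A + 1 - b) * (A - b) * A * (A + 1 - 2 * b))
        = (A + 1 - b) * A * (2 * (A + 1) ^ 2 - 3 * b - 2 * b ^ 2) := by ring
    have e3 : 0 ≤ 2 * (A + 1) ^ 2 - 3 * b - 2 * b ^ 2 := by nlinarith
    have e4 : 0 ≤ (A + 1 - b) * A * (2 * (A + 1) ^ 2 - 3 * b - 2 * b ^ 2) := by positivity
    linarith

end Pool.Agent.R723.KT.AREA
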