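import Pool.Agent.R723.KT.Defs

set_option autoImplicit false
open MeasureTheory

/-!
# KT-CORE: the triangle beats the square, from the pieces
-/
namespace Pool.Agent.R723.KT.CORE

open Pool.Agent.R723.KT

lemma ori_aff (a b c d e f : ℝ) (x y z : Pl) :
    ori (aff a b c d e f x) (aff a b c d e f y) (aff a b c d e f z) =
      (a * d - b * c) * ori x y z := by
  simp only [ori, aff]; ring

lemma D_aff (a b c d e f : ℝ) (p : Pl × Pl × Pl) :
    D (m3 (aff a b c d e f) p) = (a * d - b * c) * D p := by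
  simp only [D, m3]; exact ori_aff a b c d e f _ _ _

lemma L_aff (a b c d e f : ℝ) (h : |a * d - b * c| = 1) (p : Pl × Pl × Pl) (z : Pl) :
    L (m3 (aff a b c d e f) p) (aff a b c d e f z) = L p z := by
  have h2 : (a * d - b * c) ^ 2 = 1 := by rw [← sq_abs, h]; norm_num
  have h3 : L (m3 (aff a b c d e f) p) (aff a b c d e f z) =
      ((a * d - b * c) * D p) * ((a * d - b * c) * ori p.2.1 p.2.2 z) := by
    unfold L
    rw [D_aff]
    simp only [m3]
    rw [ori_aff]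
  rw [h3]
  calc ((a * d - b * c) * D p) * ((a * d - b * c) * ori p.2.1 p.2.2 z)
      = (a * d - b * c) ^ 2 * (D p * ori p.2.1 p.2.2 z) := by ring
    _ = L p z := by rw [h2, one_mul]; rfl

lemma inT_aff (a b c d e f : ℝ) (h : |a * d - b * c| = 1) (p : Pl × Pl × Pl) (z : Pl) :
    inT (m3 (aff a b c d e f) p) (aff a b c d e f z) ↔ inT p z := by
  unfold inT
  have h1 := L_aff a b c d e f h p z
  have h2 := L_aff a b c d e f h (rot p) z
  have h3 := L_aff a b c d e f h (rot (rot p)) z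
  have e2 : rot (m3 (aff a b c d e f) p) = m3 (aff a b c d e f) (rot p) := rfl
  have e3 : rot (rot (m3 (aff a b c d e f) p)) = m3 (aff a b c d e f) (rot (rot p)) := rfl
  rw [e3, e2, h1, h2, h3]

lemma D_rot (p : Pl × Pl × Pl) : D (rot p) = D p := by
  simp only [D, rot, ori]; ring

lemma inT_rot (p : Pl × Pl × Pl) (z : Pl) : inT (rot p) z ↔ inT p z := by
  unfold inT
  have e : rot (rot (rot p)) = p := rfl
  rw [e]
  tauto

lemma R_rot (S : Set (ℤ × ℤ)) (p : Pl × Pl × Pl) : rot p ∈ R S ↔ p ∈ R S := by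
  simp only [R, Set.mem_ofPred_eq, D_rot, inT_rot]

lemma R_rot_iter (S : Set (ℤ × ℤ)) (k : ℕ) (p : Pl × Pl × Pl) : rot^[k] p ∈ R S ↔ p ∈ R S := by
  induction k generalizing p with
  | zero => exact Iff.rfl
  | succ k ih =>
    rw [Function.iterate_succ_apply, ih, R_rot]

lemma R_iff (a b c d e f : ℝ) (h : |a * d - b * c| = 1) (g gi : ℤ × ℤ → ℤ × ℤ)
    (hg : ∀ z, zp (g z) = aff a b c d e f (zp z)) (hi : ∀ z, g (gi z) = z)
    (S S' : Set (ℤ × ℤ)) (hS : ∀ z, z ∈ S ↔ g z ∈ S') (p : Pl × Pl × Pl) :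
    m3 (aff a b c d e f) p ∈ R S' ↔ p ∈ R S := by
  have hd : (a * d - b * c) ≠ 0 := by
    intro h0; rw [h0, abs_zero] at h; exact zero_ne_one h
  simp only [R, Set.mem_ofPred_eq, D_aff]
  constructor
  · rintro ⟨h1, h2⟩
    refine ⟨fun h0 => h1 (by rw [h0, mul_zero]), fun z => ?_⟩
    rw [hS z, ← h2 (g z), hg z, inT_aff a b c d e f h]
  · rintro ⟨h1, h2⟩
    refine ⟨mul_ne_zero hd h1, fun z => ?_⟩
    have hz := hi z
    rw [← hz, ← hS (gi z), ← h2 (gi z), hg (gi z), inT_aff a b c d e f h]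

lemma gam_aff (i : Bool × Bool × Bool) : ∃ a b c d e f : ℝ, |a * d - b * c| = 1 ∧
    gam i = aff a b c d e f := by
  rcases i with ⟨i1, i2, i3⟩
  cases i1 <;> cases i2 <;> cases i3
  · refine ⟨1, 0, 0, 1, 0, 0, by norm_num, ?_⟩
    funext z; simp [gam, aff]
  · refine ⟨0, 1, 1, 0, 0, 0, by norm_num, ?_⟩
    funext z; simp [gam, aff]
  · refine ⟨1, 0, 0, -1, 0, 1, by norm_num, ?_⟩
    funext z; simp [gam, aff]; ring
  · refine ⟨0, 1, -1, 0, 0, 1, by norm_num, ?_⟩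
    funext z; simp [gam, aff]; ring
  · refine ⟨-1, 0, 0, 1, 1, 0, by norm_num, ?_⟩
    funext z; simp [gam, aff]; ring
  · refine ⟨0, -1, 1, 0, 1, 0, by norm_num, ?_⟩
    funext z; simp [gam, aff]; ring
  · refine ⟨-1, 0, 0, -1, 1, 1, by norm_num, ?_⟩
    funext z; simp [gam, aff]; constructor <;> ring
  · refine ⟨0, -1, -1, 0, 1, 1, by norm_num, ?_⟩
    funext z; simp [gam, aff]; constructor <;> ring

lemma sig_aff (i : Bool) : ∃ a b c d e f : ℝ, |a * d - b * c| = 1 ∧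
    sig i = aff a b c d e f := by
  cases i
  · refine ⟨1, 0, 0, 1, 0, 0, by norm_num, ?_⟩
    funext z; simp [sig, aff]
  · refine ⟨1, 0, 1, -1, 0, 0, by norm_num, ?_⟩
    funext z; simp [sig, aff]; ring

lemma mp_rot_iter (hs : S_SYM) (k : ℕ) : MeasurePreserving (rot^[k]) m m := hs.2.iterate k

lemma mp_mv (hs : S_SYM) (i : (Bool × Bool × Bool) × Fin 3) : MeasurePreserving (mv i) m m := by
  obtain ⟨a, b, c, d, e, f, h, hg⟩ := gam_aff i.1
  have h1 : MeasurePreserving (m3 (gam i.1)) m m := by rw [hg]; exact hs.1 a b c d e f h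
  exact h1.comp (mp_rot_iter hs i.2.val)

lemma mp_nv (hs : S_SYM) (i : Bool × Fin 3) : MeasurePreserving (nv i) m m := by
  obtain ⟨a, b, c, d, e, f, h, hg⟩ := sig_aff i.1
  have h1 : MeasurePreserving (m3 (sig i.1)) m m := by rw [hg]; exact hs.1 a b c d e f h
  exact h1.comp (mp_rot_iter hs i.2.val)

lemma mem_D3 (x y : ℤ) : (x, y) ∈ D3 ↔ (x = 0 ∧ y = 0) ∨ (x = 1 ∧ y = 0) ∨ (x = 1 ∧ y = 1) := by
  simp [D3, Prod.ext_iff]

lemma mem_D0 (x y : ℤ) : (x, y) ∈ D0 ↔ (x = 0 ∧ y = 0) ∨ (x = 1 ∧ y = 0) ∨ (x = 0 ∧ y = 1) := by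
  simp [D0, Prod.ext_iff]

lemma sig_R (i : Bool) (p : Pl × Pl × Pl) : m3 (sig i) p ∈ R D3 ↔ p ∈ R D3 := by
  cases i
  · have : m3 (sig false) p = p := rfl
    rw [this]
  · have hg : sig true = aff 1 0 1 (-1) 0 0 := by
      funext z; simp [sig, aff]; ring
    rw [hg]
    refine R_iff 1 0 1 (-1) 0 0 (by norm_num) (fun z => (z.1, z.1 - z.2))
      (fun z => (z.1, z.1 - z.2)) ?_ ?_ D3 D3 ?_ p
    · rintro ⟨x, y⟩
      simp [zp, aff]; ring
    · rintro ⟨x, y⟩
      simp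
    · rintro ⟨x, y⟩
      simp only [mem_D3]
      omega

lemma nv_R (i : Bool × Fin 3) (p : Pl × Pl × Pl) : nv i p ∈ R D3 ↔ p ∈ R D3 := by
  unfold nv
  rw [sig_R, R_rot_iter]

lemma R_D30 : m (R D3) = m (R D0) ∨ ¬ (S_SYM ∧ S_MEAS) := by
  by_cases hs : S_SYM ∧ S_MEAS
  · left
    have hp : m3 (aff 1 (-1) 0 1 0 0) ⁻¹' (R D0) = R D3 := by
      ext p
      refine R_iff 1 (-1) 0 1 0 0 (by norm_num) (fun z => (z.1 - z.2, z.2))
        (fun z => (z.1 + z.2, z.2)) ?_ ?_ D3 D0 ?_ p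
      · rintro ⟨x, y⟩
        simp [zp, aff]; ring
      · rintro ⟨x, y⟩
        simp
      · rintro ⟨x, y⟩
        simp only [mem_D3, mem_D0]
        omega
    rw [← hp]
    exact (hs.1.1 1 (-1) 0 1 0 0 (by norm_num)).measure_preimage
      (hs.2.1 D0).nullMeasurableSet
  · right; exact hs

lemma squares (hs : S_SYM) (hm : S_MEAS) (hM : S_MARKS) : 2 * m (R F4) ≤ 24 * m MF := by
  have h1 : ∀ i : (Bool × Bool × Bool) × Fin 3, m (mv i ⁻¹' MF) = m MF := fun i =>
    (mp_mv hs i).measure_preimage hm.2.1.nullMeasurableSet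
  have hmeas : ∀ i : (Bool × Bool × Bool) × Fin 3, MeasurableSet (mv i ⁻¹' MF) := fun i =>
    (mp_mv hs i).measurable hm.2.1
  have h2 : ∑ i : (Bool × Bool × Bool) × Fin 3, m (mv i ⁻¹' MF) = 24 * m MF := by
    rw [Finset.sum_congr rfl (fun i _ => h1 i), Finset.sum_const, Finset.card_univ]
    simp [Fintype.card_prod]
  have h3 : ∑ i : (Bool × Bool × Bool) × Fin 3, m (mv i ⁻¹' MF) =
      ∫⁻ p, ∑ i : (Bool × Bool × Bool) × Fin 3, (mv i ⁻¹' MF).indicator (1 : Pl × Pl × Pl → ENNReal) p ∂m := by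
    rw [lintegral_finsetSum]
    · refine Finset.sum_congr rfl (fun i _ => ?_)
      rw [lintegral_indicator_one (hmeas i)]
    · intro i _
      exact measurable_one.indicator (hmeas i)
  have h4 : 2 * m (R F4) = ∫⁻ p, (R F4).indicator (fun _ => (2 : ENNReal)) p ∂m := by
    rw [lintegral_indicator_const (hm.1 F4)]
  rw [← h2, h3, h4]
  refine lintegral_mono (fun p => ?_)
  by_cases hp : p ∈ R F4
  · rw [Set.indicator_of_mem hp]
    obtain ⟨i, j, hij, hi, hj⟩ := hM p hp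
    calc (2 : ENNReal) = ∑ k ∈ ({i, j} : Finset _), (mv k ⁻¹' MF).indicator (1 : Pl × Pl × Pl → ENNReal) p := by
          rw [Finset.sum_pair hij, Set.indicator_of_mem (show p ∈ mv i ⁻¹' MF from hi),
            Set.indicator_of_mem (show p ∈ mv j ⁻¹' MF from hj)]
          simp only [Pi.one_apply]
          norm_num
      _ ≤ _ := Finset.sum_le_sum_of_subset (Finset.subset_univ _)
  · rw [Set.indicator_of_notMem hp]
    exact bot_le

lemma triangles (hs : S_SYM) (hm : S_MEAS) (hD : S_DISJ) : 6 * m MD ≤ m (R D3) := by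
  have h1 : ∀ i : Bool × Fin 3, m (nv i ⁻¹' MD) = m MD := fun i =>
    (mp_nv hs i).measure_preimage hm.2.2.nullMeasurableSet
  have hmeas : ∀ i : Bool × Fin 3, MeasurableSet (nv i ⁻¹' MD) := fun i =>
    (mp_nv hs i).measurable hm.2.2
  have h2 : ∑ i : Bool × Fin 3, m (nv i ⁻¹' MD) = 6 * m MD := by
    rw [Finset.sum_congr rfl (fun i _ => h1 i), Finset.sum_const, Finset.card_univ]
    simp [Fintype.card_prod]
  rw [← h2, ← measure_biUnion_finset]
  · refine measure_mono ?_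
    intro p hp
    simp only [Set.mem_iUnion] at hp
    obtain ⟨i, _, hi⟩ := hp
    exact (nv_R i p).1 hi.1
  · intro i _ j _ hij
    refine Set.disjoint_left.2 (fun p hi hj => hij (hD p i j hi hj))
  · intro i _
    exact hmeas i

theorem taskCORE (hs : S_SYM) (hm : S_MEAS) (hM : S_MARKS) (hD : S_DISJ) (hMM : S_MM) :
    S_CORE := by
  have h1 := squares hs hm hM
  have h2 := triangles hs hm hD
  have h3 : m (R D3) = m (R D0) := by
    rcases R_D30 with h | h
    · exact h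
    · exact absurd ⟨hs, hm⟩ h
  have h4 : 2 * m (R F4) ≤ 2 * m (R D0) := by
    calc 2 * m (R F4) ≤ 24 * m MF := h1
      _ = 12 * (2 * m MF) := by rw [← mul_assoc]; norm_num
      _ ≤ 12 * m MD := by gcongr; exact hMM
      _ = 2 * (6 * m MD) := by rw [← mul_assoc]; norm_num
      _ ≤ 2 * m (R D3) := by gcongr
      _ = 2 * m (R D0) := by rw [h3]
  have h5 := ENNReal.mul_le_mul_iff_right (a := 2) (b := m (R F4)) (c := m (R D0)) (by norm_num) (by norm_num)
  exact h5.1 h4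

end Pool.Agent.R723.KT.CORE
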