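import Pool.Agent.R723.KT.Defs

set_option autoImplicit false
open MeasureTheory

namespace Pool.Agent.R723.KT

namespace CVP

lemma scale (a : ℝ) (ha : a ≠ 0) (h : ℝ → ENNReal) (hh : Measurable h) :
    ∫⁻ y, h y = ENNReal.ofReal |a| * ∫⁻ s, h (s * a) := by
  conv_lhs => rw [← Real.smul_map_volume_mul_right ha]
  rw [lintegral_smul_measure, lintegral_map hh (measurable_mul_const a), smul_eq_mul]

lemma inv_subst (h : ℝ → ENNReal) :
    ∫⁻ x, h x = ∫⁻ l, ENNReal.ofReal ((l^2)⁻¹) * h (l⁻¹) := by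
  have hae : ∀ᵐ x : ℝ, x ∈ ({0}ᶜ : Set ℝ) := by
    rw [ae_iff]; simp
  have hr : (volume : Measure ℝ).restrict {0}ᶜ = volume := Measure.restrict_eq_self_of_ae_mem hae
  have h1 := lintegral_image_eq_lintegral_abs_deriv_mul (s := ({0}ᶜ : Set ℝ))
    (measurableSet_singleton 0).compl
    (f := fun x => x⁻¹) (f' := fun x => -(x^2)⁻¹)
    (fun x hx => (hasDerivAt_inv hx).hasDerivWithinAt) (fun _ _ _ _ h => inv_injective h) h
  have him : (fun x : ℝ => x⁻¹) '' ({0}ᶜ) = {0}ᶜ := by
    ext x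
    constructor
    · rintro ⟨y, hy, rfl⟩; exact inv_ne_zero hy
    · intro hx; exact ⟨x⁻¹, inv_ne_zero hx, inv_inv x⟩
  rw [him, hr] at h1
  rw [h1]
  apply lintegral_congr
  intro l
  rw [abs_neg, abs_of_nonneg (by positivity)]

lemma ne0 : ∀ᵐ x : ℝ, x ≠ 0 := by
  rw [ae_iff]; simp

lemma pint {α β : Type} [MeasureSpace α] [MeasureSpace β] [SFinite (volume : Measure β)]
    (h : α × β → ENNReal) (hh : Measurable h) : ∫⁻ z, h z = ∫⁻ x, ∫⁻ y, h (x, y) := by
  rw [Measure.volume_eq_prod, lintegral_prod _ hh.aemeasurable]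

lemma polar (g : ℝ × ℝ → ENNReal) (hg : Measurable g) :
    ∫⁻ q, g q = ∫⁻ s : ℝ, ∫⁻ l : ℝ, ENNReal.ofReal ((|l|^3)⁻¹) * g (1/l, s/l) := by
  calc ∫⁻ q, g q = ∫⁻ x, ∫⁻ y, g (x,y) := pint g hg
    _ = ∫⁻ x, ∫⁻ s, ENNReal.ofReal |x| * g (x, s*x) := by
        apply lintegral_congr_ae
        filter_upwards [ne0] with x hx
        have hm : Measurable (fun s : ℝ => g (x, s * x)) := hg.comp (by fun_prop)
        rw [scale x hx (fun y => g (x,y)) (hg.comp (by fun_prop)), lintegral_const_mul _ hm]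
    _ = ∫⁻ s, ∫⁻ x, ENNReal.ofReal |x| * g (x, s*x) := by
        apply lintegral_lintegral_swap
        apply Measurable.aemeasurable
        apply Measurable.mul
        · fun_prop
        · exact hg.comp (by fun_prop)
    _ = _ := by
        apply lintegral_congr
        intro s
        rw [inv_subst]
        apply lintegral_congr
        intro l
        rw [← mul_assoc, ← ENNReal.ofReal_mul (by positivity)]
        have e1 : (l^2)⁻¹ * |l⁻¹| = (|l|^3)⁻¹ := by
          rw [abs_inv, ← mul_inv, ← sq_abs]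
          congr 1
        rw [e1, one_div, div_eq_mul_inv]

instance inv2 : (volume : Measure (ℝ × ℝ)).IsAddLeftInvariant := by
  rw [Measure.volume_eq_prod]; infer_instance

lemma inv4 : (volume : Measure ((ℝ × ℝ) × (ℝ × ℝ))).IsAddLeftInvariant := by
  rw [Measure.volume_eq_prod]; infer_instance

lemma lin (s t : ℝ) (hst : s ≠ t) (F : ℝ × ℝ → ENNReal) (hF : Measurable F) :
    ∫⁻ l, ∫⁻ k, F (l, k) =
      ENNReal.ofReal |t - s| * ∫⁻ G : ℝ × ℝ, F (G.1 + s * G.2, G.1 + t * G.2) := by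
  have hts : t - s ≠ 0 := sub_ne_zero.mpr hst.symm
  have h1 : ∫⁻ G : ℝ × ℝ, F (G.1 + s * G.2, G.1 + t * G.2) =
      ∫⁻ y : ℝ, ∫⁻ x : ℝ, F (x + s * y, x + t * y) := by
    have hm : Measurable (fun G : ℝ × ℝ => F (G.1 + s * G.2, G.1 + t * G.2)) :=
      hF.comp (by fun_prop)
    rw [pint (fun G : ℝ × ℝ => F (G.1 + s * G.2, G.1 + t * G.2)) hm]
    apply lintegral_lintegral_swap
    exact (hF.comp (by fun_prop)).aemeasurable
  have h2 : ∀ y : ℝ, ∫⁻ x : ℝ, F (x + s * y, x + t * y) = ∫⁻ l : ℝ, F (l, l + y * (t - s)) := by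
    intro y
    rw [← lintegral_add_right_eq_self (fun l => F (l, l + y * (t - s))) (s * y)]
    apply lintegral_congr
    intro x
    congr 2
    ring
  have h3 : ∫⁻ y : ℝ, ∫⁻ l : ℝ, F (l, l + y * (t - s)) =
      ∫⁻ l : ℝ, ∫⁻ y : ℝ, F (l, l + y * (t - s)) := by
    apply lintegral_lintegral_swap
    exact (hF.comp (by fun_prop)).aemeasurable
  rw [h1, lintegral_congr h2, h3, ← lintegral_const_mul]
  · apply lintegral_congr
    intro l
    rw [← scale (t - s) hts (fun k => F (l, l + k)) (hF.comp (by fun_prop))]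
    exact (lintegral_add_left_eq_self (fun k => F (l, k)) l).symm
  · exact Measurable.lintegral_prod_right' (f := fun p : ℝ × ℝ => F (p.1, p.1 + p.2 * (t - s)))
      (hF.comp (by fun_prop))

end CVP

open CVP

theorem taskCV : S_CV := by
  intro f hf
  have hD : Measurable D := by
    unfold D ori; fun_prop
  have hw : Measurable (fun p : Pl × Pl × Pl => ENNReal.ofReal ((|D p| ^ 3)⁻¹)) := by
    apply ENNReal.measurable_ofReal.comp
    apply Measurable.inv
    exact (continuous_abs.measurable.comp hD).pow_const 3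
  have h1 : ∫⁻ p, f p ∂m = ∫⁻ p : Pl × Pl × Pl, ENNReal.ofReal ((|D p| ^ 3)⁻¹) * f p := by
    unfold m
    rw [lintegral_withDensity_eq_lintegral_mul _ hw hf]
    rfl
  have hH : Measurable (fun p : Pl × Pl × Pl => ENNReal.ofReal ((|D p| ^ 3)⁻¹) * f p) := hw.mul hf
  rw [h1, pint _ hH]
  apply lintegral_congr
  intro P
  set W : Pl × Pl → ENNReal := fun z =>
    ENNReal.ofReal ((|z.1.1 * z.2.2 - z.1.2 * z.2.1| ^ 3)⁻¹) * f (P, P + z.1, P + z.2) with hW
  have hWm : Measurable W := by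
    apply Measurable.mul
    · apply ENNReal.measurable_ofReal.comp
      apply Measurable.inv
      apply Measurable.pow_const
      apply continuous_abs.measurable.comp
      fun_prop
    · exact hf.comp (by fun_prop)
  have h2 : ∫⁻ y : Pl × Pl, ENNReal.ofReal ((|D (P, y)| ^ 3)⁻¹) * f (P, y) =
      ∫⁻ q : Pl, ∫⁻ r : Pl, W (q, r) := by
    haveI := inv4
    rw [← pint W hWm, ← lintegral_add_left_eq_self
      (μ := (volume : Measure ((ℝ × ℝ) × (ℝ × ℝ))))
      (fun y : (ℝ × ℝ) × (ℝ × ℝ) => ENNReal.ofReal ((|D (P, y)| ^ 3)⁻¹) * f (P, y))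
      ((P, P) : (ℝ × ℝ) × (ℝ × ℝ))]
    apply lintegral_congr
    intro z
    have e : D (P, (P, P) + z) = z.1.1 * z.2.2 - z.1.2 * z.2.1 := by
      simp [D, ori]
    rw [e]
    rfl
  rw [h2, polar (fun q => ∫⁻ r : Pl, W (q, r)) hWm.lintegral_prod_right']
  apply lintegral_congr
  intro s
  set Φ : (ℝ × ℝ) × ℝ → ENNReal := fun z =>
    f (P, P + (1 / z.1.1, s / z.1.1), P + (1 / z.2, z.1.2 / z.2)) with hΦ
  have hΦm : Measurable Φ := hf.comp (by fun_prop)
  have e1 : ∀ l : ℝ, l ≠ 0 → ENNReal.ofReal ((|l|^3)⁻¹) * ∫⁻ r : Pl, W ((1/l, s/l), r) =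
      ∫⁻ t : ℝ, ∫⁻ k : ℝ, ENNReal.ofReal ((|s - t|^3)⁻¹) * Φ ((l, t), k) := by
    intro l hl
    have hm2 : Measurable (fun z : ℝ × ℝ =>
        ENNReal.ofReal ((|z.2| ^ 3)⁻¹) * W ((1 / l, s / l), 1 / z.2, z.1 / z.2)) := by
      apply Measurable.mul
      · apply ENNReal.measurable_ofReal.comp
        apply Measurable.inv
        apply Measurable.pow_const
        apply continuous_abs.measurable.comp
        fun_prop
      · exact hWm.comp (by fun_prop)
    rw [polar (fun r => W ((1/l, s/l), r)) (hWm.comp (by fun_prop)), ← lintegral_const_mul]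
    · apply lintegral_congr
      intro t
      rw [← lintegral_const_mul]
      · apply lintegral_congr_ae
        filter_upwards [ne0] with k hk
        simp only [hW, hΦ]
        rw [← mul_assoc, ← mul_assoc, ← ENNReal.ofReal_mul (by positivity),
          ← ENNReal.ofReal_mul (by positivity)]
        congr 2
        have : 1 / l * (t / k) - s / l * (1 / k) = (t - s) / (l * k) := by
          field_simp
        rw [this, abs_div, abs_mul, div_pow, mul_pow, abs_sub_comm t s]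
        have hl' : |l| ≠ 0 := abs_ne_zero.mpr hl
        have hk' : |k| ≠ 0 := abs_ne_zero.mpr hk
        field_simp
      · exact hm2.comp (measurable_const.prodMk measurable_id)
    · exact Measurable.lintegral_prod_right' (f := fun z : ℝ × ℝ =>
        ENNReal.ofReal ((|z.2| ^ 3)⁻¹) * W ((1 / l, s / l), 1 / z.2, z.1 / z.2)) hm2
  have e2 : ∫⁻ l : ℝ, ENNReal.ofReal ((|l|^3)⁻¹) * ∫⁻ r : Pl, W ((1/l, s/l), r) =
      ∫⁻ l : ℝ, ∫⁻ t : ℝ, ∫⁻ k : ℝ, ENNReal.ofReal ((|s - t|^3)⁻¹) * Φ ((l, t), k) := by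
    apply lintegral_congr_ae
    filter_upwards [ne0] with l hl
    exact e1 l hl
  rw [e2, lintegral_lintegral_swap]
  · apply lintegral_congr
    intro t
    by_cases hst : s = t
    · subst hst
      simp
    · have hm3 : Measurable (fun z : ℝ × ℝ => Φ ((z.1, t), z.2)) := hΦm.comp (by fun_prop)
      have e3 : ∀ l : ℝ, ∫⁻ k : ℝ, ENNReal.ofReal ((|s - t|^3)⁻¹) * Φ ((l, t), k) =
          ENNReal.ofReal ((|s - t|^3)⁻¹) * ∫⁻ k : ℝ, Φ ((l, t), k) := fun l =>
        lintegral_const_mul _ (hΦm.comp (by fun_prop))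
      rw [lintegral_congr e3, lintegral_const_mul _
        (Measurable.lintegral_prod_right' (f := fun z : ℝ × ℝ => Φ ((z.1, t), z.2)) hm3),
        lin s t hst (fun z => Φ ((z.1, t), z.2)) hm3, ← mul_assoc,
        ← ENNReal.ofReal_mul (by positivity)]
      have hst' : |s - t| ≠ 0 := abs_ne_zero.mpr (sub_ne_zero.mpr hst)
      have e4 : (|s - t| ^ 3)⁻¹ * |t - s| = (|s - t| ^ 2)⁻¹ := by
        rw [abs_sub_comm t s]
        field_simp
      rw [e4]
      rfl
  · apply Measurable.aemeasurable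
    apply Measurable.lintegral_prod_right' (f := fun z : (ℝ × ℝ) × ℝ =>
      ENNReal.ofReal ((|s - z.1.2| ^ 3)⁻¹) * Φ z)
    apply Measurable.mul _ hΦm
    apply ENNReal.measurable_ofReal.comp
    apply Measurable.inv
    apply Measurable.pow_const
    apply continuous_abs.measurable.comp
    fun_prop

end Pool.Agent.R723.KT
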