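import Pool.Agent.R723.KT.Defs

set_option autoImplicit false

/-!
# KT-DISJ: a triangle has at most one of the six marks
-/
namespace Pool.Agent.R723.KT

open Pool.Agent.R69.Klein

namespace DISJaux

theorem rot3 (p : Pl × Pl × Pl) : rot (rot (rot p)) = p := rfl

theorem L_sig (e : Bool) (p : Pl × Pl × Pl) (z : Pl) : L (m3 (sig e) p) z = L p (sig e z) := by
  cases e
  · rfl
  · obtain ⟨⟨a, b⟩, ⟨c, d⟩, ⟨f, g⟩⟩ := p
    obtain ⟨x, y⟩ := z
    simp only [L, D, ori, m3, sig, if_true]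
    ring

theorem rot_m3 (g : Pl → Pl) (p : Pl × Pl × Pl) : rot (m3 g p) = m3 g (rot p) := rfl

theorem aff1 (p : Pl × Pl × Pl) : L p (0, 1) + L p (1, -1) = L p (0, 0) + L p (1, 0) := by
  simp only [L, ori]; ring

theorem aff2 (p : Pl × Pl × Pl) : L p (0, -1) + L p (1, 2) = L p (0, 0) + L p (1, 1) := by
  simp only [L, ori]; ring

theorem aff3 (p : Pl × Pl × Pl) : L p (1, 2) + L p (1, -1) = L p (1, 0) + L p (1, 1) := by
  simp only [L, ori]; ring

/-- common facts -/
structure Pos (a : Pl × Pl × Pl) : Prop where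
  h00 : 0 ≤ L a (0, 0)
  h10 : 0 ≤ L a (1, 0)
  h11 : 0 ≤ L a (1, 1)

/-- facts for a mark without reflection -/
structure PF (a b c : Pl × Pl × Pl) : Prop where
  pa : Pos a
  pb : Pos b
  pc : Pos c
  cut : L a (0, 1) < 0
  nb : 0 ≤ L b (0, 1)
  nc : 0 ≤ L c (0, 1)
  t : L b (1, 2) < 0 ∨ L c (1, 2) < 0

/-- facts for a mark with reflection -/
structure PT (a b c : Pl × Pl × Pl) : Prop where
  cut : L a (0, -1) < 0
  nb : 0 ≤ L b (0, -1)
  nc : 0 ≤ L c (0, -1)
  s : L b (0, 1) < 0 ∨ L c (0, 1) < 0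
  t : L b (1, -1) < 0 ∨ L c (1, -1) < 0

theorem not_inK {p : Pl × Pl × Pl} {z : Pl} (h : ¬ inK p z) :
    L (rot p) z < 0 ∨ L (rot (rot p)) z < 0 := by
  unfold inK at h
  by_contra hcon
  push Not at hcon
  exact h hcon

theorem factsF (r : Pl × Pl × Pl) (h : m3 (sig false) r ∈ MD) : PF r (rot r) (rot (rot r)) := by
  obtain ⟨⟨-, hR⟩, k00, k10, k01, k11, k02, n0, n1, n2, n3, n4, n5⟩ := h
  have e00 := (hR (0, 0)).mpr (by simp [D3])
  have e10 := (hR (1, 0)).mpr (by simp [D3])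
  have e11 := (hR (1, 1)).mpr (by simp [D3])
  have e01 : ¬ inT (m3 (sig false) r) (zp (0, 1)) := fun hh => by
    have := (hR (0, 1)).mp hh
    simp [D3] at this
  simp only [zp, Int.cast_zero, Int.cast_one] at e00 e10 e11 e01
  simp only [inT, rot_m3, L_sig] at e00 e10 e11 e01
  have n5' := not_inK n5
  simp only [inK, rot_m3, L_sig] at k01 n5'
  simp only [sig, if_false, Bool.false_eq_true] at e00 e10 e11 e01 k01 n5'
  refine ⟨⟨e00.1, e10.1, e11.1⟩, ⟨e00.2.1, e10.2.1, e11.2.1⟩, ⟨e00.2.2, e10.2.2, e11.2.2⟩,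
    ?_, k01.1, k01.2, n5'⟩
  by_contra hcon
  exact e01 ⟨not_lt.mp hcon, k01.1, k01.2⟩

theorem factsT (r : Pl × Pl × Pl) (h : m3 (sig true) r ∈ MD) : PT r (rot r) (rot (rot r)) := by
  obtain ⟨⟨-, hR⟩, k00, k10, k01, k11, k02, n0, n1, n2, n3, n4, n5⟩ := h
  have e01 : ¬ inT (m3 (sig true) r) (zp (0, 1)) := fun hh => by
    have := (hR (0, 1)).mp hh
    simp [D3] at this
  simp only [zp, Int.cast_zero, Int.cast_one] at e01
  simp only [inT, rot_m3, L_sig] at e01
  have n5' := not_inK n5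
  have n0' := not_inK n0
  simp only [inK, rot_m3, L_sig] at k01 n5' n0'
  simp only [sig, if_true] at e01 k01 n5' n0'
  have s1 : ((0 : ℝ), (0 : ℝ) - 1) = ((0, -1) : Pl) := by norm_num
  have s2 : ((1 : ℝ), (1 : ℝ) - 2) = ((1, -1) : Pl) := by norm_num
  have s3 : ((0 : ℝ), (0 : ℝ) - -1) = ((0, 1) : Pl) := by norm_num
  rw [s1] at e01 k01
  rw [s2] at n5'
  rw [s3] at n0'
  refine ⟨?_, k01.1, k01.2, n0', n5'⟩
  by_contra hcon
  exact e01 ⟨not_lt.mp hcon, k01.1, k01.2⟩

theorem ff1 {a b c : Pl × Pl × Pl} (h : PF a b c) (h' : PF b c a) : False := by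
  have := h.cut; have := h'.nc; linarith

theorem ff2 {a b c : Pl × Pl × Pl} (h : PF a b c) (h' : PF c a b) : False := by
  have := h.cut; have := h'.nb; linarith

theorem tt1 {a b c : Pl × Pl × Pl} (h : PT a b c) (h' : PT b c a) : False := by
  have := h.cut; have := h'.nc; linarith

theorem tt2 {a b c : Pl × Pl × Pl} (h : PT a b c) (h' : PT c a b) : False := by
  have := h.cut; have := h'.nb; linarith

theorem ft0 {a b c : Pl × Pl × Pl} (h : PF a b c) (h' : PT a b c) : False := by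
  have h1 := h.nb
  have h2 := h.nc
  rcases h'.s with h3 | h3 <;> linarith

theorem ft1 {a b c : Pl × Pl × Pl} (h : PF a b c) (h' : PT b c a) : False := by
  -- k = a, k' = b, i = c
  have h1 : L c (1, -1) < 0 := by
    rcases h'.t with h3 | h3
    · exact h3
    · exfalso
      have := aff1 a; have := h.cut; have := h.pa.h00; have := h.pa.h10; linarith
  have h2 : L c (1, 2) < 0 := by
    rcases h.t with h3 | h3
    · exfalso
      have := aff2 b; have := h'.cut; have := h.pb.h00; have := h.pb.h11; linarith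
    · exact h3
  have := aff3 c; have := h.pc.h10; have := h.pc.h11; linarith

theorem ft2 {a b c : Pl × Pl × Pl} (h : PF a b c) (h' : PT c a b) : False := by
  -- k = a, k' = c, i = b
  have h1 : L b (1, -1) < 0 := by
    rcases h'.t with h3 | h3
    · exfalso
      have := aff1 a; have := h.cut; have := h.pa.h00; have := h.pa.h10; linarith
    · exact h3
  have h2 : L b (1, 2) < 0 := by
    rcases h.t with h3 | h3
    · exact h3
    · exfalso
      have := aff2 c; have := h'.cut; have := h.pc.h00; have := h.pc.h11; linarith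
  have := aff3 b; have := h.pb.h10; have := h.pb.h11; linarith

end DISJaux

open DISJaux

theorem taskDISJ : S_DISJ := by
  intro p i j hi hj
  obtain ⟨e, k⟩ := i
  obtain ⟨e', k'⟩ := j
  by_contra hne
  have F0 : nv (false, 0) p ∈ MD → PF p (rot p) (rot (rot p)) := factsF p
  have F1 : nv (false, 1) p ∈ MD → PF (rot p) (rot (rot p)) p := factsF (rot p)
  have F2 : nv (false, 2) p ∈ MD → PF (rot (rot p)) p (rot p) := factsF (rot (rot p))
  have T0 : nv (true, 0) p ∈ MD → PT p (rot p) (rot (rot p)) := factsT p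
  have T1 : nv (true, 1) p ∈ MD → PT (rot p) (rot (rot p)) p := factsT (rot p)
  have T2 : nv (true, 2) p ∈ MD → PT (rot (rot p)) p (rot p) := factsT (rot (rot p))
  fin_cases k <;> fin_cases k' <;> cases e <;> cases e' <;>
    first
    | exact hne rfl
    | exact ff1 (F0 hi) (F1 hj)
    | exact ff2 (F0 hi) (F2 hj)
    | exact ff1 (F1 hi) (F2 hj)
    | exact ff1 (F0 hj) (F1 hi)
    | exact ff2 (F0 hj) (F2 hi)
    | exact ff1 (F1 hj) (F2 hi)
    | exact tt1 (T0 hi) (T1 hj)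
    | exact tt2 (T0 hi) (T2 hj)
    | exact tt1 (T1 hi) (T2 hj)
    | exact tt1 (T0 hj) (T1 hi)
    | exact tt2 (T0 hj) (T2 hi)
    | exact tt1 (T1 hj) (T2 hi)
    | exact ft0 (F0 hi) (T0 hj)
    | exact ft0 (F1 hi) (T1 hj)
    | exact ft0 (F2 hi) (T2 hj)
    | exact ft0 (F0 hj) (T0 hi)
    | exact ft0 (F1 hj) (T1 hi)
    | exact ft0 (F2 hj) (T2 hi)
    | exact ft1 (F0 hi) (T1 hj)
    | exact ft1 (F1 hi) (T2 hj)
    | exact ft1 (F2 hi) (T0 hj)
    | exact ft1 (F0 hj) (T1 hi)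
    | exact ft1 (F1 hj) (T2 hi)
    | exact ft1 (F2 hj) (T0 hi)
    | exact ft2 (F0 hi) (T2 hj)
    | exact ft2 (F1 hi) (T0 hj)
    | exact ft2 (F2 hi) (T1 hj)
    | exact ft2 (F0 hj) (T2 hi)
    | exact ft2 (F1 hj) (T0 hi)
    | exact ft2 (F2 hj) (T1 hi)

end Pool.Agent.R723.KT
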