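import Pool.Agent.R69.Klein2

set_option autoImplicit false
open MeasureTheory

/-!
# Project KT (MP_8a8f75_nt, n = 2): the unit triangle beats the unit square for the Moebius measure

Definitions and exact statements of the pieces. See NOTES.md in this folder.
-/
namespace Pool.Agent.R723.KT

open Pool.Agent.R69.Klein

/-- the plane -/
abbrev Pl := ℝ × ℝ

/-- an integer point of the plane -/
def zp (z : ℤ × ℤ) : Pl := ((z.1 : ℝ), (z.2 : ℝ))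

/-- orientation of the triple `a, b, z` -/
def ori (a b z : Pl) : ℝ := (b.1 - a.1) * (z.2 - a.2) - (b.2 - a.2) * (z.1 - a.1)

/-- twice the oriented area of the triangle `p` -/
def D (p : Pl × Pl × Pl) : ℝ := ori p.1 p.2.1 p.2.2

/-- rotation of the vertices -/
def rot (p : Pl × Pl × Pl) : Pl × Pl × Pl := (p.2.1, p.2.2, p.1)

/-- affine functional, zero on the side opposite to the first vertex, positive at that vertex -/
def L (p : Pl × Pl × Pl) (z : Pl) : ℝ := D p * ori p.2.1 p.2.2 z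

/-- `z` is in the triangle `p` -/
def inT (p : Pl × Pl × Pl) (z : Pl) : Prop := 0 ≤ L p z ∧ 0 ≤ L (rot p) z ∧ 0 ≤ L (rot (rot p)) z

/-- `z` is in the cone (angle) of the triangle `p` at its first vertex -/
def inK (p : Pl × Pl × Pl) (z : Pl) : Prop := 0 ≤ L (rot p) z ∧ 0 ≤ L (rot (rot p)) z

/-- the triangles whose integer points are exactly `S` -/
def R (S : Set (ℤ × ℤ)) : Set (Pl × Pl × Pl) :=
  {p | D p ≠ 0 ∧ ∀ z : ℤ × ℤ, inT p (zp z) ↔ z ∈ S}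

/-- the unit square -/
def F4 : Set (ℤ × ℤ) := {(0, 0), (1, 0), (0, 1), (1, 1)}

/-- a unit triangle -/
def D3 : Set (ℤ × ℤ) := {(0, 0), (1, 0), (1, 1)}

/-- the standard unit triangle -/
def D0 : Set (ℤ × ℤ) := {(0, 0), (1, 0), (0, 1)}

/-- the Moebius measure on ordered triples of points -/
noncomputable def m : Measure (Pl × Pl × Pl) :=
  (volume : Measure (Pl × Pl × Pl)).withDensity (fun p => ENNReal.ofReal ((|D p| ^ 3)⁻¹))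

/-- marked squares -/
def MF : Set (Pl × Pl × Pl) :=
  {p | p ∈ R F4 ∧ L p (-1, 0) < 0 ∧ L p (-1, 1) < 0 ∧ inK p (0, 2)}

/-- marked triangles -/
def MD : Set (Pl × Pl × Pl) :=
  {p | p ∈ R D3 ∧ inK p (0, 0) ∧ inK p (1, 0) ∧ inK p (0, 1) ∧ inK p (1, 1) ∧ inK p (0, 2) ∧
    ¬ inK p (0, -1) ∧ ¬ inK p (1, -1) ∧ ¬ inK p (2, -1) ∧ ¬ inK p (2, 0) ∧ ¬ inK p (2, 1) ∧
    ¬ inK p (1, 2)}

/-- apply an affine map of the plane to the three vertices -/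
def m3 (γ : Pl → Pl) (p : Pl × Pl × Pl) : Pl × Pl × Pl := (γ p.1, γ p.2.1, γ p.2.2)

/-- an affine map -/
def aff (a b c d e f : ℝ) (z : Pl) : Pl := (a * z.1 + b * z.2 + e, c * z.1 + d * z.2 + f)

/-- the eight symmetries of the unit square -/
def gam (i : Bool × Bool × Bool) (z : Pl) : Pl :=
  let w : Pl := if i.2.2 then (z.2, z.1) else z
  let w : Pl := if i.1 then (1 - w.1, w.2) else w
  if i.2.1 then (w.1, 1 - w.2) else w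

/-- the moves of a square -/
def mv (i : (Bool × Bool × Bool) × Fin 3) (p : Pl × Pl × Pl) : Pl × Pl × Pl :=
  m3 (gam i.1) (rot^[i.2.val] p)

/-- the symmetry `(x, y) ↦ (x, x - y)` of the unit triangle `D3` or the identity -/
def sig (e : Bool) (z : Pl) : Pl := if e then (z.1, z.1 - z.2) else z

/-- the moves of a triangle -/
def nv (i : Bool × Fin 3) (p : Pl × Pl × Pl) : Pl × Pl × Pl :=
  m3 (sig i.1) (rot^[i.2.val] p)

/-- (KT-SYM) symmetries preserve the measure -/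
def S_SYM : Prop := (∀ a b c d e f : ℝ, |a * d - b * c| = 1 →
  MeasurePreserving (m3 (aff a b c d e f)) m m) ∧ MeasurePreserving rot m m

/-- (KT-MEAS) measurability -/
def S_MEAS : Prop := (∀ S, MeasurableSet (R S)) ∧ MeasurableSet MF ∧ MeasurableSet MD

/-- (KT-MARKS) every square has two marks -/
def S_MARKS : Prop := ∀ p ∈ R F4, ∃ i j : (Bool × Bool × Bool) × Fin 3,
  i ≠ j ∧ mv i p ∈ MF ∧ mv j p ∈ MF

/-- (KT-DISJ) a triangle has at most one of the six marks -/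
def S_DISJ : Prop := ∀ p, ∀ i j : Bool × Fin 3, nv i p ∈ MD → nv j p ∈ MD → i = j

/-- triangle with first vertex `P`, slopes `s`, `t` of the two sides through `P`, and third side
`G · (z - P) = 1` -/
noncomputable def Psi (P : Pl) (s t : ℝ) (G : Pl) : Pl × Pl × Pl :=
  (P, (P.1 + 1 / (G.1 + s * G.2), P.2 + s / (G.1 + s * G.2)),
    (P.1 + 1 / (G.1 + t * G.2), P.2 + t / (G.1 + t * G.2)))

/-- (KT-CV) change of variables -/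
def S_CV : Prop := ∀ f : Pl × Pl × Pl → ENNReal, Measurable f →
  ∫⁻ p, f p ∂m = ∫⁻ P : Pl, ∫⁻ s : ℝ, ∫⁻ t : ℝ,
    ENNReal.ofReal ((|s - t| ^ 2)⁻¹) * ∫⁻ G : Pl, f (Psi P s t G)

/-- dot product -/
def dot (G z : Pl) : ℝ := G.1 * z.1 + G.2 * z.2

/-- the cone (angle) with vertex `P` and directions `d1`, `d2` -/
def K (P d1 d2 : Pl) : Set Pl := {z | ∃ α β : ℝ, 0 ≤ α ∧ 0 ≤ β ∧ z = P + α • d1 + β • d2}

/-- the good cones -/
structure Good (P d1 d2 : Pl) : Prop where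
  li : d1.1 * d2.2 - d1.2 * d2.1 ≠ 0
  h00 : ((0, 0) : Pl) ∈ K P d1 d2
  h10 : ((1, 0) : Pl) ∈ K P d1 d2
  h01 : ((0, 1) : Pl) ∈ K P d1 d2
  h11 : ((1, 1) : Pl) ∈ K P d1 d2
  h02 : ((0, 2) : Pl) ∈ K P d1 d2
  n0 : ((0, -1) : Pl) ∉ K P d1 d2
  n1 : ((1, -1) : Pl) ∉ K P d1 d2
  n2 : ((2, -1) : Pl) ∉ K P d1 d2
  e0 : ((2, 0) : Pl) ∉ K P d1 d2
  e1 : ((2, 1) : Pl) ∉ K P d1 d2
  t1 : ((1, 2) : Pl) ∉ K P d1 d2

/-- (KT-LAT) the integer points of a good cone, and its shape -/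
def S_LAT : Prop := ∀ P d1 d2 : Pl, Good P d1 d2 →
  (∀ z : ℤ × ℤ, zp z ∈ K P d1 d2 →
    (1 ≤ z.1 → z = (1, 0) ∨ z = (1, 1)) ∧ (z.1 = 0 → 0 ≤ z.2) ∧ (z.1 ≤ 0 → z.1 ≤ z.2) ∧
    (z.1 ≤ -1 → z.2 = z.1 → ((-1, -1) : Pl) ∈ K P d1 d2) ∧
    (P.2 < -2 → z.1 ≤ 0 → 0 ≤ z.2)) ∧
  1 ≤ P.1 ∧ (d1.1 ≤ 0 ∧ d1.1 ≤ d1.2) ∧ (d2.1 ≤ 0 ∧ d2.1 ≤ d2.2) ∧ 1 ≤ P.1 - P.2 ∧
  (((-1, -1) : Pl) ∈ K P d1 d2 → -1 < P.2) ∧
  (P.2 < -2 → 0 < P.1 + P.2 ∧ 0 ≤ d1.2 ∧ 0 ≤ d2.2)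

/-- (KT-AREA) comparisons of areas of triangles; `f0 = -(A * G.1 + b * G.2)` -/
def S_AREA : Prop :=
  (∀ A b : ℝ, 1 ≤ A → -2 ≤ b → 1 ≤ A - b →
    2 * volume {G : Pl | -(A * G.1 + b * G.2) + G.2 ≤ 1 ∧ 1 ≤ -(A * G.1 + b * G.2) + 2 * G.2 ∧
      1 ≤ -(A * G.1 + b * G.2) - G.1} ≤
    volume {G : Pl | -(A * G.1 + b * G.2) < 1 ∧ 1 < -(A * G.1 + b * G.2) + G.2 ∧ G.2 < -G.1}) ∧
  (∀ A b : ℝ, 1 ≤ A → -1 ≤ b → 1 ≤ A - b →
    2 * volume {G : Pl | -(A * G.1 + b * G.2) + G.2 ≤ 1 ∧ 1 ≤ -(A * G.1 + b * G.2) + 2 * G.2 ∧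
      1 ≤ -(A * G.1 + b * G.2) - G.1 - G.2} ≤
    volume {G : Pl | -(A * G.1 + b * G.2) < 1 ∧ 1 < -(A * G.1 + b * G.2) + G.2 ∧
      1 < -(A * G.1 + b * G.2) - G.1 - G.2}) ∧
  (∀ A b : ℝ, 1 ≤ A → b < 0 → 0 < A + b →
    2 * volume {G : Pl | -(A * G.1 + b * G.2) + G.2 ≤ 1 ∧ 1 ≤ -(A * G.1 + b * G.2) + 2 * G.2 ∧
      1 ≤ -(A * G.1 + b * G.2) - G.1} ≤
    volume ({G : Pl | -(A * G.1 + b * G.2) < 1 ∧ 1 < -(A * G.1 + b * G.2) + G.2 ∧ G.2 < -G.1} ∪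
      {G : Pl | -G.1 < G.2 ∧ -(A * G.1 + b * G.2) + G.1 + G.2 < 1 ∧
        1 < -(A * G.1 + b * G.2) - G.1}))

/-- the third sides in the fibre over a cone, for squares -/
def SqG (P d1 d2 : Pl) : Set Pl :=
  {G | 0 < dot G d1 ∧ 0 < dot G d2 ∧ (∀ z ∈ F4, dot G (zp z - P) ≤ 1) ∧
    (∀ z : ℤ × ℤ, zp z ∈ K P d1 d2 → z ∉ F4 → 1 < dot G (zp z - P)) ∧
    1 < dot G ((-1, 0) - P) ∧ 1 < dot G ((-1, 1) - P)}

/-- the third sides in the fibre over a cone, for triangles -/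
def TrG (P d1 d2 : Pl) : Set Pl :=
  {G | 0 < dot G d1 ∧ 0 < dot G d2 ∧ (∀ z ∈ D3, dot G (zp z - P) ≤ 1) ∧
    (∀ z : ℤ × ℤ, zp z ∈ K P d1 d2 → z ∉ D3 → 1 < dot G (zp z - P))}

/-- (KT-FIB) the inequality in a fibre -/
def S_FIB : Prop := ∀ P d1 d2 : Pl, Good P d1 d2 →
  2 * volume (SqG P d1 d2) ≤ volume (TrG P d1 d2)

/-- (KT-SLICE) the inequality for fixed first vertex and slopes -/
def S_SLICE : Prop := ∀ (P : Pl) (s t : ℝ), s ≠ t →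
  2 * volume {G | Psi P s t G ∈ MF} ≤ volume {G | Psi P s t G ∈ MD}

/-- (KT-MM) -/
def S_MM : Prop := 2 * m MF ≤ m MD

/-- (KT-CORE) the triangle beats the square -/
def S_CORE : Prop := m (R F4) ≤ m (R D0)

/-- homogeneous coordinates of the vertices -/
def hv (p : Pl × Pl × Pl) : Fin (2 + 1) → Sp 2 :=
  ![![p.1.1, p.1.2, 1], ![p.2.1.1, p.2.1.2, 1], ![p.2.2.1, p.2.2.2, 1]]

/-- the set `S` of continued fractions in the chart -/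
def pre (S : Set (CF 2)) : Set (Pl × Pl × Pl) :=
  {p | ∃ c ∈ S, c.1 = Set.range (fun i => line (hv p i))}

/-- the integer point `(x, y, 1)` -/
def emb (z : ℤ × ℤ) : Sp 2 := ![(z.1 : ℝ), (z.2 : ℝ), 1]

/-- (KT-FACE1) -/
def S_FACE1 : Prop := ∀ S : Set (ℤ × ℤ), (0, 0) ∈ S → (1, 0) ∈ S → (1, 1) ∈ S ∨ (0, 1) ∈ S →
  (∀ z : ℤ × ℤ, emb z ∈ convexHull ℝ (emb '' S) → z ∈ S) →
  pre (withFace (convexHull ℝ (emb '' S))) ⊆ R S

/-- (KT-FACE2) -/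
def S_FACE2 : Prop := ∀ S : Set (ℤ × ℤ), (0, 0) ∈ S → (1, 0) ∈ S → (1, 1) ∈ S ∨ (0, 1) ∈ S →
  R S ⊆ pre (withFace (convexHull ℝ (emb '' S)))

end Pool.Agent.R723.KT
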