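import Pool.Agent.R723.KT.Defs

set_option autoImplicit false
open MeasureTheory

/-!
# Project KT, second part: existence (invariance) of the Moebius measure
-/
namespace Pool.Agent.R723.KT

open Pool.Agent.R69.Klein

/-- the denominator of a projective map -/
def w (M : Matrix (Fin 3) (Fin 3) ℝ) (z : Pl) : ℝ := M 2 0 * z.1 + M 2 1 * z.2 + M 2 2

/-- the projective map of the plane given by a matrix -/
noncomputable def Phi (M : Matrix (Fin 3) (Fin 3) ℝ) (z : Pl) : Pl :=
  ((M 0 0 * z.1 + M 0 1 * z.2 + M 0 2) / w M z, (M 1 0 * z.1 + M 1 1 * z.2 + M 1 2) / w M z)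

/-- (KT-PROJ) change of variables for a projective map: the Jacobian is `det M / w ^ 3` -/
def S_PROJ : Prop := ∀ M : Matrix (Fin 3) (Fin 3) ℝ, M.det ≠ 0 → ∀ f : Pl → ENNReal,
  Measurable f → ∫⁻ z, f (Phi M z) * ENNReal.ofReal (|M.det| / |w M z| ^ 3) = ∫⁻ z, f z

/-- (KT-MINV) the Moebius density is invariant under projective maps -/
def S_MINV : Prop := ∀ M : Matrix (Fin 3) (Fin 3) ℝ, M.det ≠ 0 → ∀ f : Pl × Pl × Pl → ENNReal,
  Measurable f → ∫⁻ p, f (m3 (Phi M) p) ∂m = ∫⁻ p, f p ∂m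

/-- a Moebius measure: invariant, and given in the affine chart by the density `|det| ^ (-3)` up to
a constant factor -/
def IsMoebius [MeasurableSpace (CF 2)] (μ : Measure (CF 2)) : Prop :=
  Invariant μ ∧ ∃ k : ENNReal, k ≠ 0 ∧ k ≠ ⊤ ∧
    ∀ S : Set (CF 2), MeasurableSet (pre S) → μ S = k * m (pre S)

/-- (KT-EXIST) there is a Moebius measure -/
def S_EXIST : Prop := ∃ (_ : MeasurableSpace (CF 2)) (μ : Measure (CF 2)), IsMoebius μ

end Pool.Agent.R723.KT
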