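import Pool.Agent.R723.KT.Defs2

/-!
KT-EXIST (helper787): the Moebius measure on the continued fractions exists
-/

set_option autoImplicit false
open MeasureTheory

namespace Pool.Agent.R723.KT

open Pool.Agent.R69.Klein

namespace Exist787

theorem dt_hv (p : Pl × Pl × Pl) : dt (hv p) = D p := by
  unfold dt hv D ori
  rw [Matrix.det_fin_three]
  simp [Matrix.of_apply]
  ring

theorem null_D : m {p | D p = 0} = 0 := by
  have hmeas : MeasurableSet {p : Pl × Pl × Pl | D p = 0} := by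
    have : Measurable D := by
      unfold D ori
      fun_prop
    exact this (measurableSet_singleton 0)
  unfold m
  rw [withDensity_apply _ hmeas, setLIntegral_congr_fun (g := fun _ => 0) hmeas]
  · simp
  · intro p hp
    have hp' : D p = 0 := hp
    simp [hp']

theorem ae_li : ∀ᵐ p ∂m, LinearIndependent ℝ (hv p) := by
  rw [ae_iff]
  refine measure_mono_null (fun p hp => ?_) null_D
  by_contra h0
  exact hp (li_of_dt_ne_zero (by rw [dt_hv]; exact h0))

theorem null_line (a b c : ℝ) (h : ¬ (a = 0 ∧ b = 0 ∧ c = 0)) :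
    volume {z : Pl | a * z.1 + b * z.2 + c = 0} = 0 := by
  have hmeas : MeasurableSet {z : Pl | a * z.1 + b * z.2 + c = 0} :=
    measurableSet_eq_fun (by fun_prop) measurable_const
  rw [Measure.volume_eq_prod, Measure.measure_prod_null hmeas]
  by_cases hb : b = 0
  · by_cases ha : a = 0
    · refine Filter.Eventually.of_forall fun x => ?_
      have e : (Prod.mk x ⁻¹' {z : Pl | a * z.1 + b * z.2 + c = 0}) = ∅ := by
        ext y
        simp only [Set.mem_preimage, Set.mem_ofPred_eq, Set.mem_empty_iff_false, iff_false, ha, hb]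
        intro h0
        exact h ⟨ha, hb, by linarith⟩
      show volume (Prod.mk x ⁻¹' {z : Pl | a * z.1 + b * z.2 + c = 0}) = 0
      rw [e, measure_empty]
    · have h1 : ∀ᵐ x : ℝ, x ≠ -c / a := by
        rw [ae_iff]
        simp
      filter_upwards [h1] with x hx
      have e : (Prod.mk x ⁻¹' {z : Pl | a * z.1 + b * z.2 + c = 0}) = ∅ := by
        ext y
        simp only [Set.mem_preimage, Set.mem_ofPred_eq, Set.mem_empty_iff_false, iff_false, hb]
        intro h0
        apply hx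
        rw [eq_div_iff ha]
        linarith
      show volume (Prod.mk x ⁻¹' {z : Pl | a * z.1 + b * z.2 + c = 0}) = 0
      rw [e, measure_empty]
  · refine Filter.Eventually.of_forall fun x => ?_
    have e : (Prod.mk x ⁻¹' {z : Pl | a * z.1 + b * z.2 + c = 0}) ⊆ {-(a * x + c) / b} := by
      intro y hy
      have hy' : a * x + b * y + c = 0 := hy
      rw [Set.mem_singleton_iff, eq_div_iff hb]
      linarith
    exact measure_mono_null e (by simp)

theorem ae_w (M : Matrix (Fin 3) (Fin 3) ℝ) (hM : M.det ≠ 0) :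
    ∀ᵐ p ∂m, w M p.1 ≠ 0 ∧ w M p.2.1 ≠ 0 ∧ w M p.2.2 ≠ 0 := by
  have h0 : ¬ (M 2 0 = 0 ∧ M 2 1 = 0 ∧ M 2 2 = 0) := by
    rintro ⟨h1, h2, h3⟩
    apply hM
    rw [Matrix.det_fin_three, h1, h2, h3]
    ring
  have h1 : ∀ᵐ z : Pl, w M z ≠ 0 := by
    rw [ae_iff]
    refine measure_mono_null (fun z hz => ?_) (null_line _ _ _ h0)
    have hz' : ¬ (w M z ≠ 0) := hz
    exact not_not.1 hz'
  have hac : m ≪ volume := withDensity_absolutelyContinuous _ _
  have q1 : Measure.QuasiMeasurePreserving (fun p : Pl × Pl × Pl => p.1) volume volume :=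
    Measure.quasiMeasurePreserving_fst
  have q2 : Measure.QuasiMeasurePreserving (fun p : Pl × Pl × Pl => p.2) volume volume :=
    Measure.quasiMeasurePreserving_snd
  have q3 : Measure.QuasiMeasurePreserving (fun p : Pl × Pl => p.1) volume volume :=
    Measure.quasiMeasurePreserving_fst
  have q4 : Measure.QuasiMeasurePreserving (fun p : Pl × Pl => p.2) volume volume :=
    Measure.quasiMeasurePreserving_snd
  have h2 := (q1.ae h1).and (((q3.comp q2).ae h1).and ((q4.comp q2).ae h1))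
  exact hac.ae_le h2

/-- the continued fraction with given lines -/
def mkCF (u : Fin (2 + 1) → Sp 2) (h : LinearIndependent ℝ u) : CF 2 :=
  ⟨Set.range (fun i => line (u i)), u, h, rfl⟩

open Classical in
/-- the continued fraction of a triangle -/
noncomputable def Fc (p : Pl × Pl × Pl) : CF 2 :=
  if h : LinearIndependent ℝ (hv p) then mkCF (hv p) h else mkCF _ li_std

theorem Fc_val {p : Pl × Pl × Pl} (h : LinearIndependent ℝ (hv p)) :
    (Fc p).1 = Set.range (fun i => line (hv p i)) := by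
  have e : Fc p = mkCF (hv p) h := by
    unfold Fc
    rw [dif_pos h]
  rw [e]
  rfl

theorem mem_pre {p : Pl × Pl × Pl} (h : LinearIndependent ℝ (hv p)) (S : Set (CF 2)) :
    p ∈ pre S ↔ Fc p ∈ S := by
  constructor
  · rintro ⟨c, hc, he⟩
    have : c = Fc p := Subtype.ext (he.trans (Fc_val h).symm)
    rwa [← this]
  · intro hp
    exact ⟨Fc p, hp, Fc_val h⟩

theorem pre_ae (S : Set (CF 2)) : (pre S : Set (Pl × Pl × Pl)) =ᵐ[m] (Fc ⁻¹' S : Set _) := by
  rw [Filter.eventuallyEq_set]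
  filter_upwards [ae_li] with p hp
  exact mem_pre hp S

/-- the matrix of an automorphism -/
noncomputable def mat (g : Sp 2 ≃ₗ[ℝ] Sp 2) : Matrix (Fin 3) (Fin 3) ℝ :=
  LinearMap.toMatrix' (g.toLinearMap : (Fin 3 → ℝ) →ₗ[ℝ] (Fin 3 → ℝ))

theorem mat_det (g : Sp 2 ≃ₗ[ℝ] Sp 2) : (mat g).det ≠ 0 := by
  unfold mat
  rw [LinearMap.det_toMatrix']
  exact (LinearEquiv.isUnit_det' g).ne_zero

theorem mat_apply (g : Sp 2 ≃ₗ[ℝ] Sp 2) (z : Pl) (hw : w (mat g) z ≠ 0) :
    g ![z.1, z.2, 1] =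
      w (mat g) z • (![(Phi (mat g) z).1, (Phi (mat g) z).2, 1] : Fin (2 + 1) → ℝ) := by
  have h1 : g ![z.1, z.2, 1] = (mat g).mulVec ![z.1, z.2, 1] :=
    (LinearMap.toMatrix'_mulVec (g.toLinearMap : (Fin 3 → ℝ) →ₗ[ℝ] (Fin 3 → ℝ))
      ![z.1, z.2, 1]).symm
  rw [h1]
  have hw' : (mat g) 2 0 * z.1 + (mat g) 2 1 * z.2 + (mat g) 2 2 ≠ 0 := hw
  have key : ∀ a W : ℝ, W ≠ 0 → a = W * (a / W) := fun a W hW => by field_simp
  funext i
  fin_cases i
  · simp [Matrix.mulVec, dotProduct, Fin.sum_univ_three, Phi, w]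
    exact key _ _ hw'
  · simp [Matrix.mulVec, dotProduct, Fin.sum_univ_three, Phi, w]
    exact key _ _ hw'
  · simp [Matrix.mulVec, dotProduct, Fin.sum_univ_three, Phi, w]

theorem act_Fc (g : Sp 2 ≃ₗ[ℝ] Sp 2) (p : Pl × Pl × Pl) (hp : LinearIndependent ℝ (hv p))
    (h1 : w (mat g) p.1 ≠ 0) (h2 : w (mat g) p.2.1 ≠ 0) (h3 : w (mat g) p.2.2 ≠ 0) :
    act g (Fc p) = Fc (m3 (Phi (mat g)) p) := by
  obtain ⟨c, hc⟩ : ∃ c : Fin (2 + 1) → ℝ,
      c = ![w (mat g) p.1, w (mat g) p.2.1, w (mat g) p.2.2] := ⟨_, rfl⟩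
  have hg : ∀ i, g (hv p i) = c i • hv (m3 (Phi (mat g)) p) i := by
    intro i
    rw [hc]
    fin_cases i
    · exact mat_apply g p.1 h1
    · exact mat_apply g p.2.1 h2
    · exact mat_apply g p.2.2 h3
  have hc0 : ∀ i, c i ≠ 0 := by
    intro i
    rw [hc]
    fin_cases i
    · exact h1
    · exact h2
    · exact h3
  have hq : LinearIndependent ℝ (hv (m3 (Phi (mat g)) p)) := by
    have h4 := (li_map g hp).units_smul fun i => (Units.mk0 (c i) (hc0 i))⁻¹
    have e : hv (m3 (Phi (mat g)) p) =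
        (fun i => (Units.mk0 (c i) (hc0 i))⁻¹) • fun i => g (hv p i) := by
      funext i
      rw [Pi.smul_apply', hg i, Units.smul_def, Units.val_inv_eq_inv_val, Units.val_mk0,
        smul_smul, inv_mul_cancel₀ (hc0 i), one_smul]
    rw [e]
    exact h4
  apply Subtype.ext
  rw [act_range g (Fc p) (Fc_val hp), Fc_val hq]
  congr 1
  funext i
  unfold line
  rw [hg i]
  exact Submodule.span_singleton_smul_eq (isUnit_iff_ne_zero.2 (hc0 i)) _

theorem act_ae (g : Sp 2 ≃ₗ[ℝ] Sp 2) (S : Set (CF 2)) :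
    (Fc ⁻¹' (act g ⁻¹' S) : Set (Pl × Pl × Pl)) =ᵐ[m]
      ((m3 (Phi (mat g))) ⁻¹' (Fc ⁻¹' S) : Set _) := by
  rw [Filter.eventuallyEq_set]
  filter_upwards [ae_li, ae_w (mat g) (mat_det g)] with p hp hw
  rw [Set.mem_preimage, Set.mem_preimage, Set.mem_preimage, Set.mem_preimage,
    act_Fc g p hp hw.1 hw.2.1 hw.2.2]

theorem meas_Phi3 (M : Matrix (Fin 3) (Fin 3) ℝ) : Measurable (m3 (Phi M)) := by
  unfold m3 Phi w
  fun_prop

theorem mp_Phi (hI : S_MINV) (M : Matrix (Fin 3) (Fin 3) ℝ) (hM : M.det ≠ 0) :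
    MeasurePreserving (m3 (Phi M)) m m := by
  refine ⟨meas_Phi3 M, ?_⟩
  refine Measure.ext fun s hs => ?_
  rw [Measure.map_apply (meas_Phi3 M) hs]
  have h1 := hI M hM (s.indicator (fun _ => 1)) (measurable_const.indicator hs)
  have h2 : (fun p => s.indicator (fun _ => (1 : ENNReal)) (m3 (Phi M) p)) =
      ((m3 (Phi M)) ⁻¹' s).indicator fun _ => 1 := by
    funext p
    by_cases hp : m3 (Phi M) p ∈ s
    · rw [Set.indicator_of_mem hp, Set.indicator_of_mem (by exact hp)]
    · rw [Set.indicator_of_notMem hp, Set.indicator_of_notMem (by exact hp)]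
  rw [h2, lintegral_indicator (meas_Phi3 M hs), lintegral_indicator hs] at h1
  simpa using h1

end Exist787

open Exist787

theorem taskEXIST (hI : S_MINV) : S_EXIST := by
  classical
  let F : NullMeasurableSpace (Pl × Pl × Pl) m → CF 2 := Fc
  letI I : MeasurableSpace (CF 2) := MeasurableSpace.map F inferInstance
  have hF : Measurable F := fun s hs => hs
  have hms : ∀ S : Set (CF 2), MeasurableSet S ↔ NullMeasurableSet (Fc ⁻¹' S) m :=
    fun S => Iff.rfl
  obtain ⟨μ, hμd⟩ : ∃ μ : Measure (CF 2), μ = Measure.map F m.completion := ⟨_, rfl⟩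
  have hμ : ∀ S : Set (CF 2), MeasurableSet S → μ S = m (Fc ⁻¹' S) := by
    intro S hS
    rw [hμd, Measure.map_apply hF hS, Measure.coe_completion]
    rfl
  refine ⟨I, μ, ?_, 1, one_ne_zero, ENNReal.one_ne_top, fun S hS => ?_⟩
  · intro g
    have hmp := mp_Phi hI (mat g) (mat_det g)
    have hact : Measurable (act g) := by
      intro S hS
      rw [hms]
      exact (NullMeasurableSet.preimage ((hms S).1 hS)
        hmp.quasiMeasurePreserving).congr (act_ae g S).symm
    refine ⟨hact, ?_⟩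
    refine Measure.ext fun S hS => ?_
    rw [Measure.map_apply hact hS, hμ _ (hact hS), hμ _ hS, measure_congr (act_ae g S),
      hmp.measure_preimage ((hms S).1 hS)]
  · have hS' : MeasurableSet S := (hms S).2 (hS.nullMeasurableSet.congr (pre_ae S))
    rw [one_mul, hμ S hS', measure_congr (pre_ae S)]

end Pool.Agent.R723.KT
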