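import Pool.Agent.R723.KT.Defs

set_option autoImplicit false

/-!
# KT-FACE1: a face of the continued fraction gives the integer points of the triangle
-/

namespace Pool.Agent.R723.KT.FACE1

open Pool.Agent.R69.Klein Pool.Agent.R723.KT

/-- if all nonzero integer points of the cone have third coordinate at least one, then the
generators have nonnegative third coordinate -/
theorem gen_nonneg {u : Fin (2 + 1) → Sp 2} (hu : LinearIndependent ℝ u)
    (h : ∀ x : Sp 2, x ∈ cone u → IsInt x → x ≠ 0 → 1 ≤ x 2) (i : Fin (2 + 1)) : 0 ≤ u i 2 := by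
  by_contra hneg
  push Not at hneg
  obtain ⟨b, hb⟩ : ∃ b : Module.Basis (Fin (2 + 1)) ℝ (Sp 2), ⇑b = u :=
    ⟨basisOfLinearIndependentOfCardEqFinrank hu (by simp), by
      exact coe_basisOfLinearIndependentOfCardEqFinrank hu (by simp)⟩
  obtain ⟨C, hC⟩ : ∃ C : ℝ, C = ∑ j, ∑ k, |b.coord j (Pi.single k (1 : ℝ))| := ⟨_, rfl⟩
  have hC0 : 0 ≤ C := by
    rw [hC]
    exact Finset.sum_nonneg fun j _ => Finset.sum_nonneg fun k _ => abs_nonneg _
  have hbd : ∀ (j : Fin (2 + 1)) (f : Sp 2), (∀ k, |f k| ≤ 1) → |b.coord j f| ≤ C := by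
    intro j f hf
    have e1 : f = ∑ k, f k • (Pi.single k (1 : ℝ) : Sp 2) := by
      ext l
      rw [Finset.sum_apply]
      simp [Pi.single_apply]
    have e2 : b.coord j f = ∑ k, f k * b.coord j (Pi.single k (1 : ℝ)) := by
      conv_lhs => rw [e1]
      rw [map_sum]
      refine Finset.sum_congr rfl fun k _ => ?_
      rw [map_smul, smul_eq_mul]
    rw [e2]
    refine (Finset.abs_sum_le_sum_abs _ _).trans ?_
    have e3 : ∑ k, |f k * b.coord j (Pi.single k (1 : ℝ))| ≤
        ∑ k, |b.coord j (Pi.single k (1 : ℝ))| := by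
      refine Finset.sum_le_sum fun k _ => ?_
      rw [abs_mul]
      have := hf k
      have h2 := abs_nonneg (b.coord j (Pi.single k (1 : ℝ)))
      nlinarith
    refine e3.trans ?_
    rw [hC]
    exact Finset.single_le_sum
      (f := fun j => ∑ k, |b.coord j (Pi.single k (1 : ℝ))|)
      (fun j _ => Finset.sum_nonneg fun k _ => abs_nonneg _) (Finset.mem_univ j)
  obtain ⟨s, hs⟩ : ∃ s : ℝ, s = ∑ j, |u j 2| := ⟨_, rfl⟩
  have hs0 : 0 ≤ s := by rw [hs]; exact Finset.sum_nonneg fun j _ => abs_nonneg _
  obtain ⟨K, hK⟩ : ∃ K : ℝ, K = (s + 1) / (-u i 2) := ⟨_, rfl⟩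
  have hK0 : 0 ≤ K := by rw [hK]; exact div_nonneg (by linarith) (by linarith)
  have hKu : K * u i 2 = -(s + 1) := by
    have hne : -u i 2 ≠ 0 := by
      intro h0
      linarith
    rw [hK, div_mul_eq_mul_div, div_eq_iff hne]
    ring
  -- the real point
  obtain ⟨y, hy⟩ : ∃ y : Sp 2, y = ∑ j, ((C + 1) * (1 + if j = i then K else 0)) • u j := ⟨_, rfl⟩
  have hy2 : y 2 ≤ -1 := by
    have e1 : y 2 = (C + 1) * (∑ j, u j 2 + K * u i 2) := by
      rw [hy, Finset.sum_apply]
      have : ∀ j, (((C + 1) * (1 + if j = i then K else 0)) • u j) 2 =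
          (C + 1) * u j 2 + (C + 1) * (if j = i then K * u j 2 else 0) := by
        intro j
        rw [Pi.smul_apply, smul_eq_mul]
        split_ifs <;> ring
      simp only [this]
      rw [Finset.sum_add_distrib, ← Finset.mul_sum, ← Finset.mul_sum, Finset.sum_ite_eq' Finset.univ i,
        if_pos (Finset.mem_univ i)]
      ring
    have e2 : ∑ j, u j 2 ≤ s := by
      rw [hs]
      exact Finset.sum_le_sum fun j _ => le_abs_self _
    rw [e1, hKu]
    nlinarith
  obtain ⟨x, hx⟩ : ∃ x : Sp 2, x = fun j => ((⌊y j⌋ : ℤ) : ℝ) := ⟨_, rfl⟩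
  have hxi : IsInt x := fun j => ⟨⌊y j⌋, by rw [hx]⟩
  have hx2 : x 2 ≤ -1 := by
    have : x 2 ≤ y 2 := by rw [hx]; exact Int.floor_le _
    linarith
  have hx0 : x ≠ 0 := by
    intro h0
    rw [h0] at hx2
    simp only [Pi.zero_apply] at hx2
    linarith
  have hcone : x ∈ cone u := by
    refine ⟨fun j => b.coord j x, fun j => ?_, ?_⟩
    · have e1 : b.coord j y = (C + 1) * (1 + if j = i then K else 0) := by
        rw [hy, map_sum]
        have : ∀ k, b.coord j (((C + 1) * (1 + if k = i then K else 0)) • u k) =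
            if k = j then (C + 1) * (1 + if k = i then K else 0) else 0 := by
          intro k
          rw [map_smul, ← hb, smul_eq_mul, Module.Basis.coord_apply, Module.Basis.repr_self,
            Finsupp.single_apply]
          split_ifs <;> simp
        simp only [this]
        rw [Finset.sum_ite_eq' Finset.univ j, if_pos (Finset.mem_univ j)]
      have e2 : |b.coord j (y - x)| ≤ C := by
        apply hbd
        intro k
        rw [Pi.sub_apply, hx]
        have h1 := Int.floor_le (y k)
        have h2 := Int.lt_floor_add_one (y k)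
        rw [abs_le]
        constructor <;> linarith
      rw [map_sub, e1] at e2
      have e3 := (abs_le.1 e2).2
      have e4 : C + 1 ≤ (C + 1) * (1 + if j = i then K else 0) := by
        have : 0 ≤ if j = i then K else 0 := by split_ifs <;> linarith
        nlinarith
      show 0 ≤ b.coord j x
      linarith
    · have := b.sum_repr x
      rw [← hb]
      exact this
  have := h x hcone hxi hx0
  linarith

/-- membership in the cone of a triangle -/
theorem mem_cone_iff (p : Pl × Pl × Pl) (hD : D p ≠ 0) (z : ℤ × ℤ) :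
    emb z ∈ cone (hv p) ↔ inT p (zp z) := by
  have hD2 : 0 < D p * D p := mul_self_pos.2 hD
  constructor
  · rintro ⟨c, hc, hs⟩
    have s0 := congrFun hs 0
    have s1 := congrFun hs 1
    have s2 := congrFun hs 2
    simp [Fin.sum_univ_three, hv, emb] at s0 s1 s2
    have h0 := hc 0
    have h1 := hc 1
    have h2 := hc 2
    have k0 : L p (zp z) = c 0 * (D p * D p) := by
      simp only [L, D, ori, zp]
      rw [← s0, ← s1]
      have : c 2 = 1 - c 0 - c 1 := by linarith
      rw [this]
      ring
    have k1 : L (rot p) (zp z) = c 1 * (D p * D p) := by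
      simp only [L, D, ori, zp, rot]
      rw [← s0, ← s1]
      have : c 2 = 1 - c 0 - c 1 := by linarith
      rw [this]
      ring
    have k2 : L (rot (rot p)) (zp z) = c 2 * (D p * D p) := by
      simp only [L, D, ori, zp, rot]
      rw [← s0, ← s1]
      have : c 2 = 1 - c 0 - c 1 := by linarith
      rw [this]
      ring
    refine ⟨?_, ?_, ?_⟩
    · rw [k0]; positivity
    · rw [k1]; positivity
    · rw [k2]; positivity
  · rintro ⟨h0, h1, h2⟩
    refine ⟨![L p (zp z) / (D p * D p), L (rot p) (zp z) / (D p * D p),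
      L (rot (rot p)) (zp z) / (D p * D p)], ?_, ?_⟩
    · intro i
      fin_cases i
      · exact div_nonneg h0 hD2.le
      · exact div_nonneg h1 hD2.le
      · exact div_nonneg h2 hD2.le
    · have hDn : D p * D p ≠ 0 := hD2.ne'
      ext i
      rw [Fin.sum_univ_three]
      fin_cases i
      · simp [hv, emb]
        rw [div_mul_eq_mul_div, div_mul_eq_mul_div, div_mul_eq_mul_div, ← add_div, ← add_div,
          div_eq_iff hDn]
        simp only [L, D, ori, zp, rot]
        ring
      · simp [hv, emb]
        rw [div_mul_eq_mul_div, div_mul_eq_mul_div, div_mul_eq_mul_div, ← add_div, ← add_div,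
          div_eq_iff hDn]
        simp only [L, D, ori, zp, rot]
        ring
      · simp [hv, emb]
        rw [← add_div, ← add_div, div_eq_iff hDn]
        simp only [L, D, ori, zp, rot]
        ring

/-- the determinant of the homogeneous coordinates -/
theorem dt_hv (p : Pl × Pl × Pl) : dt (hv p) = D p := by
  unfold dt
  rw [Matrix.det_fin_three]
  simp [hv, D, ori]
  ring

theorem isInt_emb (z : ℤ × ℤ) : IsInt (emb z) := by
  intro i
  fin_cases i
  · exact ⟨z.1, by simp [emb]⟩
  · exact ⟨z.2, by simp [emb]⟩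
  · exact ⟨1, by simp [emb]⟩

theorem emb_ne_zero (z : ℤ × ℤ) : emb z ≠ 0 := by
  intro h
  have := congrFun h 2
  simp [emb] at this

theorem taskFACE1 : S_FACE1 := by
  rintro S h00 h10 h11 hcl p ⟨c, ⟨u, hu, hcu, φ, b, hφ, hK, hF, hdim⟩, hcp⟩
  have hmem : ∀ z ∈ S, emb z ∈ hull u ∧ φ (emb z) = b := by
    intro z hz
    have : emb z ∈ convexHull ℝ (emb '' S) := subset_convexHull ℝ _ ⟨z, hz, rfl⟩
    rw [hF] at this
    exact this
  have hdec : ∀ x : Sp 2, φ x = x 0 * φ ![1, 0, 0] + x 1 * φ ![0, 1, 0] + x 2 * φ ![0, 0, 1] := by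
    intro x
    have e : x = x 0 • ![1, 0, 0] + x 1 • ![0, 1, 0] + x 2 • (![0, 0, 1] : Sp 2) := by
      ext i
      fin_cases i <;> simp
    conv_lhs => rw [e]
    simp only [map_add, map_smul, smul_eq_mul]
  have f00 := (hmem _ h00).2
  have f10 := (hmem _ h10).2
  rw [hdec] at f00 f10
  simp [emb] at f00 f10
  have a0 : φ ![1, 0, 0] = 0 := by linarith
  have a1 : φ ![0, 1, 0] = 0 := by
    rcases h11 with h11 | h11
    · have f11 := (hmem _ h11).2
      rw [hdec] at f11
      simp [emb] at f11
      linarith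
    · have f11 := (hmem _ h11).2
      rw [hdec] at f11
      simp [emb] at f11
      linarith
  have hφx : ∀ x : Sp 2, φ x = b * x 2 := by
    intro x
    rw [hdec, a0, a1, f00]
    ring
  have hb0 : b ≠ 0 := by
    rintro rfl
    apply hφ
    ext x
    simp [hφx]
  have hcone0 : emb (0, 0) ∈ cone u := hull_subset_cone u (hmem _ h00).1
  have hbnn : 0 ≤ b := by
    have h1 : (2 : ℝ) • emb (0, 0) ∈ hull u := by
      refine subset_convexHull ℝ _ ⟨?_, ?_, ?_⟩
      · obtain ⟨d, hd, hde⟩ := hcone0
        refine ⟨fun i => 2 * d i, fun i => by have := hd i; positivity, ?_⟩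
        rw [← hde, Finset.smul_sum]
        exact Finset.sum_congr rfl fun i _ => by rw [mul_smul]
      · intro i
        obtain ⟨a, ha⟩ := isInt_emb (0, 0) i
        exact ⟨2 * a, by rw [Pi.smul_apply, smul_eq_mul, ha]; push_cast; ring⟩
      · exact smul_ne_zero (by norm_num) (emb_ne_zero _)
    have h2 := hK _ h1
    rw [hφx] at h2
    simp [emb] at h2
    linarith
  have hbp : 0 < b := lt_of_le_of_ne hbnn (Ne.symm hb0)
  have hint : ∀ x : Sp 2, x ∈ cone u → IsInt x → x ≠ 0 → 1 ≤ x 2 := by
    intro x hx hxi hx0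
    have h1 := hK x (subset_convexHull ℝ _ ⟨hx, hxi, hx0⟩)
    rw [hφx] at h1
    by_contra hcon
    push Not at hcon
    nlinarith
  have hnn := gen_nonneg hu hint
  -- comparison of the generators
  have hline : ∀ i, ∃ j, line (u i) = line (hv p j) := by
    intro i
    have : line (u i) ∈ c.1 := by rw [hcu]; exact ⟨i, rfl⟩
    rw [hcp] at this
    obtain ⟨j, hj⟩ := this
    exact ⟨j, hj.symm⟩
  choose τ hτ using hline
  have hscal : ∀ i, ∃ a : ℝ, 0 < a ∧ hv p (τ i) = a • u i := by
    intro i
    have h1 : hv p (τ i) ∈ line (u i) := by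
      rw [hτ i]
      exact Submodule.mem_span_singleton_self _
    obtain ⟨a, ha⟩ := Submodule.mem_span_singleton.1 h1
    refine ⟨a, ?_, ha.symm⟩
    have h2 : a * u i 2 = 1 := by
      have h3 := congrFun ha 2
      rw [Pi.smul_apply, smul_eq_mul] at h3
      rw [h3]
      obtain ⟨k, hk⟩ : ∃ k, k = τ i := ⟨_, rfl⟩
      rw [← hk]
      fin_cases k <;> simp [hv]
    by_contra hcon
    push Not at hcon
    have := hnn i
    nlinarith
  choose a ha hau using hscal
  have hτi : Function.Injective τ := by
    intro i j hij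
    by_contra hne
    have h1 : a i • u i = a j • u j := by rw [← hau, ← hau, hij]
    have h2 : LinearIndependent ℝ (fun k => (Units.mk0 (a k) (ha k).ne') • u k) :=
      hu.units_smul _
    exact hne (h2.injective (by simpa [Units.smul_def] using h1))
  have hτb : Function.Bijective τ := Finite.injective_iff_bijective.1 hτi
  obtain ⟨e, he⟩ : ∃ e : Equiv.Perm (Fin (2 + 1)), ∀ i, e i = τ i :=
    ⟨Equiv.ofBijective τ hτb, fun i => rfl⟩
  have hli : LinearIndependent ℝ (hv p) := by
    have h2 : LinearIndependent ℝ (fun k => (Units.mk0 (a k) (ha k).ne') • u k) :=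
      hu.units_smul _
    have h3 : (fun k => (Units.mk0 (a k) (ha k).ne') • u k) = hv p ∘ e := by
      funext k
      rw [Function.comp_apply, he, hau]
      rfl
    rw [h3] at h2
    exact (linearIndependent_equiv e).1 h2
  have hD : D p ≠ 0 := by
    rw [← dt_hv]
    exact dt_ne_zero_of_li hli
  have hcc : cone u = cone (hv p) := by
    apply Set.Subset.antisymm
    · rintro x ⟨d, hd, rfl⟩
      refine ⟨fun j => d (e.symm j) / a (e.symm j), fun j => div_nonneg (hd _) (ha _).le, ?_⟩
      rw [← Equiv.sum_comp e]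
      refine Finset.sum_congr rfl fun i _ => ?_
      have hai := (ha i).ne'
      simp only [Equiv.symm_apply_apply]
      rw [he, hau, smul_smul, div_mul_cancel₀ _ hai]
    · rintro x ⟨d, hd, rfl⟩
      refine ⟨fun i => d (e i) * a i, fun i => mul_nonneg (hd _) (ha _).le, ?_⟩
      rw [← Equiv.sum_comp e (fun j => d j • hv p j)]
      refine Finset.sum_congr rfl fun i _ => ?_
      show (d (e i) * a i) • u i = d (e i) • hv p (e i)
      rw [he, hau, smul_smul]
  refine ⟨hD, fun z => ?_⟩
  rw [← mem_cone_iff p hD z, ← hcc]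
  constructor
  · intro hz
    apply hcl
    rw [hF]
    refine ⟨subset_convexHull ℝ _ ⟨hz, isInt_emb z, emb_ne_zero z⟩, ?_⟩
    rw [hφx]
    simp [emb]
  · intro hz
    exact hull_subset_cone u (hmem z hz).1

end Pool.Agent.R723.KT.FACE1
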