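import Pool.Agent.R723.KT.Defs

set_option autoImplicit false
open MeasureTheory

namespace Pool.Agent.R723.KT.FACE2

open Pool.Agent.R69.Klein Pool.Agent.R723.KT

lemma li_hv (p : Pl × Pl × Pl) (hD : D p ≠ 0) : LinearIndependent ℝ (hv p) := by
  rw [Fintype.linearIndependent_iff]
  intro g hg
  have E1 := congrFun hg 0
  have E2 := congrFun hg 1
  have E3 := congrFun hg 2
  simp only [Fin.sum_univ_succ, Finset.univ_eq_empty, Finset.sum_empty, hv] at E1 E2 E3
  simp at E1 E2 E3
  have h1 : g 1 * D p = 0 := by
    unfold D ori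
    linear_combination (p.2.2.2 - p.1.2) * (E1 - p.1.1 * E3) - (p.2.2.1 - p.1.1) *
      (E2 - p.1.2 * E3)
  have h2 : g 2 * D p = 0 := by
    unfold D ori
    linear_combination - (p.2.1.2 - p.1.2) * (E1 - p.1.1 * E3) + (p.2.1.1 - p.1.1) *
      (E2 - p.1.2 * E3)
  have g1 : g 1 = 0 := (mul_eq_zero.mp h1).resolve_right hD
  have g2 : g 2 = 0 := (mul_eq_zero.mp h2).resolve_right hD
  have g0 : g 0 = 0 := by
    rw [g1, g2] at E3
    linarith
  intro i
  fin_cases i
  · exact g0
  · exact g1
  · exact g2

lemma cone_iff (p : Pl × Pl × Pl) (hD : D p ≠ 0) (z : ℤ × ℤ) :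
    emb z ∈ cone (hv p) ↔ inT p (zp z) := by
  have hD2 : 0 < D p ^ 2 := by positivity
  constructor
  · rintro ⟨c, hc, hz⟩
    have E1 := congrFun hz 0
    have E2 := congrFun hz 1
    have E3 := congrFun hz 2
    simp only [Fin.sum_univ_succ, Finset.univ_eq_empty, Finset.sum_empty, hv, emb] at E1 E2 E3
    simp at E1 E2 E3
    have e1 : L p (zp z) = c 0 * D p ^ 2 := by
      unfold L D ori zp
      simp only
      rw [← E1, ← E2]
      have : c 0 = 1 - c 1 - c 2 := by linarith
      rw [this]
      ring
    have e2 : L (rot p) (zp z) = c 1 * D p ^ 2 := by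
      unfold L D ori zp rot
      simp only
      rw [← E1, ← E2]
      have : c 0 = 1 - c 1 - c 2 := by linarith
      rw [this]
      ring
    have e3 : L (rot (rot p)) (zp z) = c 2 * D p ^ 2 := by
      unfold L D ori zp rot
      simp only
      rw [← E1, ← E2]
      have : c 0 = 1 - c 1 - c 2 := by linarith
      rw [this]
      ring
    refine ⟨?_, ?_, ?_⟩
    · rw [e1]; exact mul_nonneg (hc 0) hD2.le
    · rw [e2]; exact mul_nonneg (hc 1) hD2.le
    · rw [e3]; exact mul_nonneg (hc 2) hD2.le
  · rintro ⟨h1, h2, h3⟩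
    refine ⟨![L p (zp z) / D p ^ 2, L (rot p) (zp z) / D p ^ 2,
      L (rot (rot p)) (zp z) / D p ^ 2], ?_, ?_⟩
    · intro i
      fin_cases i
      · exact div_nonneg h1 hD2.le
      · exact div_nonneg h2 hD2.le
      · exact div_nonneg h3 hD2.le
    · have hD2' : D p ^ 2 ≠ 0 := hD2.ne'
      have k1 : L p (zp z) * p.1.1 + L (rot p) (zp z) * p.2.1.1 +
          L (rot (rot p)) (zp z) * p.2.2.1 = z.1 * D p ^ 2 := by
        unfold L D ori zp rot
        simp only
        ring
      have k2 : L p (zp z) * p.1.2 + L (rot p) (zp z) * p.2.1.2 +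
          L (rot (rot p)) (zp z) * p.2.2.2 = z.2 * D p ^ 2 := by
        unfold L D ori zp rot
        simp only
        ring
      have k3 : L p (zp z) + L (rot p) (zp z) + L (rot (rot p)) (zp z) = D p ^ 2 := by
        unfold L D ori zp rot
        simp only
        ring
      funext i
      fin_cases i
      · simp [Fin.sum_univ_succ, hv, emb]
        field_simp
        linarith
      · simp [Fin.sum_univ_succ, hv, emb]
        field_simp
        linarith
      · simp [Fin.sum_univ_succ, hv, emb]
        field_simp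
        linarith

lemma third (p : Pl × Pl × Pl) (c : Fin (2 + 1) → ℝ) :
    (∑ i, c i • hv p i) 2 = ∑ i, c i := by
  simp [Fin.sum_univ_succ, hv]

lemma emb_int (z : ℤ × ℤ) : IsInt (emb z) := by
  intro i
  fin_cases i
  · exact ⟨z.1, by simp [emb]⟩
  · exact ⟨z.2, by simp [emb]⟩
  · exact ⟨1, by simp [emb]⟩

lemma emb_third (z : ℤ × ℤ) : (emb z) 2 = 1 := by simp [emb]

theorem taskFACE2 : S_FACE2 := by
  intro S h00 h10 h2 p hp
  obtain ⟨hD, hS⟩ := hp
  have hli := li_hv p hD
  let φ : Sp 2 →ₗ[ℝ] ℝ := LinearMap.proj 2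
  have hφ : ∀ x : Sp 2, φ x = x 2 := fun x => rfl
  have hgen : ∀ x ∈ {x | x ∈ cone (hv p) ∧ IsInt x ∧ x ≠ 0}, (1 : ℝ) ≤ φ x := by
    rintro x ⟨⟨c, hc, rfl⟩, hint, hne⟩
    rw [hφ]
    have h3 := third p c
    obtain ⟨k, hk⟩ := hint 2
    have hpos : 0 < ∑ i, c i := by
      rcases (Finset.sum_nonneg fun i _ => hc i : 0 ≤ ∑ i, c i).lt_or_eq with h | h
      · exact h
      · exfalso
        apply hne
        have : ∀ i ∈ Finset.univ, c i = 0 := by
          rw [← Finset.sum_eq_zero_iff_of_nonneg (fun i _ => hc i)]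
          exact h.symm
        exact Finset.sum_eq_zero fun i hi => by rw [this i hi, zero_smul]
    rw [← h3, hk] at hpos
    rw [hk]
    have : 0 < k := by exact_mod_cast hpos
    exact_mod_cast this
  have hF : convexHull ℝ (emb '' S) = {x | x ∈ hull (hv p) ∧ φ x = 1} := by
    apply Set.Subset.antisymm
    · apply convexHull_min
      · rintro _ ⟨z, hz, rfl⟩
        refine ⟨subset_convexHull ℝ _ ⟨(cone_iff p hD z).mpr ((hS z).mpr hz), emb_int z, ?_⟩,
          emb_third z⟩
        intro h
        have := congrFun h 2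
        rw [emb_third] at this
        simp at this
      · exact (convex_convexHull ℝ _).inter ((convex_singleton (1 : ℝ)).linear_preimage φ)
    · rintro x ⟨hx, hx1⟩
      have := mem_convexHull_face hgen hx hx1
      refine convexHull_mono ?_ this
      rintro s ⟨⟨hs1, hs2, _⟩, hs4⟩
      obtain ⟨a, ha⟩ := hs2 0
      obtain ⟨b, hb⟩ := hs2 1
      have he : emb (a, b) = s := by
        funext i
        fin_cases i
        · simp [emb, ha]
        · simp [emb, hb]
        · have : s 2 = 1 := hs4
          simp [emb, this]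
      refine ⟨(a, b), ?_, he⟩
      rw [← hS, ← cone_iff p hD, he]
      exact hs1
  refine ⟨⟨Set.range (fun i => line (hv p i)), hv p, hli, rfl⟩, ?_, rfl⟩
  refine ⟨hv p, hli, rfl, φ, 1, ?_, ?_, hF, ?_⟩
  · intro h
    have h1 : φ (emb (0, 0)) = 1 := emb_third (0, 0)
    rw [h] at h1
    simp at h1
  · intro x hx
    have hc : Convex ℝ {x : Sp 2 | (1 : ℝ) ≤ φ x} := (convex_Ici (1 : ℝ)).linear_preimage φ
    exact convexHull_min hgen hc hx
  · -- dimension
    let e0 : Sp 2 := ![1, 0, 0]
    let e1 : Sp 2 := ![0, 1, 0]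
    have hspan : vectorSpan ℝ (convexHull ℝ (emb '' S)) = Submodule.span ℝ {e0, e1} := by
      apply le_antisymm
      · rw [vectorSpan, Submodule.span_le]
        rintro _ ⟨x, hx, y, hy, rfl⟩
        have hx' : φ x = 1 := by rw [hF] at hx; exact hx.2
        have hy' : φ y = 1 := by rw [hF] at hy; exact hy.2
        rw [hφ] at hx' hy'
        rw [SetLike.mem_coe, Submodule.mem_span_pair]
        refine ⟨x 0 - y 0, x 1 - y 1, ?_⟩
        funext i
        fin_cases i
        · simp [e0, e1]
        · simp [e0, e1]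
        · simp [e0, e1, hx', hy']
      · rw [Submodule.span_le]
        have hm : ∀ z ∈ S, emb z ∈ convexHull ℝ (emb '' S) := fun z hz =>
          subset_convexHull ℝ _ ⟨z, hz, rfl⟩
        rintro x (rfl | rfl)
        · have : e0 = emb (1, 0) - emb (0, 0) := by
            funext i
            fin_cases i <;> simp [e0, emb]
          rw [this]
          exact vsub_mem_vectorSpan ℝ (hm _ h10) (hm _ h00)
        · rcases h2 with h | h
          · have : e1 = emb (1, 1) - emb (1, 0) := by
              funext i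
              fin_cases i <;> simp [e1, emb]
            rw [this]
            exact vsub_mem_vectorSpan ℝ (hm _ h) (hm _ h10)
          · have : e1 = emb (0, 1) - emb (0, 0) := by
              funext i
              fin_cases i <;> simp [e1, emb]
            rw [this]
            exact vsub_mem_vectorSpan ℝ (hm _ h) (hm _ h00)
    rw [hspan]
    have hli2 : LinearIndependent ℝ ![e0, e1] := by
      rw [LinearIndependent.pair_iff]
      intro s t hst
      have h0 := congrFun hst 0
      have h1 := congrFun hst 1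
      simp [e0, e1] at h0 h1
      exact ⟨h0, h1⟩
    have := finrank_span_eq_card hli2
    simp only [Fintype.card_fin] at this
    rw [Matrix.range_cons, Matrix.range_cons, Matrix.range_empty, Set.union_empty] at this
    exact this

end Pool.Agent.R723.KT.FACE2
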