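import Pool.Agent.R723.KT.Defs

set_option autoImplicit false
open MeasureTheory

/-! (KT-FIB) the inequality in a fibre -/

namespace Pool.Agent.R723.KT.FIB

open Pool.Agent.R723.KT

theorem dot_sub (G : Pl) (P : Pl) (z : Pl) :
    dot G (z - P) = -(P.1 * G.1 + P.2 * G.2) + z.1 * G.1 + z.2 * G.2 := by
  simp only [dot, Prod.fst_sub, Prod.snd_sub]; ring

theorem dir_pos {G d : Pl} (hd0 : d.1 ≠ 0 ∨ d.2 ≠ 0) (hs : G.2 < -G.1) (hp : 0 < G.2)
    (h1 : d.1 ≤ 0) (h2 : d.1 ≤ d.2) : 0 < dot G d := by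
  unfold dot
  rcases h1.lt_or_eq with h | h
  · nlinarith [mul_nonneg hp.le (sub_nonneg.2 h2), mul_pos (neg_pos.2 h) (sub_pos.2 hs)]
  · rw [h] at h2 hd0 ⊢
    have : 0 < d.2 := lt_of_le_of_ne h2 (fun e => by
      rcases hd0 with h' | h'
      · exact h' rfl
      · exact h' e.symm)
    nlinarith [mul_pos hp this]

theorem dir_pos' {G d : Pl} (hd0 : d.1 ≠ 0 ∨ d.2 ≠ 0) (hs : 0 < -G.1) (hp : 0 < G.2)
    (h1 : d.1 ≤ 0) (h2 : 0 ≤ d.2) : 0 < dot G d := by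
  unfold dot
  rcases h1.lt_or_eq with h | h
  · nlinarith [mul_nonneg hp.le h2, mul_pos (neg_pos.2 h) hs]
  · rw [h] at hd0 ⊢
    have : 0 < d.2 := lt_of_le_of_ne h2 (fun e => by
      rcases hd0 with h' | h'
      · exact h' rfl
      · exact h' e.symm)
    nlinarith [mul_pos hp this]

theorem taskFIB (hL : S_LAT) (hA : S_AREA) : S_FIB := by
  intro P d1 d2 hG
  obtain ⟨hz, hA1, ⟨ha1, ha2⟩, ⟨hb1, hb2⟩, hAb, hm, hlow⟩ := hL P d1 d2 hG
  obtain ⟨hT1, hT2, hT3⟩ := hA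
  have hli := hG.li
  have hd1 : d1.1 ≠ 0 ∨ d1.2 ≠ 0 := by
    by_contra h
    push Not at h
    apply hli; rw [h.1, h.2]; ring
  have hd2 : d2.1 ≠ 0 ∨ d2.2 ≠ 0 := by
    by_contra h
    push Not at h
    apply hli; rw [h.1, h.2]; ring
  -- the lattice points
  have hx : ∀ z : ℤ × ℤ, zp z ∈ K P d1 d2 → z ∉ D3 → z.1 ≤ 0 ∧ (z.1 = 0 → 1 ≤ z.2) ∧
      z.1 ≤ z.2 := by
    intro z hzK hzD
    obtain ⟨q1, q2, q3, -, -⟩ := hz z hzK
    have h1 : z.1 ≤ 0 := by
      by_contra h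
      push Not at h
      rcases q1 (by omega) with h' | h' <;> exact hzD (by simp [h', D3])
    refine ⟨h1, fun h0 => ?_, q3 h1⟩
    have := q2 h0
    rcases this.lt_or_eq with h | h
    · omega
    · exfalso
      apply hzD
      have : z = (0, 0) := Prod.ext h0 h.symm
      simp [this, D3]
  -- values at the points of `K`
  have c1 : ∀ G : Pl, -(P.1 * G.1 + P.2 * G.2) < 1 → 1 < -(P.1 * G.1 + P.2 * G.2) + G.2 →
      G.2 < -G.1 → (∀ z : ℤ × ℤ, zp z ∈ K P d1 d2 → z.1 ≤ -1 → z.2 = z.1 →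
        1 < -(P.1 * G.1 + P.2 * G.2) - G.1 - G.2) → G ∈ TrG P d1 d2 := by
    intro G h1 h2 h3 h4
    have hd : 0 < G.2 := by linarith
    refine ⟨dir_pos hd1 h3 hd ha1 ha2, dir_pos hd2 h3 hd hb1 hb2, ?_, ?_⟩
    · intro z hzD
      rw [dot_sub]
      simp only [D3, Set.mem_insert_iff, Set.mem_singleton_iff] at hzD
      rcases hzD with rfl | rfl | rfl <;> simp only [zp] <;> push_cast <;> linarith
    · intro z hzK hzD
      obtain ⟨q1, q2, q3⟩ := hx z hzK hzD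
      rw [dot_sub]
      simp only [zp]
      rcases q1.lt_or_eq with h | h
      · have e1 : (z.1 : ℝ) ≤ -1 := by exact_mod_cast (by omega : z.1 ≤ -1)
        rcases q3.lt_or_eq with h' | h'
        · have e2 : (z.1 : ℝ) + 1 ≤ z.2 := by exact_mod_cast (by omega : z.1 + 1 ≤ z.2)
          nlinarith [mul_nonneg hd.le (sub_nonneg.2 e2),
            mul_nonneg (sub_nonneg.2 h3.le) (by linarith : (0 : ℝ) ≤ -1 - z.1)]
        · have e2 : (z.2 : ℝ) = z.1 := by exact_mod_cast h'.symm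
          have h5 := h4 z hzK (by omega) h'.symm
          rw [e2]
          nlinarith [mul_nonneg (sub_nonneg.2 h3.le) (by linarith : (0 : ℝ) ≤ -1 - z.1)]
      · have e1 : (z.1 : ℝ) = 0 := by exact_mod_cast h
        have e2 : (1 : ℝ) ≤ z.2 := by exact_mod_cast q2 h
        rw [e1]
        nlinarith [mul_nonneg hd.le (sub_nonneg.2 e2)]
  -- the squares
  have s1 : SqG P d1 d2 ⊆ {G : Pl | -(P.1 * G.1 + P.2 * G.2) + G.2 ≤ 1 ∧
      1 ≤ -(P.1 * G.1 + P.2 * G.2) + 2 * G.2 ∧ 1 ≤ -(P.1 * G.1 + P.2 * G.2) - G.1} := by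
    rintro G ⟨-, -, g1, g2, g3, -⟩
    have k1 := g1 (0, 1) (by simp [F4])
    have k2 := g2 (0, 2) (by simpa [zp] using hG.h02) (by simp [F4])
    rw [dot_sub] at k1 k2 g3
    simp only [zp] at k1 k2
    push_cast at k1 k2
    refine ⟨by linarith, by linarith, by linarith⟩
  by_cases hK : ((-1, -1) : Pl) ∈ K P d1 d2
  · -- case (i)
    have hb := hm hK
    have s2 : SqG P d1 d2 ⊆ {G : Pl | -(P.1 * G.1 + P.2 * G.2) + G.2 ≤ 1 ∧
        1 ≤ -(P.1 * G.1 + P.2 * G.2) + 2 * G.2 ∧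
        1 ≤ -(P.1 * G.1 + P.2 * G.2) - G.1 - G.2} := by
      intro G hGG
      obtain ⟨k1, k2, -⟩ := s1 hGG
      obtain ⟨-, -, -, g2, -, -⟩ := hGG
      have k3 := g2 (-1, -1) (by simpa [zp] using hK) (by simp [F4])
      rw [dot_sub] at k3
      simp only [zp] at k3
      push_cast at k3
      exact ⟨k1, k2, by linarith⟩
    have t2 : {G : Pl | -(P.1 * G.1 + P.2 * G.2) < 1 ∧ 1 < -(P.1 * G.1 + P.2 * G.2) + G.2 ∧
        1 < -(P.1 * G.1 + P.2 * G.2) - G.1 - G.2} ⊆ TrG P d1 d2 := by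
      rintro G ⟨g1, g2, g3⟩
      exact c1 G g1 g2 (by linarith) (fun _ _ _ _ => g3)
    calc 2 * volume (SqG P d1 d2) ≤ 2 * volume _ := by gcongr
      _ ≤ _ := hT2 P.1 P.2 hA1 hb.le hAb
      _ ≤ _ := measure_mono t2
  · have t2 : {G : Pl | -(P.1 * G.1 + P.2 * G.2) < 1 ∧ 1 < -(P.1 * G.1 + P.2 * G.2) + G.2 ∧
        G.2 < -G.1} ⊆ TrG P d1 d2 := by
      rintro G ⟨g1, g2, g3⟩
      exact c1 G g1 g2 g3 (fun z hzK h1 h2 => absurd ((hz z hzK).2.2.2.1 h1 h2) hK)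
    by_cases hb : -2 ≤ P.2
    · calc 2 * volume (SqG P d1 d2) ≤ 2 * volume _ := by gcongr
        _ ≤ _ := hT1 P.1 P.2 hA1 hb hAb
        _ ≤ _ := measure_mono t2
    · push Not at hb
      obtain ⟨l1, l2, l3⟩ := hlow hb
      have t3 : {G : Pl | -G.1 < G.2 ∧ -(P.1 * G.1 + P.2 * G.2) + G.1 + G.2 < 1 ∧
          1 < -(P.1 * G.1 + P.2 * G.2) - G.1} ⊆ TrG P d1 d2 := by
        rintro G ⟨g1, g2, g3⟩
        have hs : 0 < -G.1 := by linarith
        have hd : 0 < G.2 := by linarith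
        refine ⟨dir_pos' hd1 hs hd ha1 l2, dir_pos' hd2 hs hd hb1 l3, ?_, ?_⟩
        · intro z hzD
          rw [dot_sub]
          simp only [D3, Set.mem_insert_iff, Set.mem_singleton_iff] at hzD
          rcases hzD with rfl | rfl | rfl <;> simp only [zp] <;> push_cast <;> linarith
        · intro z hzK hzD
          obtain ⟨q1, q2, q3⟩ := hx z hzK hzD
          have q4 := (hz z hzK).2.2.2.2 hb q1
          rw [dot_sub]
          simp only [zp]
          have e0 : (0 : ℝ) ≤ z.2 := by exact_mod_cast q4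
          rcases q1.lt_or_eq with h | h
          · have e1 : (z.1 : ℝ) ≤ -1 := by exact_mod_cast (by omega : z.1 ≤ -1)
            nlinarith [mul_nonneg hd.le e0, mul_nonneg hs.le (by linarith : (0 : ℝ) ≤ -1 - z.1)]
          · have e1 : (z.1 : ℝ) = 0 := by exact_mod_cast h
            have e2 : (1 : ℝ) ≤ z.2 := by exact_mod_cast q2 h
            rw [e1]
            nlinarith [mul_nonneg hd.le (sub_nonneg.2 e2)]
      calc 2 * volume (SqG P d1 d2) ≤ 2 * volume _ := by gcongr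
        _ ≤ _ := hT3 P.1 P.2 hA1 (by linarith) l1
        _ ≤ _ := measure_mono (Set.union_subset t2 t3)

end Pool.Agent.R723.KT.FIB
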