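import Pool.Agent.R723.KT.Defs

set_option autoImplicit false
open MeasureTheory

namespace Pool.Agent.R723.KT.Final

open Pool.Agent.R69.Klein

theorem emb_F4 : emb '' F4 = {![0, 0, 1], ![1, 0, 1], ![1, 1, 1], ![0, 1, 1]} := by
  unfold F4 emb
  ext x
  simp only [Set.mem_image, Set.mem_insert_iff, Set.mem_singleton_iff]
  constructor
  · rintro ⟨z, (rfl | rfl | rfl | rfl), rfl⟩
    · left; norm_num
    · right; left; norm_num
    · right; right; right; norm_num
    · right; right; left; norm_num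
  · rintro (rfl | rfl | rfl | rfl)
    · exact ⟨(0, 0), by simp, by norm_num⟩
    · exact ⟨(1, 0), by simp, by norm_num⟩
    · exact ⟨(1, 1), by simp, by norm_num⟩
    · exact ⟨(0, 1), by simp, by norm_num⟩

theorem emb_D0 : emb '' D0 = {![0, 0, 1], ![1, 0, 1], ![0, 1, 1]} := by
  unfold D0 emb
  ext x
  simp only [Set.mem_image, Set.mem_insert_iff, Set.mem_singleton_iff]
  constructor
  · rintro ⟨z, (rfl | rfl | rfl), rfl⟩
    · left; norm_num
    · right; left; norm_num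
    · right; right; norm_num
  · rintro (rfl | rfl | rfl)
    · exact ⟨(0, 0), by simp, by norm_num⟩
    · exact ⟨(1, 0), by simp, by norm_num⟩
    · exact ⟨(0, 1), by simp, by norm_num⟩

theorem hull_bound {S : Set (ℤ × ℤ)} {a b c : ℝ}
    (h : ∀ z ∈ S, a * (z.1 : ℝ) + b * (z.2 : ℝ) ≤ c) (z : ℤ × ℤ)
    (hz : emb z ∈ convexHull ℝ (emb '' S)) : a * (z.1 : ℝ) + b * (z.2 : ℝ) ≤ c := by
  have hcv : Convex ℝ {x : Sp 2 | a * x 0 + b * x 1 ≤ c} := by
    intro x hx y hy s t hs ht hst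
    simp only [Set.mem_setOf_eq, Pi.add_apply, Pi.smul_apply, smul_eq_mul] at *
    have h1 := mul_le_mul_of_nonneg_left hx hs
    have h2 := mul_le_mul_of_nonneg_left hy ht
    have h3 : s * c + t * c = c := by rw [← add_mul, hst, one_mul]
    nlinarith
  have h1 : emb z ∈ {x : Sp 2 | a * x 0 + b * x 1 ≤ c} := by
    refine convexHull_min ?_ hcv hz
    rintro _ ⟨w, hw, rfl⟩
    exact h w hw
  exact h1

theorem latt_F4 (z : ℤ × ℤ) (hz : emb z ∈ convexHull ℝ (emb '' F4)) : z ∈ F4 := by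
  have h1 := hull_bound (S := F4) (a := 1) (b := 0) (c := 1) (by
    rintro w (rfl | rfl | rfl | rfl) <;> norm_num) z hz
  have h2 := hull_bound (S := F4) (a := -1) (b := 0) (c := 0) (by
    rintro w (rfl | rfl | rfl | rfl) <;> norm_num) z hz
  have h3 := hull_bound (S := F4) (a := 0) (b := 1) (c := 1) (by
    rintro w (rfl | rfl | rfl | rfl) <;> norm_num) z hz
  have h4 := hull_bound (S := F4) (a := 0) (b := -1) (c := 0) (by
    rintro w (rfl | rfl | rfl | rfl) <;> norm_num) z hz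
  obtain ⟨x, y⟩ := z
  simp only at h1 h2 h3 h4
  have e1 : (x : ℝ) ≤ 1 := by linarith
  have e2 : (0 : ℝ) ≤ x := by linarith
  have e3 : (y : ℝ) ≤ 1 := by linarith
  have e4 : (0 : ℝ) ≤ y := by linarith
  have i1 : x ≤ 1 := by exact_mod_cast e1
  have i2 : 0 ≤ x := by exact_mod_cast e2
  have i3 : y ≤ 1 := by exact_mod_cast e3
  have i4 : 0 ≤ y := by exact_mod_cast e4
  have hx : x = 0 ∨ x = 1 := by omega
  have hy : y = 0 ∨ y = 1 := by omega
  unfold F4
  rcases hx with rfl | rfl <;> rcases hy with rfl | rfl <;> simp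

theorem latt_D0 (z : ℤ × ℤ) (hz : emb z ∈ convexHull ℝ (emb '' D0)) : z ∈ D0 := by
  have h1 := hull_bound (S := D0) (a := 1) (b := 1) (c := 1) (by
    rintro w (rfl | rfl | rfl) <;> norm_num) z hz
  have h2 := hull_bound (S := D0) (a := -1) (b := 0) (c := 0) (by
    rintro w (rfl | rfl | rfl) <;> norm_num) z hz
  have h4 := hull_bound (S := D0) (a := 0) (b := -1) (c := 0) (by
    rintro w (rfl | rfl | rfl) <;> norm_num) z hz
  obtain ⟨x, y⟩ := z
  simp only at h1 h2 h4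
  have e1 : (x : ℝ) + y ≤ 1 := by linarith
  have e2 : (0 : ℝ) ≤ x := by linarith
  have e4 : (0 : ℝ) ≤ y := by linarith
  have i1 : x + y ≤ 1 := by exact_mod_cast e1
  have i2 : 0 ≤ x := by exact_mod_cast e2
  have i4 : 0 ≤ y := by exact_mod_cast e4
  have hx : (x = 0 ∧ y = 0) ∨ (x = 1 ∧ y = 0) ∨ (x = 0 ∧ y = 1) := by omega
  unfold D0
  rcases hx with ⟨rfl, rfl⟩ | ⟨rfl, rfl⟩ | ⟨rfl, rfl⟩ <;> simp

theorem pre_F4 (h1 : S_FACE1) (h2 : S_FACE2) :
    pre (withFace (convexHull ℝ {![0, 0, 1], ![1, 0, 1], ![1, 1, 1], ![0, 1, 1]})) = R F4 := by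
  rw [← emb_F4]
  exact Set.Subset.antisymm
    (h1 F4 (by simp [F4]) (by simp [F4]) (Or.inl (by simp [F4])) latt_F4)
    (h2 F4 (by simp [F4]) (by simp [F4]) (Or.inl (by simp [F4])))

theorem pre_D0 (h1 : S_FACE1) (h2 : S_FACE2) :
    pre (withFace (convexHull ℝ {![0, 0, 1], ![1, 0, 1], ![0, 1, 1]})) = R D0 := by
  rw [← emb_D0]
  exact Set.Subset.antisymm
    (h1 D0 (by simp [D0]) (by simp [D0]) (Or.inr (by simp [D0])) latt_D0)
    (h2 D0 (by simp [D0]) (by simp [D0]) (Or.inr (by simp [D0])))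

theorem square_le_triangle (hC : S_CORE) (h1 : S_FACE1) (h2 : S_FACE2) (hM : S_MEAS)
    [MeasurableSpace (CF 2)] (μ : Measure (CF 2)) (k : ENNReal)
    (hk : ∀ S : Set (CF 2), MeasurableSet (pre S) → μ S = k * m (pre S)) :
    μ (withFace (convexHull ℝ {![0, 0, 1], ![1, 0, 1], ![1, 1, 1], ![0, 1, 1]})) ≤
      μ (withFace (convexHull ℝ {![0, 0, 1], ![1, 0, 1], ![0, 1, 1]})) := by
  rw [hk _ (by rw [pre_F4 h1 h2]; exact hM.1 _), hk _ (by rw [pre_D0 h1 h2]; exact hM.1 _),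
    pre_F4 h1 h2, pre_D0 h1 h2]
  exact mul_le_mul_right hC k

end Pool.Agent.R723.KT.Final
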