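import Pool.Agent.R723.KT.Defs

set_option autoImplicit false

namespace Pool.Agent.R723.KT.LAT

open Pool.Agent.R723.KT

theorem K_comb {P d1 d2 z w : Pl} (hz : z ∈ K P d1 d2) (hw : w ∈ K P d1 d2) {t : ℝ}
    (h0 : 0 ≤ t) (h1 : t ≤ 1) :
    (((1 - t) * z.1 + t * w.1, (1 - t) * z.2 + t * w.2) : Pl) ∈ K P d1 d2 := by
  obtain ⟨a, b, ha, hb, rfl⟩ := hz
  obtain ⟨a', b', ha', hb', rfl⟩ := hw
  have h2 : 0 ≤ 1 - t := by linarith
  refine ⟨(1 - t) * a + t * a', (1 - t) * b + t * b', by positivity, by positivity, ?_⟩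
  apply Prod.ext
  · simp only [Prod.fst_add, Prod.smul_fst, smul_eq_mul]; ring
  · simp only [Prod.snd_add, Prod.smul_snd, smul_eq_mul]; ring

theorem K_P {P d1 d2 : Pl} : P ∈ K P d1 d2 := ⟨0, 0, le_rfl, le_rfl, by simp⟩

theorem K_add {P d1 d2 z : Pl} (hz : z ∈ K P d1 d2) {r : ℝ} (hr : 0 ≤ r) :
    ((z.1 + r * d1.1, z.2 + r * d1.2) : Pl) ∈ K P d1 d2 := by
  obtain ⟨a, b, ha, hb, rfl⟩ := hz
  refine ⟨a + r, b, by positivity, hb, ?_⟩
  apply Prod.ext
  · simp only [Prod.fst_add, Prod.smul_fst, smul_eq_mul]; ring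
  · simp only [Prod.snd_add, Prod.smul_snd, smul_eq_mul]; ring

theorem K_scale {P d1 d2 z : Pl} (hz : z ∈ K P d1 d2) {r : ℝ} (hr : 0 ≤ r) :
    ((P.1 + r * (z.1 - P.1), P.2 + r * (z.2 - P.2)) : Pl) ∈ K P d1 d2 := by
  obtain ⟨a, b, ha, hb, rfl⟩ := hz
  refine ⟨r * a, r * b, by positivity, by positivity, ?_⟩
  apply Prod.ext
  · simp only [Prod.fst_add, Prod.smul_fst, smul_eq_mul]; ring
  · simp only [Prod.snd_add, Prod.smul_snd, smul_eq_mul]; ring

theorem K_symm (P d1 d2 : Pl) : K P d1 d2 = K P d2 d1 := by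
  ext z
  constructor
  · rintro ⟨a, b, ha, hb, rfl⟩
    exact ⟨b, a, hb, ha, by abel⟩
  · rintro ⟨a, b, ha, hb, rfl⟩
    exact ⟨b, a, hb, ha, by abel⟩

theorem Good_symm {P d1 d2 : Pl} (h : Good P d1 d2) : Good P d2 d1 := by
  obtain ⟨h1, h2, h3, h4, h5, h6, h7, h8, h9, h10, h11, h12⟩ := h
  rw [K_symm] at h2 h3 h4 h5 h6 h7 h8 h9 h10 h11 h12
  exact ⟨fun h => h1 (by linarith), h2, h3, h4, h5, h6, h7, h8, h9, h10, h11, h12⟩

theorem vert {P d1 d2 : Pl} {x y1 y2 y : ℝ} (h1 : ((x, y1) : Pl) ∈ K P d1 d2)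
    (h2 : ((x, y2) : Pl) ∈ K P d1 d2) (a : y1 ≤ y) (b : y ≤ y2) : ((x, y) : Pl) ∈ K P d1 d2 := by
  rcases eq_or_lt_of_le (a.trans b) with h | h
  · have : y = y1 := by linarith
    rw [this]; exact h1
  · have h3 : 0 < y2 - y1 := by linarith
    have h4 := K_comb h1 h2 (t := (y - y1) / (y2 - y1)) (div_nonneg (by linarith) h3.le)
      ((div_le_one h3).2 (by linarith))
    convert h4 using 2
    · simp only; ring
    · simp only; field_simp; ring

theorem cut {P d1 d2 z w : Pl} (hz : z ∈ K P d1 d2) (hw : w ∈ K P d1 d2) {c : ℝ} (h1 : z.1 ≤ c)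
    (h2 : c ≤ w.1) (h3 : z.1 < w.1) :
    ((c, (z.2 * (w.1 - c) + w.2 * (c - z.1)) / (w.1 - z.1)) : Pl) ∈ K P d1 d2 := by
  have h4 : 0 < w.1 - z.1 := by linarith
  have h5 := K_comb hz hw (t := (c - z.1) / (w.1 - z.1)) (div_nonneg (by linarith) h4.le)
    ((div_le_one h4).2 (by linarith))
  convert h5 using 2
  · field_simp; ring
  · field_simp; ring

theorem down {P d1 d2 z w : Pl} (hz : z ∈ K P d1 d2) (hw : w ∈ K P d1 d2) {c y y0 : ℝ}
    (h1 : z.1 ≤ c) (h2 : c ≤ w.1) (h3 : z.1 < w.1) (h0 : ((c, y0) : Pl) ∈ K P d1 d2) (hy : y ≤ y0)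
    (hh : z.2 * (w.1 - c) + w.2 * (c - z.1) ≤ y * (w.1 - z.1)) : ((c, y) : Pl) ∈ K P d1 d2 := by
  have h4 : 0 < w.1 - z.1 := by linarith
  exact vert (cut hz hw h1 h2 h3) h0 ((div_le_iff₀ h4).2 hh) hy

theorem up {P d1 d2 z w : Pl} (hz : z ∈ K P d1 d2) (hw : w ∈ K P d1 d2) {c y y0 : ℝ}
    (h1 : z.1 ≤ c) (h2 : c ≤ w.1) (h3 : z.1 < w.1) (h0 : ((c, y0) : Pl) ∈ K P d1 d2) (hy : y0 ≤ y)
    (hh : y * (w.1 - z.1) ≤ z.2 * (w.1 - c) + w.2 * (c - z.1)) : ((c, y) : Pl) ∈ K P d1 d2 := by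
  have h4 : 0 < w.1 - z.1 := by linarith
  exact vert h0 (cut hz hw h1 h2 h3) hy ((le_div_iff₀ h4).2 hh)

/-- integer points with positive first coordinate -/
theorem A1 {P d1 d2 : Pl} (g : Good P d1 d2) (z : ℤ × ℤ) (hz : zp z ∈ K P d1 d2) (h : 1 ≤ z.1) :
    z = (1, 0) ∨ z = (1, 1) := by
  obtain ⟨x, y⟩ := z
  simp only at h
  change (((x : ℝ), (y : ℝ)) : Pl) ∈ K P d1 d2 at hz
  rcases eq_or_lt_of_le h with hx | hx
  · subst hx
    norm_num at hz
    rcases lt_trichotomy y 0 with hy | hy | hy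
    · exfalso
      apply g.n1
      have hy' : (y : ℝ) ≤ -1 := by exact_mod_cast (by omega : y ≤ -1)
      exact vert hz g.h10 hy' (by norm_num)
    · left; rw [hy]
    · rcases eq_or_lt_of_le (by omega : 1 ≤ y) with hy1 | hy1
      · right; rw [← hy1]
      · exfalso
        apply g.t1
        have hy' : (2 : ℝ) ≤ y := by exact_mod_cast (by omega : (2 : ℤ) ≤ y)
        exact vert g.h11 hz (by norm_num) hy'
  · exfalso
    have hx2 : (2 : ℝ) ≤ x := by exact_mod_cast (by omega : (2 : ℤ) ≤ x)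
    rcases le_or_gt 2 y with hy | hy
    · apply g.t1
      have hy' : (2 : ℝ) ≤ y := by exact_mod_cast hy
      refine up g.h02 hz (y0 := 1) ?_ ?_ ?_ g.h11 (by norm_num) ?_
      · norm_num
      · simp only; linarith
      · simp only; linarith
      · simp only; nlinarith
    · rcases le_or_gt 0 y with hy0 | hy0
      · have : y = 0 ∨ y = 1 := by omega
        rcases this with rfl | rfl
        · apply g.e0
          have := cut g.h10 hz (c := 2) (by norm_num) (by simpa using hx2) (by simp only; linarith)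
          simpa using this
        · apply g.e1
          have := cut g.h11 hz (c := 2) (by norm_num) (by simpa using hx2) (by simp only; linarith)
          convert this using 2
          have h5 : (x : ℝ) - 1 ≠ 0 := by linarith
          simp only
          push_cast
          field_simp
          ring
      · have hy1 : (y : ℝ) ≤ -1 := by exact_mod_cast (by omega : y ≤ -1)
        rcases le_or_gt y (-x) with hyx | hyx
        · apply g.n1
          have hyx' : (y : ℝ) ≤ -x := by exact_mod_cast hyx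
          refine down g.h00 hz (y0 := 0) ?_ ?_ ?_ g.h10 (by norm_num) ?_
          · norm_num
          · simp only; linarith
          · simp only; linarith
          · simp only; nlinarith
        · rcases eq_or_lt_of_le (by omega : 1 - x ≤ y) with hyx2 | hyx2
          · apply g.n2
            have hyx' : (y : ℝ) = 1 - x := by rw [← hyx2]; push_cast; ring
            have := cut g.h10 hz (c := 2) (by norm_num) (by simpa using hx2)
              (by simp only; linarith)
            convert this using 2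
            have h5 : (x : ℝ) - 1 ≠ 0 := by linarith
            simp only
            rw [hyx']
            field_simp
            ring
          · apply g.e0
            have hyx' : (2 : ℝ) - x ≤ y := by exact_mod_cast (by omega : 2 - x ≤ y)
            have h6 := cut g.h11 hz (c := 2) (by norm_num) (by simpa using hx2)
              (by simp only; linarith)
            refine down g.h10 hz ?_ ?_ ?_ h6 ?_ ?_
            · norm_num
            · simpa using hx2
            · simp only; linarith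
            · apply div_nonneg
              · simp only; nlinarith
              · simp only; linarith
            · simp only; nlinarith

theorem A2 {P d1 d2 : Pl} (g : Good P d1 d2) (z : ℤ × ℤ) (hz : zp z ∈ K P d1 d2) (h : z.1 = 0) :
    0 ≤ z.2 := by
  obtain ⟨x, y⟩ := z
  simp only at h ⊢
  subst h
  change ((((0 : ℤ) : ℝ), (y : ℝ)) : Pl) ∈ K P d1 d2 at hz
  norm_num at hz
  by_contra hc
  apply g.n0
  have hy' : (y : ℝ) ≤ -1 := by exact_mod_cast (by omega : y ≤ -1)
  exact vert hz g.h00 hy' (by norm_num)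

theorem A3 {P d1 d2 : Pl} (g : Good P d1 d2) (z : ℤ × ℤ) (hz : zp z ∈ K P d1 d2) (h : z.1 ≤ 0) :
    z.1 ≤ z.2 := by
  rcases eq_or_lt_of_le h with h0 | h0
  · have := A2 g z hz h0
    omega
  · obtain ⟨x, y⟩ := z
    simp only at h h0 ⊢
    change (((x : ℝ), (y : ℝ)) : Pl) ∈ K P d1 d2 at hz
    by_contra hc
    apply g.n0
    have hy' : (y : ℝ) ≤ x - 1 := by exact_mod_cast (by omega : y ≤ x - 1)
    have hx' : (x : ℝ) ≤ -1 := by exact_mod_cast (by omega : x ≤ -1)
    refine down hz g.h10 (y0 := 0) ?_ ?_ ?_ g.h00 (by norm_num) ?_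
    · simp only; linarith
    · norm_num
    · simp only; linarith
    · simp only; nlinarith

theorem A4 {P d1 d2 : Pl} (g : Good P d1 d2) (z : ℤ × ℤ) (hz : zp z ∈ K P d1 d2) (h : z.1 ≤ -1)
    (h2 : z.2 = z.1) : ((-1, -1) : Pl) ∈ K P d1 d2 := by
  obtain ⟨x, y⟩ := z
  simp only at h h2
  subst h2
  change (((y : ℝ), (y : ℝ)) : Pl) ∈ K P d1 d2 at hz
  have hx' : (y : ℝ) ≤ -1 := by exact_mod_cast h
  have := cut hz g.h00 (c := -1) (by simpa using hx') (by norm_num) (by simp only; linarith)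
  convert this using 2
  have h5 : (0 : ℝ) - y ≠ 0 := by linarith
  simp only
  field_simp
  ring

theorem no2 {P d1 d2 : Pl} (g : Good P d1 d2) {h0 h1 : ℝ} (a : ((2, h0) : Pl) ∈ K P d1 d2)
    (b : ((2, h1) : Pl) ∈ K P d1 d2) (hh : h0 + 1 ≤ h1) : False := by
  have h2 : h0 ≤ (⌈h0⌉ : ℝ) := Int.le_ceil h0
  have h3 : (⌈h0⌉ : ℝ) < h0 + 1 := Int.ceil_lt_add_one h0
  have h4 : ((2, (⌈h0⌉ : ℝ)) : Pl) ∈ K P d1 d2 := vert a b h2 (by linarith)
  have h5 : zp (2, ⌈h0⌉) ∈ K P d1 d2 := by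
    unfold zp
    push_cast
    exact h4
  rcases A1 g _ h5 (by norm_num) with h | h
  · have := congrArg Prod.fst h
    norm_num at this
  · have := congrArg Prod.fst h
    norm_num at this

theorem B1 {P d1 d2 : Pl} (g : Good P d1 d2) : 1 ≤ P.1 := by
  by_contra hc
  push Not at hc
  have h1 : 0 < 1 - P.1 := by linarith
  set r := (2 - P.1) / (1 - P.1) with hr
  have hr1 : r * (1 - P.1) = 2 - P.1 := by rw [hr]; field_simp
  have hr2 : 1 < r := by rw [hr, lt_div_iff₀ h1]; linarith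
  have a := K_scale g.h10 (r := r) (by linarith)
  have b := K_scale g.h11 (r := r) (by linarith)
  simp only at a b
  have e : P.1 + r * (1 - P.1) = 2 := by linarith
  rw [e] at a b
  exact no2 g a b (by linarith)

theorem B2 {P d1 d2 : Pl} (g : Good P d1 d2) : d1.1 ≤ 0 := by
  by_contra hc
  push Not at hc
  have a := K_add g.h10 (r := 1 / d1.1) (by positivity)
  have b := K_add g.h11 (r := 1 / d1.1) (by positivity)
  simp only at a b
  have e : 1 + 1 / d1.1 * d1.1 = 2 := by field_simp; norm_num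
  rw [e] at a b
  exact no2 g a b (by linarith)

theorem B3 {P d1 d2 : Pl} (g : Good P d1 d2) : d1.1 ≤ d1.2 := by
  by_contra hc
  push Not at hc
  have h0 := B2 g
  apply g.n0
  rcases eq_or_lt_of_le h0 with h1 | h1
  · have h2 : d1.2 < 0 := by linarith
    have a := K_add g.h00 (r := 1 / (-d1.2)) (by
      apply div_nonneg <;> linarith)
    simp only at a
    rw [h1] at a
    have e : (0 : ℝ) + 1 / (-d1.2) * d1.2 = -1 := by
      have : d1.2 ≠ 0 := h2.ne
      field_simp
      norm_num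
    rw [e] at a
    simpa using a
  · have h3 : 0 < -d1.1 := by linarith
    have a := K_add g.h10 (r := 1 / (-d1.1)) (by positivity)
    simp only at a
    have e : (1 : ℝ) + 1 / (-d1.1) * d1.1 = 0 := by
      have : d1.1 ≠ 0 := h1.ne
      field_simp
      norm_num
    rw [e] at a
    refine vert a g.h00 ?_ (by norm_num)
    rw [zero_add, div_mul_eq_mul_div, div_le_iff₀ h3]
    linarith

theorem B4 {P d1 d2 : Pl} (g : Good P d1 d2) : 1 ≤ P.1 - P.2 := by
  obtain ⟨a, b, ha, hb, h⟩ := g.h10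
  have h1 := congrArg Prod.fst h
  have h2 := congrArg Prod.snd h
  simp only [Prod.fst_add, Prod.smul_fst, smul_eq_mul, Prod.snd_add, Prod.smul_snd] at h1 h2
  have h3 := B3 g
  have h4 := B3 (Good_symm g)
  nlinarith [mul_le_mul_of_nonneg_left h3 ha, mul_le_mul_of_nonneg_left h4 hb]

theorem B5 {P d1 d2 : Pl} (g : Good P d1 d2) (h : ((-1, -1) : Pl) ∈ K P d1 d2) : -1 < P.2 := by
  by_contra hc
  push Not at hc
  have h1 := B1 g
  apply g.n0
  refine down h K_P (y0 := 0) ?_ ?_ ?_ g.h00 (by norm_num) ?_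
  · norm_num
  · linarith
  · simp only; linarith
  · simp only; nlinarith

theorem B6 {P d1 d2 : Pl} (g : Good P d1 d2) (h : P.2 < -2) : 0 < P.1 + P.2 := by
  by_contra hc
  push Not at hc
  have h1 := B1 g
  apply g.n1
  refine down g.h00 K_P (y0 := 0) ?_ ?_ ?_ g.h10 (by norm_num) ?_
  · norm_num
  · linarith
  · simp only; linarith
  · simp only; nlinarith

theorem A5 {P d1 d2 : Pl} (g : Good P d1 d2) (h : P.2 < -2) (z : ℤ × ℤ)
    (hz : zp z ∈ K P d1 d2) (hx : z.1 ≤ 0) : 0 ≤ z.2 := by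
  obtain ⟨x, y⟩ := z
  simp only at hx ⊢
  change (((x : ℝ), (y : ℝ)) : Pl) ∈ K P d1 d2 at hz
  by_contra hc
  have h1 := B1 g
  have hy' : (y : ℝ) ≤ -1 := by exact_mod_cast (by omega : y ≤ -1)
  have hx' : (x : ℝ) ≤ 0 := by exact_mod_cast hx
  apply g.n0
  refine down hz K_P (y0 := 0) ?_ ?_ ?_ g.h00 (by norm_num) ?_
  · simp only; linarith
  · linarith
  · simp only; linarith
  · simp only; nlinarith

theorem B7 {P d1 d2 : Pl} (g : Good P d1 d2) (h : P.2 < -2) : 0 ≤ d1.2 := by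
  by_contra hc
  push Not at hc
  have h0 := B2 g
  rcases eq_or_lt_of_le h0 with h1 | h1
  · apply g.n0
    have a := K_add g.h00 (r := 1 / (-d1.2)) (by apply div_nonneg <;> linarith)
    simp only at a
    rw [h1] at a
    have e : (0 : ℝ) + 1 / (-d1.2) * d1.2 = -1 := by
      have : d1.2 ≠ 0 := hc.ne
      field_simp
      norm_num
    rw [e] at a
    simpa using a
  · have h3 : 0 < -d1.1 := by linarith
    have h4 : 0 < -d1.2 := by linarith
    obtain ⟨k, hk⟩ := exists_nat_ge (2 * (-d1.1) / (-d1.2))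
    rw [div_le_iff₀ h4] at hk
    have hr0 : 0 ≤ (k : ℝ) / (-d1.1) := by positivity
    have a := K_add g.h00 (r := (k : ℝ) / (-d1.1)) hr0
    have b := K_add g.h01 (r := (k : ℝ) / (-d1.1)) hr0
    simp only at a b
    have e : (0 : ℝ) + (k : ℝ) / (-d1.1) * d1.1 = -k := by
      have : d1.1 ≠ 0 := h1.ne
      field_simp
      ring
    rw [e] at a b
    set u := (k : ℝ) / (-d1.1) * d1.2 with hu
    have hu2 : u ≤ -2 := by
      rw [hu, div_mul_eq_mul_div, div_le_iff₀ h3]
      linarith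
    have h5 : (⌊1 + u⌋ : ℝ) ≤ 1 + u := Int.floor_le _
    have h6 : 1 + u < (⌊1 + u⌋ : ℝ) + 1 := Int.lt_floor_add_one _
    have h7 : ((-(k : ℝ), (⌊1 + u⌋ : ℝ)) : Pl) ∈ K P d1 d2 := vert a b (by linarith) (by linarith)
    have h8 : zp (-(k : ℤ), ⌊1 + u⌋) ∈ K P d1 d2 := by
      unfold zp
      push_cast
      exact h7
    have h9 := A5 g h _ h8 (by simp)
    simp only at h9
    have h10 : (0 : ℝ) ≤ (⌊1 + u⌋ : ℝ) := by exact_mod_cast h9
    linarith

theorem taskLAT : S_LAT := by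
  intro P d1 d2 g
  refine ⟨fun z hz => ⟨A1 g z hz, A2 g z hz, A3 g z hz, A4 g z hz, fun h hx => A5 g h z hz hx⟩,
    B1 g, ⟨B2 g, B3 g⟩, ⟨B2 (Good_symm g), B3 (Good_symm g)⟩, B4 g, B5 g,
    fun h => ⟨B6 g h, B7 g h, B7 (Good_symm g) h⟩⟩

end Pool.Agent.R723.KT.LAT
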