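import Pool.Agent.R723.KT.Defs

set_option autoImplicit false

/-! # KT-MARKS: every square has two marks (helper466) -/

namespace Pool.Agent.R723.KT.MARKS

open Pool.Agent.R723.KT

/-! ## Combinatorial core -/

def dj (a b : Nat) : Bool := Nat.beq (Nat.land a b) 0

/-- run over the nonzero masks -/
def all7 (f : Nat → Bool) : Bool := f 1 && (f 2 && (f 3 && (f 4 && (f 5 && (f 6 && f 7)))))

theorem all7_spec {f : Nat → Bool} (h : all7 f = true) {n : Nat} (h1 : 1 ≤ n) (h2 : n ≤ 7) :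
    f n = true := by
  unfold all7 at h
  simp only [Bool.and_eq_true] at h
  obtain ⟨a1, a2, a3, a4, a5, a6, a7⟩ := h
  interval_cases n <;> assumption

/-- implication for Booleans, lazy -/
def imp (a b : Bool) : Bool := if a then b else true

theorem imp_spec {a b : Bool} (h : imp a b = true) (ha : a = true) : b = true := by
  unfold imp at h
  rw [if_pos ha] at h
  exact h

def mkN (x1 x2 y j : Nat) : Nat :=
  if (Nat.testBit x1 j && Nat.testBit x2 j && Nat.beq y (2 ^ j)) = true then 1 else 0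

def mk3 (x1 x2 y : Nat) : Nat := mkN x1 x2 y 0 + mkN x1 x2 y 1 + mkN x1 x2 y 2

def chk (w1 w2 e1 e2 n1 n2 s1 s2 : Nat) : Bool :=
  Nat.ble 2 (mk3 w1 w2 n1 + mk3 e1 e2 n2 + mk3 w2 w1 s1 + mk3 e2 e1 s2 + mk3 s1 s2 e1 +
    mk3 n1 n2 e2 + mk3 s2 s1 w1 + mk3 n2 n1 w2)

def total : Bool :=
  all7 fun w1 => all7 fun w2 => all7 fun e1 => imp (dj e1 w1 && dj e1 w2) <|
    all7 fun e2 => imp (dj e2 w1 && dj e2 w2) <|
    all7 fun n1 => imp (dj e1 n1) <| all7 fun n2 => imp (dj w1 n2) <|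
    all7 fun s1 => imp (dj s1 n1 && dj s1 n2 && dj e2 s1) <|
    all7 fun s2 => imp (dj s2 n1 && dj s2 n2 && dj w2 s2) <|
    chk w1 w2 e1 e2 n1 n2 s1 s2

theorem total_true : total = true := by decide +kernel

theorem core {w1 w2 e1 e2 n1 n2 s1 s2 : Nat} (hw1 : 1 ≤ w1 ∧ w1 ≤ 7) (hw2 : 1 ≤ w2 ∧ w2 ≤ 7)
    (he1 : 1 ≤ e1 ∧ e1 ≤ 7) (he2 : 1 ≤ e2 ∧ e2 ≤ 7) (hn1 : 1 ≤ n1 ∧ n1 ≤ 7)
    (hn2 : 1 ≤ n2 ∧ n2 ≤ 7) (hs1 : 1 ≤ s1 ∧ s1 ≤ 7) (hs2 : 1 ≤ s2 ∧ s2 ≤ 7)
    (a1 : dj e1 w1 = true) (a2 : dj e1 w2 = true) (a3 : dj e2 w1 = true) (a4 : dj e2 w2 = true)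
    (a5 : dj s1 n1 = true) (a6 : dj s1 n2 = true) (a7 : dj s2 n1 = true) (a8 : dj s2 n2 = true)
    (a9 : dj e1 n1 = true) (a10 : dj e2 s1 = true) (a11 : dj w1 n2 = true)
    (a12 : dj w2 s2 = true) : chk w1 w2 e1 e2 n1 n2 s1 s2 = true := by
  have h := total_true
  unfold total at h
  have h1 := all7_spec (all7_spec (all7_spec h hw1.1 hw1.2) hw2.1 hw2.2) he1.1 he1.2
  have h2 := all7_spec (imp_spec h1 (by rw [a1, a2]; rfl)) he2.1 he2.2
  have h3 := all7_spec (imp_spec h2 (by rw [a3, a4]; rfl)) hn1.1 hn1.2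
  have h4 := all7_spec (imp_spec h3 a9) hn2.1 hn2.2
  have h5 := all7_spec (imp_spec h4 a11) hs1.1 hs1.2
  have h6 := all7_spec (imp_spec h5 (by rw [a5, a6, a10]; rfl)) hs2.1 hs2.2
  exact imp_spec h6 (by rw [a7, a8, a12]; rfl)

/-! ## Masks -/

def mask (b0 b1 b2 : Bool) : Nat := (cond b0 1 0) + (cond b1 2 0) + (cond b2 4 0)

theorem mask_range (b0 b1 b2 : Bool) (h : b0 = true ∨ b1 = true ∨ b2 = true) :
    1 ≤ mask b0 b1 b2 ∧ mask b0 b1 b2 ≤ 7 := by
  revert h
  cases b0 <;> cases b1 <;> cases b2 <;> decide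

theorem mask_dj (a0 a1 a2 b0 b1 b2 : Bool) (h0 : ¬ (a0 = true ∧ b0 = true))
    (h1 : ¬ (a1 = true ∧ b1 = true)) (h2 : ¬ (a2 = true ∧ b2 = true)) :
    dj (mask a0 a1 a2) (mask b0 b1 b2) = true := by
  revert h0 h1 h2
  cases a0 <;> cases a1 <;> cases a2 <;> cases b0 <;> cases b1 <;> cases b2 <;> decide

theorem mask_bit (b0 b1 b2 : Bool) : (Nat.testBit (mask b0 b1 b2) 0 = true → b0 = true) ∧
    (Nat.testBit (mask b0 b1 b2) 1 = true → b1 = true) ∧
    (Nat.testBit (mask b0 b1 b2) 2 = true → b2 = true) := by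
  cases b0 <;> cases b1 <;> cases b2 <;> decide

theorem mask_one (b0 b1 b2 : Bool) :
    (Nat.beq (mask b0 b1 b2) (2 ^ 0) = true → b1 = false ∧ b2 = false) ∧
    (Nat.beq (mask b0 b1 b2) (2 ^ 1) = true → b2 = false ∧ b0 = false) ∧
    (Nat.beq (mask b0 b1 b2) (2 ^ 2) = true → b0 = false ∧ b1 = false) := by
  cases b0 <;> cases b1 <;> cases b2 <;> decide

/-! ## Geometry -/

open Classical in
noncomputable def M (p : Pl × Pl × Pl) (z : Pl) : Nat :=
  mask (decide (L p z < 0)) (decide (L (rot p) z < 0)) (decide (L (rot (rot p)) z < 0))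

theorem rot3 (p : Pl × Pl × Pl) : rot (rot (rot p)) = p := rfl

theorem L_add (p : Pl × Pl × Pl) (a b c d : Pl) (h1 : a.1 + b.1 = c.1 + d.1)
    (h2 : a.2 + b.2 = c.2 + d.2) : L p a + L p b = L p c + L p d := by
  unfold L ori
  have e1 : b.1 = c.1 + d.1 - a.1 := by linarith
  have e2 : b.2 = c.2 + d.2 - a.2 := by linarith
  rw [e1, e2]
  ring

theorem M_range {p : Pl × Pl × Pl} {z : Pl} (h : ¬ inT p z) : 1 ≤ M p z ∧ M p z ≤ 7 := by
  apply mask_range
  unfold inT at h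
  by_contra hcon
  push Not at hcon
  obtain ⟨h0, h1, h2⟩ := hcon
  apply h
  refine ⟨?_, ?_, ?_⟩
  · by_contra hc
    exact h0 (decide_eq_true (not_le.1 hc))
  · by_contra hc
    exact h1 (decide_eq_true (not_le.1 hc))
  · by_contra hc
    exact h2 (decide_eq_true (not_le.1 hc))

theorem M_dj {p : Pl × Pl × Pl} {a b c d : Pl} (h1 : a.1 + b.1 = c.1 + d.1)
    (h2 : a.2 + b.2 = c.2 + d.2) (hc : inT p c) (hd : inT p d) : dj (M p a) (M p b) = true := by
  apply mask_dj
  · rintro ⟨q1, q2⟩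
    have q1 := of_decide_eq_true q1
    have q2 := of_decide_eq_true q2
    have := L_add p a b c d h1 h2
    linarith [hc.1, hd.1]
  · rintro ⟨q1, q2⟩
    have q1 := of_decide_eq_true q1
    have q2 := of_decide_eq_true q2
    have := L_add (rot p) a b c d h1 h2
    linarith [hc.2.1, hd.2.1]
  · rintro ⟨q1, q2⟩
    have q1 := of_decide_eq_true q1
    have q2 := of_decide_eq_true q2
    have := L_add (rot (rot p)) a b c d h1 h2
    linarith [hc.2.2, hd.2.2]

/-- inverse of `gam i` -/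
def gi (i : Bool × Bool × Bool) (z : Pl) : Pl :=
  let w : Pl := if i.1 then (1 - z.1, z.2) else z
  let w : Pl := if i.2.1 then (w.1, 1 - w.2) else w
  if i.2.2 then (w.2, w.1) else w

theorem L_m3 (i : Bool × Bool × Bool) (q : Pl × Pl × Pl) (z : Pl) :
    L (m3 (gam i) q) z = L q (gi i z) := by
  obtain ⟨i1, i2, i3⟩ := i
  cases i1 <;> cases i2 <;> cases i3 <;> simp [L, D, ori, m3, gam, gi] <;> ring

theorem D_m3 (i : Bool × Bool × Bool) (q : Pl × Pl × Pl) (h : D q ≠ 0) :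
    D (m3 (gam i) q) ≠ 0 := by
  have h1 : D (m3 (gam i) q) ^ 2 = D q ^ 2 := by
    obtain ⟨i1, i2, i3⟩ := i
    cases i1 <;> cases i2 <;> cases i3 <;> simp [D, ori, m3, gam] <;> ring
  intro h0
  rw [h0] at h1
  apply h
  have : D q ^ 2 = 0 := by rw [← h1]; norm_num
  exact pow_eq_zero_iff (by norm_num) |>.1 this

theorem inT_m3 (i : Bool × Bool × Bool) (q : Pl × Pl × Pl) (z : Pl) :
    inT (m3 (gam i) q) z ↔ inT q (gi i z) := by
  unfold inT
  have e1 : rot (m3 (gam i) q) = m3 (gam i) (rot q) := rfl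
  have e3 : rot (m3 (gam i) (rot q)) = m3 (gam i) (rot (rot q)) := rfl
  rw [e1, e3, L_m3, L_m3, L_m3]

/-- integer version of `gi` -/
def gz (i : Bool × Bool × Bool) (z : ℤ × ℤ) : ℤ × ℤ :=
  let w : ℤ × ℤ := if i.1 then (1 - z.1, z.2) else z
  let w : ℤ × ℤ := if i.2.1 then (w.1, 1 - w.2) else w
  if i.2.2 then (w.2, w.1) else w

theorem zp_gz (i : Bool × Bool × Bool) (z : ℤ × ℤ) : gi i (zp z) = zp (gz i z) := by
  obtain ⟨i1, i2, i3⟩ := i
  cases i1 <;> cases i2 <;> cases i3 <;> simp [gi, gz, zp]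

theorem gz_F4 (i : Bool × Bool × Bool) (z : ℤ × ℤ) : gz i z ∈ F4 ↔ z ∈ F4 := by
  obtain ⟨i1, i2, i3⟩ := i
  obtain ⟨x, y⟩ := z
  cases i1 <;> cases i2 <;> cases i3 <;>
    simp only [gz, F4, Set.mem_insert_iff, Set.mem_singleton_iff, Prod.mk.injEq, if_true,
      Bool.false_eq_true, if_false] <;> omega

theorem R_m3 (i : Bool × Bool × Bool) (q : Pl × Pl × Pl) (h : q ∈ R F4) :
    m3 (gam i) q ∈ R F4 := by
  refine ⟨D_m3 i q h.1, fun z => ?_⟩
  rw [inT_m3, zp_gz, h.2 (gz i z), gz_F4]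

theorem R_rot (q : Pl × Pl × Pl) (h : q ∈ R F4) : rot q ∈ R F4 := by
  constructor
  · have : D (rot q) = D q := by
      unfold D rot ori
      ring
    rw [this]
    exact h.1
  · intro z
    rw [← h.2 z]
    unfold inT
    rw [rot3]
    tauto

theorem R_rotk (k : Fin 3) (q : Pl × Pl × Pl) (h : q ∈ R F4) : rot^[k.val] q ∈ R F4 := by
  fin_cases k
  · exact h
  · exact R_rot q h
  · exact R_rot _ (R_rot q h)

/-- the two points of the marked side and the third point, pulled back -/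
theorem mark_mem {p : Pl × Pl × Pl} (hp : p ∈ R F4) (g : Bool × Bool × Bool) (k : Fin 3)
    {x1 x2 y : Pl} (hx1 : gi g (-1, 0) = x1) (hx2 : gi g (-1, 1) = x2) (hy : gi g (0, 2) = y)
    (hm : mkN (M p x1) (M p x2) (M p y) k.val ≠ 0) : mv (g, k) p ∈ MF := by
  have hmem : m3 (gam g) (rot^[k.val] p) ∈ R F4 := R_m3 g _ (R_rotk k p hp)
  have hT : (Nat.testBit (M p x1) k.val && Nat.testBit (M p x2) k.val &&
      Nat.beq (M p y) (2 ^ k.val)) = true := by
    by_contra hcon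
    apply hm
    unfold mkN
    rw [if_neg hcon]
  rw [Bool.and_eq_true, Bool.and_eq_true] at hT
  obtain ⟨⟨t1, t2⟩, t3⟩ := hT
  refine ⟨hmem, ?_, ?_, ?_⟩
  · show L (m3 (gam g) (rot^[k.val] p)) (-1, 0) < 0
    rw [L_m3, hx1]
    unfold M at t1
    fin_cases k
    · exact of_decide_eq_true ((mask_bit _ _ _).1 t1)
    · exact of_decide_eq_true ((mask_bit _ _ _).2.1 t1)
    · exact of_decide_eq_true ((mask_bit _ _ _).2.2 t1)
  · show L (m3 (gam g) (rot^[k.val] p)) (-1, 1) < 0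
    rw [L_m3, hx2]
    unfold M at t2
    fin_cases k
    · exact of_decide_eq_true ((mask_bit _ _ _).1 t2)
    · exact of_decide_eq_true ((mask_bit _ _ _).2.1 t2)
    · exact of_decide_eq_true ((mask_bit _ _ _).2.2 t2)
  · show 0 ≤ L (m3 (gam g) (rot (rot^[k.val] p))) (0, 2) ∧
      0 ≤ L (m3 (gam g) (rot (rot (rot^[k.val] p)))) (0, 2)
    rw [L_m3, L_m3, hy]
    unfold M at t3
    fin_cases k
    · obtain ⟨u1, u2⟩ := (mask_one _ _ _).1 t3
      exact ⟨not_lt.1 (of_decide_eq_false u1), not_lt.1 (of_decide_eq_false u2)⟩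
    · obtain ⟨u1, u2⟩ := (mask_one _ _ _).2.1 t3
      exact ⟨not_lt.1 (of_decide_eq_false u1), not_lt.1 (of_decide_eq_false u2)⟩
    · obtain ⟨u1, u2⟩ := (mask_one _ _ _).2.2 t3
      exact ⟨not_lt.1 (of_decide_eq_false u1), not_lt.1 (of_decide_eq_false u2)⟩

/-- the eight types -/
noncomputable def cnt (p : Pl × Pl × Pl) (g : Bool × Bool × Bool) (k : Fin 3) : Nat :=
  mkN (M p (gi g (-1, 0))) (M p (gi g (-1, 1))) (M p (gi g (0, 2))) k.val

theorem mkN_le (x1 x2 y j : Nat) : mkN x1 x2 y j ≤ 1 := by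
  unfold mkN
  split_ifs <;> omega

/-- two different indices from a sum at least two of zeros and ones -/
theorem two_of_sum {ι : Type} [Fintype ι] [DecidableEq ι] (f : ι → Nat) (hf : ∀ i, f i ≤ 1)
    (h : 2 ≤ ∑ i, f i) : ∃ i j : ι, i ≠ j ∧ f i ≠ 0 ∧ f j ≠ 0 := by
  have h1 : ∑ i, f i = (Finset.univ.filter fun i => f i ≠ 0).card := by
    rw [Finset.card_filter]
    refine Finset.sum_congr rfl fun i _ => ?_
    have := hf i
    split_ifs with hc <;> omega
  rw [h1] at h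
  obtain ⟨i, hi, j, hj, hne⟩ := Finset.one_lt_card.1 (by omega :
    1 < (Finset.univ.filter fun i => f i ≠ 0).card)
  rw [Finset.mem_filter] at hi hj
  exact ⟨i, j, hne, hi.2, hj.2⟩

theorem taskMARKS : S_MARKS := by
  intro p hp
  -- the points of the square
  have sq : ∀ z : ℤ × ℤ, z ∈ F4 → inT p (zp z) := fun z hz => (hp.2 z).2 hz
  have out : ∀ z : ℤ × ℤ, z ∉ F4 → ¬ inT p (zp z) := fun z hz h => hz ((hp.2 z).1 h)
  have s00 : inT p (0, 0) := by have := sq (0, 0) (by simp [F4]); simpa [zp] using this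
  have s10 : inT p (1, 0) := by have := sq (1, 0) (by simp [F4]); simpa [zp] using this
  have s01 : inT p (0, 1) := by have := sq (0, 1) (by simp [F4]); simpa [zp] using this
  have s11 : inT p (1, 1) := by have := sq (1, 1) (by simp [F4]); simpa [zp] using this
  have w1 := M_range (p := p) (z := (-1, 0)) (by have := out (-1, 0) (by simp [F4]); simpa [zp] using this)
  have w2 := M_range (p := p) (z := (-1, 1)) (by have := out (-1, 1) (by simp [F4]); simpa [zp] using this)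
  have e1 := M_range (p := p) (z := (2, 0)) (by have := out (2, 0) (by simp [F4]); simpa [zp] using this)
  have e2 := M_range (p := p) (z := (2, 1)) (by have := out (2, 1) (by simp [F4]); simpa [zp] using this)
  have n1 := M_range (p := p) (z := (0, 2)) (by have := out (0, 2) (by simp [F4]); simpa [zp] using this)
  have n2 := M_range (p := p) (z := (1, 2)) (by have := out (1, 2) (by simp [F4]); simpa [zp] using this)
  have s1 := M_range (p := p) (z := (0, -1)) (by have := out (0, -1) (by simp [F4]); simpa [zp] using this)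
  have s2 := M_range (p := p) (z := (1, -1)) (by have := out (1, -1) (by simp [F4]); simpa [zp] using this)
  have hc := core w1 w2 e1 e2 n1 n2 s1 s2
    (M_dj (c := (1, 0)) (d := (0, 0)) (by norm_num) (by norm_num) s10 s00)
    (M_dj (c := (1, 0)) (d := (0, 1)) (by norm_num) (by norm_num) s10 s01)
    (M_dj (c := (1, 0)) (d := (0, 1)) (by norm_num) (by norm_num) s10 s01)
    (M_dj (c := (1, 1)) (d := (0, 1)) (by norm_num) (by norm_num) s11 s01)
    (M_dj (c := (0, 0)) (d := (0, 1)) (by norm_num) (by norm_num) s00 s01)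
    (M_dj (c := (1, 0)) (d := (0, 1)) (by norm_num) (by norm_num) s10 s01)
    (M_dj (c := (1, 0)) (d := (0, 1)) (by norm_num) (by norm_num) s10 s01)
    (M_dj (c := (1, 0)) (d := (1, 1)) (by norm_num) (by norm_num) s10 s11)
    (M_dj (c := (1, 1)) (d := (1, 1)) (by norm_num) (by norm_num) s11 s11)
    (M_dj (c := (1, 0)) (d := (1, 0)) (by norm_num) (by norm_num) s10 s10)
    (M_dj (c := (0, 1)) (d := (0, 1)) (by norm_num) (by norm_num) s01 s01)
    (M_dj (c := (0, 0)) (d := (0, 0)) (by norm_num) (by norm_num) s00 s00)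
  unfold chk at hc
  have hc' := Nat.le_of_ble_eq_true hc
  -- pull back
  have g1 : ∀ k, cnt p (false, false, false) k = mkN (M p (-1, 0)) (M p (-1, 1)) (M p (0, 2)) k.val := by
    intro k; unfold cnt; simp [gi]
  have g2 : ∀ k, cnt p (true, false, false) k = mkN (M p (2, 0)) (M p (2, 1)) (M p (1, 2)) k.val := by
    intro k; unfold cnt; norm_num [gi]
  have g3 : ∀ k, cnt p (false, true, false) k = mkN (M p (-1, 1)) (M p (-1, 0)) (M p (0, -1)) k.val := by
    intro k; unfold cnt; norm_num [gi]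
  have g4 : ∀ k, cnt p (true, true, false) k = mkN (M p (2, 1)) (M p (2, 0)) (M p (1, -1)) k.val := by
    intro k; unfold cnt; norm_num [gi]
  have g5 : ∀ k, cnt p (false, false, true) k = mkN (M p (0, -1)) (M p (1, -1)) (M p (2, 0)) k.val := by
    intro k; unfold cnt; norm_num [gi]
  have g6 : ∀ k, cnt p (true, false, true) k = mkN (M p (0, 2)) (M p (1, 2)) (M p (2, 1)) k.val := by
    intro k; unfold cnt; norm_num [gi]
  have g7 : ∀ k, cnt p (false, true, true) k = mkN (M p (1, -1)) (M p (0, -1)) (M p (-1, 0)) k.val := by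
    intro k; unfold cnt; norm_num [gi]
  have g8 : ∀ k, cnt p (true, true, true) k = mkN (M p (1, 2)) (M p (0, 2)) (M p (-1, 1)) k.val := by
    intro k; unfold cnt; norm_num [gi]
  have hsum : 2 ≤ ∑ i : (Bool × Bool × Bool) × Fin 3, cnt p i.1 i.2 := by
    rw [Fintype.sum_prod_type, Fintype.sum_prod_type]
    simp only [Fintype.sum_prod_type, Fintype.sum_bool, Fin.sum_univ_three]
    simp only [g1, g2, g3, g4, g5, g6, g7, g8]
    unfold mk3 at hc'
    refine hc'.trans (le_of_eq ?_)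
    simp only [Fin.val_zero, Fin.val_one, Fin.val_two]
    ring
  obtain ⟨i, j, hne, hi, hj⟩ := two_of_sum (fun i : (Bool × Bool × Bool) × Fin 3 => cnt p i.1 i.2)
    (fun i => mkN_le _ _ _ _) hsum
  exact ⟨i, j, hne, mark_mem hp i.1 i.2 rfl rfl rfl hi, mark_mem hp j.1 j.2 rfl rfl rfl hj⟩

end Pool.Agent.R723.KT.MARKS
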