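import Pool.Agent.R723.KT.Defs

/-! Project KT, piece MEAS (helper452): measurability -/

set_option autoImplicit false

open MeasureTheory

namespace Pool.Agent.R723.KT.MEAS

open Pool.Agent.R723.KT

lemma cD : Continuous D := by
  unfold D ori
  fun_prop

lemma crot : Continuous rot := by
  unfold rot
  fun_prop

lemma cL (z : Pl) : Continuous (fun p => L p z) := by
  unfold L D ori
  fun_prop

lemma mL (z : Pl) : MeasurableSet {p | 0 ≤ L p z} :=
  (isClosed_le continuous_const (cL z)).measurableSet

lemma mL1 (z : Pl) : MeasurableSet {p | 0 ≤ L (rot p) z} :=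
  (isClosed_le continuous_const ((cL z).comp crot)).measurableSet

lemma mL2 (z : Pl) : MeasurableSet {p | 0 ≤ L (rot (rot p)) z} :=
  (isClosed_le continuous_const ((cL z).comp (crot.comp crot))).measurableSet

lemma mLn (z : Pl) : MeasurableSet {p | L p z < 0} :=
  (isOpen_lt (cL z) continuous_const).measurableSet

lemma mT (z : Pl) : MeasurableSet {p | inT p z} := (mL z).inter ((mL1 z).inter (mL2 z))

lemma mK (z : Pl) : MeasurableSet {p | inK p z} := (mL1 z).inter (mL2 z)

lemma mR (S : Set (ℤ × ℤ)) : MeasurableSet (R S) := by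
  have h : R S = {p | D p ≠ 0} ∩ ⋂ z : ℤ × ℤ, {p | inT p (zp z) ↔ z ∈ S} := by
    ext p
    simp only [R, Set.mem_ofPred_eq, Set.mem_inter_iff, Set.mem_iInter]
  rw [h]
  refine MeasurableSet.inter (isOpen_ne_fun cD continuous_const).measurableSet ?_
  refine MeasurableSet.iInter fun z => ?_
  by_cases hz : z ∈ S
  · simp only [hz, iff_true]
    exact mT _
  · simp only [hz, iff_false]
    exact (mT _).compl

theorem taskMEAS : S_MEAS := by
  refine ⟨mR, ?_, ?_⟩
  · exact (mR F4).inter ((mLn _).inter ((mLn _).inter (mK _)))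
  · exact (mR D3).inter ((mK _).inter ((mK _).inter ((mK _).inter ((mK _).inter ((mK _).inter
      ((mK _).compl.inter ((mK _).compl.inter ((mK _).compl.inter ((mK _).compl.inter
        ((mK _).compl.inter (mK _).compl))))))))))

end Pool.Agent.R723.KT.MEAS
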