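import Pool.Agent.R723.KT.Defs2

/-! KT-MINV (helper861, subtask 5783): the Moebius density is invariant under projective maps. -/

set_option autoImplicit false
open MeasureTheory

set_option maxHeartbeats 400000

namespace Pool.Agent.R723.KT.MINV

open Pool.Agent.R723.KT

theorem null_line (a b c : ℝ) (h : a ≠ 0 ∨ b ≠ 0 ∨ c ≠ 0) :
    ∀ᵐ z : Pl, a * z.1 + b * z.2 + c ≠ 0 := by
  have hm : MeasurableSet {z : Pl | a * z.1 + b * z.2 + c = 0} := by
    have h1 : Measurable fun z : Pl => a * z.1 + b * z.2 + c :=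
      ((measurable_fst.const_mul a).add (measurable_snd.const_mul b)).add_const c
    exact h1 (measurableSet_singleton 0)
  have hnull : (volume : Measure Pl) {z : Pl | a * z.1 + b * z.2 + c = 0} = 0 := by
    rw [Measure.volume_eq_prod, Measure.measure_prod_null hm]
    by_cases hb : b = 0
    · by_cases ha : a = 0
      · have hc : c ≠ 0 := by
          rcases h with h | h | h
          · exact absurd ha h
          · exact absurd hb h
          · exact h
        refine Filter.Eventually.of_forall fun x => ?_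
        have : (Prod.mk x ⁻¹' {z : Pl | a * z.1 + b * z.2 + c = 0}) = ∅ := by
          ext y
          simp [ha, hb, hc]
        change volume (Prod.mk x ⁻¹' {z : Pl | a * z.1 + b * z.2 + c = 0}) = 0
        rw [this]
        simp
      · have h1 : ∀ᵐ x : ℝ, x ∉ ({-c / a} : Set ℝ) :=
          (Set.countable_singleton _).ae_notMem volume
        filter_upwards [h1] with x hx
        have : (Prod.mk x ⁻¹' {z : Pl | a * z.1 + b * z.2 + c = 0}) = ∅ := by
          ext y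
          simp only [Set.mem_preimage, Set.mem_setOf_eq, Set.mem_empty_iff_false, iff_false]
          intro h2
          apply hx
          rw [Set.mem_singleton_iff, eq_div_iff ha]
          rw [hb] at h2
          linarith
        change volume (Prod.mk x ⁻¹' {z : Pl | a * z.1 + b * z.2 + c = 0}) = 0
        rw [this]
        simp
    · refine Filter.Eventually.of_forall fun x => ?_
      refine measure_mono_null (t := {-(a * x + c) / b}) ?_ Real.volume_singleton
      intro y hy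
      have h2 : a * x + b * y + c = 0 := hy
      rw [Set.mem_singleton_iff, eq_div_iff hb]
      linarith
  have := measure_eq_zero_iff_ae_notMem.1 hnull
  filter_upwards [this] with z hz
  exact hz

theorem w_ne (M : Matrix (Fin 3) (Fin 3) ℝ) (hM : M.det ≠ 0) : ∀ᵐ z : Pl, w M z ≠ 0 := by
  refine null_line (M 2 0) (M 2 1) (M 2 2) ?_
  by_contra h
  push Not at h
  apply hM
  rw [Matrix.det_fin_three, h.1, h.2.1, h.2.2]
  ring

theorem meas_w (M : Matrix (Fin 3) (Fin 3) ℝ) : Measurable (w M) := by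
  unfold w
  exact ((measurable_fst.const_mul _).add (measurable_snd.const_mul _)).add_const _

theorem meas_Phi (M : Matrix (Fin 3) (Fin 3) ℝ) : Measurable (Phi M) := by
  unfold Phi
  refine Measurable.prodMk ?_ ?_
  · exact (((measurable_fst.const_mul _).add (measurable_snd.const_mul _)).add_const _).div
      (meas_w M)
  · exact (((measurable_fst.const_mul _).add (measurable_snd.const_mul _)).add_const _).div
      (meas_w M)

theorem meas_D : Measurable D := by
  have hc : Continuous D := by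
    unfold D ori
    fun_prop
  exact hc.measurable

/-- the density -/
noncomputable def rho (p : Pl × Pl × Pl) : ENNReal := ENNReal.ofReal ((|D p| ^ 3)⁻¹)

theorem meas_rho : Measurable rho := by
  have h1 : Measurable fun p : Pl × Pl × Pl => |D p| := meas_D.abs
  exact ((h1.pow_const 3).inv).ennreal_ofReal

/-- the Jacobian -/
noncomputable def J (M : Matrix (Fin 3) (Fin 3) ℝ) (z : Pl) : ENNReal :=
  ENNReal.ofReal (|M.det| / |w M z| ^ 3)

theorem det_lem (A1 A2 W1 B1 B2 W2 C1 C2 W3 : ℝ) (h1 : W1 ≠ 0) (h2 : W2 ≠ 0) (h3 : W3 ≠ 0) :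
    ((B1 / W2 - A1 / W1) * (C2 / W3 - A2 / W1) - (B2 / W2 - A2 / W1) * (C1 / W3 - A1 / W1)) *
      (W1 * W2 * W3) = A1 * (B2 * W3 - C2 * W2) - A2 * (B1 * W3 - C1 * W2) +
        W1 * (B1 * C2 - C1 * B2) := by
  field_simp
  ring

theorem D_Phi (M : Matrix (Fin 3) (Fin 3) ℝ) (p : Pl × Pl × Pl) (h1 : w M p.1 ≠ 0)
    (h2 : w M p.2.1 ≠ 0) (h3 : w M p.2.2 ≠ 0) :
    D (m3 (Phi M) p) * (w M p.1 * w M p.2.1 * w M p.2.2) = M.det * D p := by
  have e := det_lem (M 0 0 * p.1.1 + M 0 1 * p.1.2 + M 0 2) (M 1 0 * p.1.1 + M 1 1 * p.1.2 + M 1 2)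
    (w M p.1) (M 0 0 * p.2.1.1 + M 0 1 * p.2.1.2 + M 0 2)
    (M 1 0 * p.2.1.1 + M 1 1 * p.2.1.2 + M 1 2) (w M p.2.1)
    (M 0 0 * p.2.2.1 + M 0 1 * p.2.2.2 + M 0 2) (M 1 0 * p.2.2.1 + M 1 1 * p.2.2.2 + M 1 2)
    (w M p.2.2) h1 h2 h3
  refine (show D (m3 (Phi M) p) * (w M p.1 * w M p.2.1 * w M p.2.2) = _ from e).trans ?_
  rw [Matrix.det_fin_three]
  unfold D ori w
  ring

theorem dens (M : Matrix (Fin 3) (Fin 3) ℝ) (hM : M.det ≠ 0) (p : Pl × Pl × Pl)
    (h1 : w M p.1 ≠ 0) (h2 : w M p.2.1 ≠ 0) (h3 : w M p.2.2 ≠ 0) :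
    rho (m3 (Phi M) p) * (J M p.2.2 * (J M p.2.1 * J M p.1)) = rho p := by
  have hD := D_Phi M p h1 h2 h3
  have hW : w M p.1 * w M p.2.1 * w M p.2.2 ≠ 0 := mul_ne_zero (mul_ne_zero h1 h2) h3
  have hD2 : |D (m3 (Phi M) p)| = |M.det| * |D p| / (|w M p.1| * |w M p.2.1| * |w M p.2.2|) := by
    rw [eq_div_iff (by rw [← abs_mul, ← abs_mul]; exact abs_ne_zero.2 hW), ← abs_mul, ← abs_mul,
      ← abs_mul, ← abs_mul, hD]
  unfold rho J
  rw [← ENNReal.ofReal_mul (by positivity), ← ENNReal.ofReal_mul (by positivity),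
    ← ENNReal.ofReal_mul (by positivity), hD2]
  congr 1
  have a1 : |w M p.1| ≠ 0 := abs_ne_zero.2 h1
  have a2 : |w M p.2.1| ≠ 0 := abs_ne_zero.2 h2
  have a3 : |w M p.2.2| ≠ 0 := abs_ne_zero.2 h3
  have a4 : |M.det| ≠ 0 := abs_ne_zero.2 hM
  rcases eq_or_ne (D p) 0 with h0 | h0
  · rw [h0]; simp
  · have a5 : |D p| ≠ 0 := abs_ne_zero.2 h0
    field_simp

theorem iter (g : Pl × Pl × Pl → ENNReal) (hg : Measurable g) :
    ∫⁻ p, g p = ∫⁻ p1 : Pl, ∫⁻ p2 : Pl, ∫⁻ p3 : Pl, g (p1, p2, p3) := by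
  have h1 : ∫⁻ p, g p = ∫⁻ p1 : Pl, ∫⁻ q : Pl × Pl, g (p1, q) := by
    rw [Measure.volume_eq_prod]
    exact lintegral_prod _ hg.aemeasurable
  rw [h1]
  refine lintegral_congr fun p1 => ?_
  have hg1 : Measurable fun q : Pl × Pl => g (p1, q) := hg.comp measurable_prodMk_left
  rw [Measure.volume_eq_prod]
  exact lintegral_prod _ hg1.aemeasurable

theorem step (hP : S_PROJ) (M : Matrix (Fin 3) (Fin 3) ℝ) (hM : M.det ≠ 0) (G : Pl → ENNReal)
    (hG : Measurable G) (X : Pl → ENNReal) (c : ENNReal) (hc : c ≠ ⊤)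
    (h : ∀ᵐ z : Pl, X z = G (Phi M z) * J M z * c) : ∫⁻ z, X z = (∫⁻ z, G z) * c := by
  have h1 : ∫⁻ z, G (Phi M z) * J M z = ∫⁻ z, G z := hP M hM G hG
  rw [← h1, ← lintegral_mul_const' _ _ hc]
  exact lintegral_congr_ae h

theorem meas2 (F : Pl × Pl × Pl → ENNReal) (hF : Measurable F) :
    Measurable fun q : Pl × Pl => ∫⁻ p3 : Pl, F (q.1, q.2, p3) := by
  have h1 : Measurable fun z : (Pl × Pl) × Pl => F (z.1.1, z.1.2, z.2) :=
    hF.comp ((measurable_fst.comp measurable_fst).prodMk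
      ((measurable_snd.comp measurable_fst).prodMk measurable_snd))
  exact h1.lintegral_prod_right'

theorem meas1 (F : Pl × Pl × Pl → ENNReal) (hF : Measurable F) :
    Measurable fun p1 : Pl => ∫⁻ p2 : Pl, ∫⁻ p3 : Pl, F (p1, p2, p3) :=
  (meas2 F hF).lintegral_prod_right'

theorem J_ne (M : Matrix (Fin 3) (Fin 3) ℝ) (z : Pl) : J M z ≠ ⊤ := ENNReal.ofReal_ne_top

theorem main_aux (hP : S_PROJ) (M : Matrix (Fin 3) (Fin 3) ℝ) (hM : M.det ≠ 0)
    (f F X : Pl × Pl × Pl → ENNReal) (hF : Measurable F) (hX : Measurable X)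
    (hFf : ∀ p, F p = rho p * f p) (hXf : ∀ p, X p = rho p * f (m3 (Phi M) p)) :
    ∫⁻ p, X p = ∫⁻ p, F p := by
  have hw := w_ne M hM
  rw [iter X hX, iter F hF]
  have key := step hP M hM (fun p1 => ∫⁻ p2 : Pl, ∫⁻ p3 : Pl, F (p1, p2, p3)) (meas1 F hF)
    (fun p1 => ∫⁻ p2 : Pl, ∫⁻ p3 : Pl, X (p1, p2, p3)) 1 ENNReal.one_ne_top ?_
  · rw [mul_one] at key
    exact key
  filter_upwards [hw] with p1 h1
  rw [mul_one]
  have hG2 : Measurable fun p2 : Pl => ∫⁻ p3 : Pl, F (Phi M p1, p2, p3) :=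
    (meas2 F hF).comp measurable_prodMk_left
  refine step hP M hM (fun p2 => ∫⁻ p3 : Pl, F (Phi M p1, p2, p3)) hG2
    (fun p2 => ∫⁻ p3 : Pl, X (p1, p2, p3)) (J M p1) (J_ne M p1) ?_
  filter_upwards [hw] with p2 h2
  rw [mul_assoc]
  have hG3 : Measurable fun p3 : Pl => F (Phi M p1, Phi M p2, p3) :=
    hF.comp (measurable_prodMk_left.comp measurable_prodMk_left)
  refine step hP M hM (fun p3 => F (Phi M p1, Phi M p2, p3)) hG3
    (fun p3 => X (p1, p2, p3)) (J M p2 * J M p1) (ENNReal.mul_ne_top (J_ne M p2) (J_ne M p1)) ?_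
  filter_upwards [hw] with p3 h3
  have hd := dens M hM (p1, p2, p3) h1 h2 h3
  have e1 : m3 (Phi M) (p1, p2, p3) = (Phi M p1, Phi M p2, Phi M p3) := rfl
  rw [hXf, hFf, e1, ← hd, e1]
  ring

theorem taskMINV (hP : S_PROJ) : S_MINV := by
  intro M hM f hf
  have hΦ := meas_Phi M
  have hm3 : Measurable (m3 (Phi M)) :=
    (hΦ.comp measurable_fst).prodMk ((hΦ.comp (measurable_fst.comp measurable_snd)).prodMk
      (hΦ.comp (measurable_snd.comp measurable_snd)))
  have hfm : Measurable fun p => f (m3 (Phi M) p) := hf.comp hm3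
  have h1 : ∫⁻ p, f (m3 (Phi M) p) ∂m = ∫⁻ p, rho p * f (m3 (Phi M) p) :=
    lintegral_withDensity_eq_lintegral_mul _ meas_rho hfm
  have h2 : ∫⁻ p, f p ∂m = ∫⁻ p, rho p * f p :=
    lintegral_withDensity_eq_lintegral_mul _ meas_rho hf
  rw [h1, h2]
  exact main_aux hP M hM f _ _ (meas_rho.mul hf) (meas_rho.mul hfm) (fun p => rfl) (fun p => rfl)

end Pool.Agent.R723.KT.MINV
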