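import Pool.Agent.R723.KT.Defs

/-!
KT-MM (helper787): from the change of variables and the slices to the measures
-/

set_option autoImplicit false
open MeasureTheory

namespace Pool.Agent.R723.KT

theorem mm787_meas_Psi (P : Pl) (s t : ℝ) : Measurable fun G : Pl => Psi P s t G := by
  unfold Psi
  fun_prop

theorem mm787_lint_ind {S : Set (Pl × Pl × Pl)} (hS : MeasurableSet S) (P : Pl) (s t : ℝ) :
    ∫⁻ G : Pl, S.indicator (fun _ => (1 : ENNReal)) (Psi P s t G) =
      volume {G | Psi P s t G ∈ S} := by
  have h1 : MeasurableSet {G : Pl | Psi P s t G ∈ S} := mm787_meas_Psi P s t hS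
  have h2 : (fun G : Pl => S.indicator (fun _ => (1 : ENNReal)) (Psi P s t G)) =
      {G : Pl | Psi P s t G ∈ S}.indicator (fun _ => (1 : ENNReal)) := by
    funext G
    by_cases hG : Psi P s t G ∈ S
    · rw [Set.indicator_of_mem hG, Set.indicator_of_mem (by exact hG)]
    · rw [Set.indicator_of_notMem hG, Set.indicator_of_notMem (by exact hG)]
  rw [h2, lintegral_indicator h1]
  simp

theorem taskMM (hCV : S_CV) (hS : S_SLICE) (hM : S_MEAS) : S_MM := by
  obtain ⟨_, hMF, hMD⟩ := hM
  unfold S_MM
  have e1 : m MF = ∫⁻ p, MF.indicator (fun _ => (1 : ENNReal)) p ∂m := by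
    rw [lintegral_indicator hMF]
    simp
  have e2 : m MD = ∫⁻ p, MD.indicator (fun _ => (1 : ENNReal)) p ∂m := by
    rw [lintegral_indicator hMD]
    simp
  have m1 : Measurable (MF.indicator (fun _ => (1 : ENNReal))) := measurable_const.indicator hMF
  have m2 : Measurable (MD.indicator (fun _ => (1 : ENNReal))) := measurable_const.indicator hMD
  rw [e1, e2, ← lintegral_const_mul _ m1, hCV _ (m1.const_mul 2), hCV _ m2]
  refine lintegral_mono fun P => lintegral_mono fun s => lintegral_mono fun t => ?_
  by_cases hst : s = t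
  · subst hst
    simp
  · refine mul_le_mul_right ?_ _
    have m3 : Measurable fun G : Pl => MF.indicator (fun _ => (1 : ENNReal)) (Psi P s t G) :=
      m1.comp (mm787_meas_Psi P s t)
    rw [lintegral_const_mul _ m3, mm787_lint_ind hMF, mm787_lint_ind hMD]
    exact hS P s t hst

end Pool.Agent.R723.KT
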