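import Pool.Agent.R723.KT.MINV

set_option autoImplicit false
open MeasureTheory

namespace Pool.Agent.R723.KT.PROJ

open Pool.Agent.R723.KT

theorem det_prod (α β γ δ : ℝ) :
    ((α • ContinuousLinearMap.fst ℝ ℝ ℝ + β • ContinuousLinearMap.snd ℝ ℝ ℝ).prod
      (γ • ContinuousLinearMap.fst ℝ ℝ ℝ + δ • ContinuousLinearMap.snd ℝ ℝ ℝ)).det
      = α * δ - β * γ := by
  rw [← Matrix.toLin_finTwoProd_toContinuousLinearMap]
  rw [LinearMap.det_toContinuousLinearMap, LinearMap.det_toLin, Matrix.det_fin_two_of]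

/-- the derivative of a quotient of affine functions -/
theorem hasF (a b c d e f : ℝ) (z : Pl) (hz : d * z.1 + e * z.2 + f ≠ 0) :
    HasFDerivAt (fun z : Pl => (a * z.1 + b * z.2 + c) / (d * z.1 + e * z.2 + f))
      ((a / (d * z.1 + e * z.2 + f) - (a * z.1 + b * z.2 + c) * d / (d * z.1 + e * z.2 + f) ^ 2) •
        ContinuousLinearMap.fst ℝ ℝ ℝ +
       (b / (d * z.1 + e * z.2 + f) - (a * z.1 + b * z.2 + c) * e / (d * z.1 + e * z.2 + f) ^ 2) •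
        ContinuousLinearMap.snd ℝ ℝ ℝ) z := by
  have aff : ∀ p q r : ℝ, HasFDerivAt (fun z : Pl => p * z.1 + q * z.2 + r)
      (p • ContinuousLinearMap.fst ℝ ℝ ℝ + q • ContinuousLinearMap.snd ℝ ℝ ℝ) z := by
    intro p q r
    have h1 : HasFDerivAt (fun z : Pl => p * z.1) (p • ContinuousLinearMap.fst ℝ ℝ ℝ) z :=
      (hasFDerivAt_fst (𝕜 := ℝ) (p := z)).const_mul p
    have h2 : HasFDerivAt (fun z : Pl => q * z.2) (q • ContinuousLinearMap.snd ℝ ℝ ℝ) z :=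
      (hasFDerivAt_snd (𝕜 := ℝ) (p := z)).const_mul q
    exact (h1.add h2).add_const r
  have hN := aff a b c
  have hw := aff d e f
  have hinv := (hasDerivAt_inv hz).comp_hasFDerivAt z hw
  have hmul := hN.mul hinv
  have key : (fun z : Pl => (a * z.1 + b * z.2 + c) / (d * z.1 + e * z.2 + f)) =
      fun z : Pl => (a * z.1 + b * z.2 + c) * (d * z.1 + e * z.2 + f)⁻¹ := by
    funext z
    rw [div_eq_mul_inv]
  rw [key]
  refine HasFDerivAt.congr_fderiv (f' := _) hmul ?_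
  ext
  · simp
    field_simp
    ring
  · simp
    field_simp
    ring

theorem w_comp (M N : Matrix (Fin 3) (Fin 3) ℝ) (z : Pl) (hz : w N z ≠ 0) :
    w M (Phi N z) = w (M * N) z / w N z := by
  have h : w (M * N) z = M 2 0 * (N 0 0 * z.1 + N 0 1 * z.2 + N 0 2) +
      M 2 1 * (N 1 0 * z.1 + N 1 1 * z.2 + N 1 2) + M 2 2 * w N z := by
    simp only [w, Matrix.mul_apply, Fin.sum_univ_three]
    ring
  rw [h]
  have h2 : w M (Phi N z) = M 2 0 * ((N 0 0 * z.1 + N 0 1 * z.2 + N 0 2) / w N z) +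
      M 2 1 * ((N 1 0 * z.1 + N 1 1 * z.2 + N 1 2) / w N z) + M 2 2 := rfl
  rw [h2]
  field_simp

theorem Phi_comp (M N : Matrix (Fin 3) (Fin 3) ℝ) (z : Pl) (hz : w N z ≠ 0)
    (hMN : w (M * N) z ≠ 0) : Phi M (Phi N z) = Phi (M * N) z := by
  have hw := w_comp M N z hz
  have h0 : (M * N) 0 0 * z.1 + (M * N) 0 1 * z.2 + (M * N) 0 2 =
      M 0 0 * (N 0 0 * z.1 + N 0 1 * z.2 + N 0 2) +
      M 0 1 * (N 1 0 * z.1 + N 1 1 * z.2 + N 1 2) + M 0 2 * w N z := by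
    simp only [w, Matrix.mul_apply, Fin.sum_univ_three]
    ring
  have h1 : (M * N) 1 0 * z.1 + (M * N) 1 1 * z.2 + (M * N) 1 2 =
      M 1 0 * (N 0 0 * z.1 + N 0 1 * z.2 + N 0 2) +
      M 1 1 * (N 1 0 * z.1 + N 1 1 * z.2 + N 1 2) + M 1 2 * w N z := by
    simp only [w, Matrix.mul_apply, Fin.sum_univ_three]
    ring
  have e1 : (Phi N z).1 = (N 0 0 * z.1 + N 0 1 * z.2 + N 0 2) / w N z := rfl
  have e2 : (Phi N z).2 = (N 1 0 * z.1 + N 1 1 * z.2 + N 1 2) / w N z := rfl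
  refine Prod.ext ?_ ?_
  · change (M 0 0 * (Phi N z).1 + M 0 1 * (Phi N z).2 + M 0 2) / w M (Phi N z) =
      ((M * N) 0 0 * z.1 + (M * N) 0 1 * z.2 + (M * N) 0 2) / w (M * N) z
    rw [hw, h0, e1, e2]
    field_simp
  · change (M 1 0 * (Phi N z).1 + M 1 1 * (Phi N z).2 + M 1 2) / w M (Phi N z) =
      ((M * N) 1 0 * z.1 + (M * N) 1 1 * z.2 + (M * N) 1 2) / w (M * N) z
    rw [hw, h1, e1, e2]
    field_simp

theorem w_one (z : Pl) : w 1 z = 1 := by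
  simp [w]

theorem Phi_one (z : Pl) : Phi 1 z = z := by
  simp [Phi, w_one]

theorem taskPROJ : S_PROJ := by
  intro M hM f hf
  have hΩm : MeasurableSet {z : Pl | w M z ≠ 0} := by
    have := MINV.meas_w M (measurableSet_singleton (0 : ℝ))
    exact this.compl
  have hΩ : ∀ᵐ z : Pl, z ∈ {z : Pl | w M z ≠ 0} := MINV.w_ne M hM
  have hu : IsUnit M.det := isUnit_iff_ne_zero.2 hM
  have hinv1 : M⁻¹ * M = 1 := Matrix.nonsing_inv_mul M hu
  have hinv2 : M * M⁻¹ = 1 := Matrix.mul_nonsing_inv M hu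
  have hleft : ∀ z : Pl, w M z ≠ 0 → Phi M⁻¹ (Phi M z) = z := by
    intro z hz
    rw [Phi_comp M⁻¹ M z hz (by rw [hinv1, w_one]; exact one_ne_zero), hinv1, Phi_one]
  have hright : ∀ z : Pl, w M⁻¹ z ≠ 0 → Phi M (Phi M⁻¹ z) = z ∧ w M (Phi M⁻¹ z) ≠ 0 := by
    intro z hz
    constructor
    · rw [Phi_comp M M⁻¹ z hz (by rw [hinv2, w_one]; exact one_ne_zero), hinv2, Phi_one]
    · rw [w_comp M M⁻¹ z hz, hinv2, w_one]
      exact one_div_ne_zero hz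
  have hinj : Set.InjOn (Phi M) {z : Pl | w M z ≠ 0} := by
    intro x hx y hy h
    rw [← hleft x hx, ← hleft y hy, h]
  have him : ∀ᵐ z : Pl, z ∈ Phi M '' {z : Pl | w M z ≠ 0} := by
    have hdet : (M⁻¹).det ≠ 0 := by
      rw [Matrix.det_nonsing_inv]
      simpa using hM
    filter_upwards [MINV.w_ne M⁻¹ hdet] with z hz
    exact ⟨Phi M⁻¹ z, (hright z hz).2, (hright z hz).1⟩
  have hd : ∀ z ∈ {z : Pl | w M z ≠ 0}, HasFDerivWithinAt (Phi M)
      (((M 0 0 / w M z - (M 0 0 * z.1 + M 0 1 * z.2 + M 0 2) * M 2 0 / w M z ^ 2) •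
        ContinuousLinearMap.fst ℝ ℝ ℝ +
       (M 0 1 / w M z - (M 0 0 * z.1 + M 0 1 * z.2 + M 0 2) * M 2 1 / w M z ^ 2) •
        ContinuousLinearMap.snd ℝ ℝ ℝ).prod
       ((M 1 0 / w M z - (M 1 0 * z.1 + M 1 1 * z.2 + M 1 2) * M 2 0 / w M z ^ 2) •
        ContinuousLinearMap.fst ℝ ℝ ℝ +
       (M 1 1 / w M z - (M 1 0 * z.1 + M 1 1 * z.2 + M 1 2) * M 2 1 / w M z ^ 2) •
        ContinuousLinearMap.snd ℝ ℝ ℝ)) {z : Pl | w M z ≠ 0} z := by
    intro z hz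
    have h1 := hasF (M 0 0) (M 0 1) (M 0 2) (M 2 0) (M 2 1) (M 2 2) z hz
    have h2 := hasF (M 1 0) (M 1 1) (M 1 2) (M 2 0) (M 2 1) (M 2 2) z hz
    exact (HasFDerivAt.prodMk h1 h2).hasFDerivWithinAt
  have hmain := lintegral_image_eq_lintegral_abs_det_fderiv_mul (volume : Measure Pl) hΩm hd hinj f
  have hr1 : (volume : Measure Pl).restrict (Phi M '' {z : Pl | w M z ≠ 0}) = volume :=
    Measure.restrict_eq_self_of_ae_mem him
  have hr2 : (volume : Measure Pl).restrict {z : Pl | w M z ≠ 0} = volume :=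
    Measure.restrict_eq_self_of_ae_mem hΩ
  rw [hr1, hr2] at hmain
  rw [hmain]
  apply lintegral_congr_ae
  filter_upwards [hΩ] with z hz
  rw [mul_comm]
  congr 1
  congr 1
  rw [det_prod]
  have hz' : w M z ≠ 0 := hz
  have hdet : (M 0 0 / w M z - (M 0 0 * z.1 + M 0 1 * z.2 + M 0 2) * M 2 0 / w M z ^ 2) *
      (M 1 1 / w M z - (M 1 0 * z.1 + M 1 1 * z.2 + M 1 2) * M 2 1 / w M z ^ 2) -
      (M 0 1 / w M z - (M 0 0 * z.1 + M 0 1 * z.2 + M 0 2) * M 2 1 / w M z ^ 2) *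
      (M 1 0 / w M z - (M 1 0 * z.1 + M 1 1 * z.2 + M 1 2) * M 2 0 / w M z ^ 2) =
      M.det / w M z ^ 3 := by
    rw [Matrix.det_fin_three]
    field_simp
    unfold w
    ring
  rw [hdet, abs_div, abs_pow]

end Pool.Agent.R723.KT.PROJ
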