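import Pool.Agent.R723.KT.Defs

/-!
# Piece KT-SLICE: the slice inequality from the fibre inequality
-/

set_option autoImplicit false
open MeasureTheory

namespace Pool.Agent.R723.KT.SLICE

open Pool.Agent.R723.KT

/-- first coordinate of `z - P` in the basis `(1, s)`, `(1, t)` -/
noncomputable def al (P : Pl) (s t : ℝ) (z : Pl) : ℝ := (t * (z.1 - P.1) - (z.2 - P.2)) / (t - s)

/-- second coordinate of `z - P` in the basis `(1, s)`, `(1, t)` -/
noncomputable def be (P : Pl) (s t : ℝ) (z : Pl) : ℝ := ((z.2 - P.2) - s * (z.1 - P.1)) / (t - s)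

theorem D_Psi (P : Pl) (s t : ℝ) (G : Pl) :
    D (Psi P s t G) = (t - s) / ((G.1 + s * G.2) * (G.1 + t * G.2)) := by
  simp only [D, ori, Psi]
  generalize G.1 + s * G.2 = x
  generalize G.1 + t * G.2 = y
  rw [div_eq_mul_inv _ (x * y), mul_inv]
  ring

theorem ne_of_D {P : Pl} {s t : ℝ} {G : Pl} (h : D (Psi P s t G) ≠ 0) :
    G.1 + s * G.2 ≠ 0 ∧ G.1 + t * G.2 ≠ 0 := by
  rw [D_Psi] at h
  constructor
  · intro h0; apply h; rw [h0, zero_mul, div_zero]
  · intro h0; apply h; rw [h0, mul_zero, div_zero]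

theorem L0 (P : Pl) (s t : ℝ) (G z : Pl) (h1 : G.1 + s * G.2 ≠ 0) (h2 : G.1 + t * G.2 ≠ 0) :
    L (Psi P s t G) z = (D (Psi P s t G)) ^ 2 * (1 - dot G (z - P)) := by
  rw [L, D_Psi]
  simp only [ori, Psi, dot, Prod.fst_sub, Prod.snd_sub]
  field_simp
  ring

theorem L1 (P : Pl) (s t : ℝ) (G z : Pl) (hst : t - s ≠ 0) (h1 : G.1 + s * G.2 ≠ 0)
    (h2 : G.1 + t * G.2 ≠ 0) :
    L (rot (Psi P s t G)) z = (D (Psi P s t G)) ^ 2 * ((G.1 + s * G.2) * al P s t z) := by
  rw [D_Psi, L, al]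
  simp only [D, ori, Psi, rot]
  generalize G.1 + s * G.2 = x at *
  generalize G.1 + t * G.2 = y at *
  field_simp
  ring

theorem L2 (P : Pl) (s t : ℝ) (G z : Pl) (hst : t - s ≠ 0) (h1 : G.1 + s * G.2 ≠ 0)
    (h2 : G.1 + t * G.2 ≠ 0) :
    L (rot (rot (Psi P s t G))) z = (D (Psi P s t G)) ^ 2 * ((G.1 + t * G.2) * be P s t z) := by
  rw [D_Psi, L, be]
  simp only [D, ori, Psi, rot]
  generalize G.1 + s * G.2 = x at *
  generalize G.1 + t * G.2 = y at *
  field_simp
  ring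

theorem mem_K (P : Pl) (s t : ℝ) (hst : t - s ≠ 0) (e1 e2 : ℝ) (he1 : e1 * e1 = 1)
    (he2 : e2 * e2 = 1) (z : Pl) :
    z ∈ K P (e1, e1 * s) (e2, e2 * t) ↔ 0 ≤ e1 * al P s t z ∧ 0 ≤ e2 * be P s t z := by
  constructor
  · rintro ⟨a, b, ha, hb, rfl⟩
    have h1 : al P s t (P + a • ((e1, e1 * s) : Pl) + b • ((e2, e2 * t) : Pl)) = a * e1 := by
      simp only [al, Prod.fst_add, Prod.snd_add, Prod.smul_fst, Prod.smul_snd, smul_eq_mul]
      field_simp
      ring
    have h2 : be P s t (P + a • ((e1, e1 * s) : Pl) + b • ((e2, e2 * t) : Pl)) = b * e2 := by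
      simp only [be, Prod.fst_add, Prod.snd_add, Prod.smul_fst, Prod.smul_snd, smul_eq_mul]
      field_simp
      ring
    rw [h1, h2]
    constructor
    · have : e1 * (a * e1) = a := by linear_combination a * he1
      rw [this]; exact ha
    · have : e2 * (b * e2) = b := by linear_combination b * he2
      rw [this]; exact hb
  · rintro ⟨h1, h2⟩
    refine ⟨e1 * al P s t z, e2 * be P s t z, h1, h2, ?_⟩
    have e3 : al P s t z + be P s t z = z.1 - P.1 := by
      rw [al, be]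
      field_simp
      ring
    have e4 : al P s t z * s + be P s t z * t = z.2 - P.2 := by
      rw [al, be]
      field_simp
      ring
    apply Prod.ext
    · simp only [Prod.fst_add, Prod.smul_fst, smul_eq_mul]
      linear_combination (-1 : ℝ) * e3 - (al P s t z) * he1 - (be P s t z) * he2
    · simp only [Prod.snd_add, Prod.smul_snd, smul_eq_mul]
      linear_combination (-1 : ℝ) * e4 - (al P s t z) * s * he1 - (be P s t z) * t * he2

theorem exists_sign (x : ℝ) (hx : x ≠ 0) : ∃ e : ℝ, e * e = 1 ∧ 0 < e * x := by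
  rcases lt_or_gt_of_ne hx with h | h
  · exact ⟨-1, by norm_num, by linarith⟩
  · exact ⟨1, by norm_num, by linarith⟩

theorem nonneg_iff {e x a : ℝ} (he : e * e = 1) (h : 0 < e * x) : 0 ≤ x * a ↔ 0 ≤ e * a := by
  have h1 : x * a = (e * x) * (e * a) := by linear_combination (-(x * a)) * he
  rw [h1]
  exact mul_nonneg_iff_of_pos_left h

/-- `inK` in terms of the cone -/
theorem inK_iff (P : Pl) (s t : ℝ) (hst : t - s ≠ 0) (e1 e2 : ℝ) (he1 : e1 * e1 = 1)
    (he2 : e2 * e2 = 1) (G z : Pl) (h1 : 0 < e1 * (G.1 + s * G.2)) (h2 : 0 < e2 * (G.1 + t * G.2)) :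
    inK (Psi P s t G) z ↔ z ∈ K P (e1, e1 * s) (e2, e2 * t) := by
  have n1 : G.1 + s * G.2 ≠ 0 := by
    intro h0; rw [h0, mul_zero] at h1; exact lt_irrefl _ h1
  have n2 : G.1 + t * G.2 ≠ 0 := by
    intro h0; rw [h0, mul_zero] at h2; exact lt_irrefl _ h2
  have hD : 0 < (D (Psi P s t G)) ^ 2 := by
    have : D (Psi P s t G) ≠ 0 := by
      rw [D_Psi]; exact div_ne_zero hst (mul_ne_zero n1 n2)
    positivity
  rw [inK, L1 P s t G z hst n1 n2, L2 P s t G z hst n1 n2, mul_nonneg_iff_of_pos_left hD,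
    mul_nonneg_iff_of_pos_left hD, nonneg_iff he1 h1, nonneg_iff he2 h2,
    mem_K P s t hst e1 e2 he1 he2 z]

theorem same_sign {e x y a b : ℝ} (he : e * e = 1) (h : 0 < e * x) (hy : y ≠ 0)
    (hab : a ≠ b) (hxa : 0 ≤ x * a) (hxb : 0 ≤ x * b) (hya : 0 ≤ y * a) (hyb : 0 ≤ y * b) :
    0 < e * y := by
  rw [nonneg_iff he h] at hxa hxb
  rcases exists_sign y hy with ⟨e', he', hy'⟩
  rw [nonneg_iff he' hy'] at hya hyb
  have h1 : (e - e') * (e + e') = 0 := by linear_combination he - he'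
  rcases mul_eq_zero.mp h1 with h2 | h2
  · have : e = e' := by linarith
    rw [this]; exact hy'
  · exfalso
    have h3 : e' = -e := by linarith
    rw [h3] at hya hyb
    have h4 : e * a = 0 := by linarith
    have h5 : e * b = 0 := by linarith
    have he0 : e ≠ 0 := by rintro rfl; norm_num at he
    have h6 : a = 0 := (mul_eq_zero.mp h4).resolve_left he0
    have h7 : b = 0 := (mul_eq_zero.mp h5).resolve_left he0
    exact hab (h6.trans h7.symm)

theorem taskSLICE (hF : S_FIB) : S_SLICE := by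
  intro P s t hst'
  have hst : t - s ≠ 0 := sub_ne_zero.mpr (Ne.symm hst')
  by_cases hne : ({G | Psi P s t G ∈ MF} : Set Pl).Nonempty
  swap
  · rw [Set.not_nonempty_iff_eq_empty.mp hne]
    simp
  obtain ⟨G0, hG0⟩ := hne
  obtain ⟨⟨hD0, hT0⟩, hw1, hw2, hn1⟩ := hG0
  obtain ⟨m1, m2⟩ := ne_of_D hD0
  obtain ⟨e1, he1, hs1⟩ := exists_sign _ m1
  obtain ⟨e2, he2, hs2⟩ := exists_sign _ m2
  have z00 : zp (0, 0) = ((0, 0) : Pl) := by simp [zp]
  have z10 : zp (1, 0) = ((1, 0) : Pl) := by simp [zp]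
  have z01 : zp (0, 1) = ((0, 1) : Pl) := by simp [zp]
  have z11 : zp (1, 1) = ((1, 1) : Pl) := by simp [zp]
  have z02 : zp (0, 2) = ((0, 2) : Pl) := by simp [zp]
  have zn0 : zp (0, -1) = ((0, -1) : Pl) := by simp [zp]
  have zn1 : zp (1, -1) = ((1, -1) : Pl) := by simp [zp]
  have zn2 : zp (2, -1) = ((2, -1) : Pl) := by simp [zp]
  have ze0 : zp (2, 0) = ((2, 0) : Pl) := by simp [zp]
  have ze1 : zp (2, 1) = ((2, 1) : Pl) := by simp [zp]
  have zt1 : zp (1, 2) = ((1, 2) : Pl) := by simp [zp]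
  set d1 : Pl := (e1, e1 * s) with hd1
  set d2 : Pl := (e2, e2 * t) with hd2
  have hK0 : ∀ z, inK (Psi P s t G0) z ↔ z ∈ K P d1 d2 := fun z =>
    inK_iff P s t hst e1 e2 he1 he2 G0 z hs1 hs2
  have hF4 : ∀ z : ℤ × ℤ, z ∈ F4 ↔ z = (0, 0) ∨ z = (1, 0) ∨ z = (0, 1) ∨ z = (1, 1) := by
    intro z; rw [F4]; simp only [Set.mem_insert_iff, Set.mem_singleton_iff]
  have hD3 : ∀ z : ℤ × ℤ, z ∈ D3 ↔ z = (0, 0) ∨ z = (1, 0) ∨ z = (1, 1) := by
    intro z; rw [D3]; simp only [Set.mem_insert_iff, Set.mem_singleton_iff]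
  -- facts valid for every member of the set
  have key : ∀ G, Psi P s t G ∈ MF → (∀ z : ℤ × ℤ, z ∈ F4 → dot G (zp z - P) ≤ 1) ∧
      (∀ z : ℤ × ℤ, z ∉ F4 → inK (Psi P s t G) (zp z) → 1 < dot G (zp z - P)) ∧
      1 < dot G ((-1, 0) - P) ∧ 1 < dot G ((-1, 1) - P) ∧
      (∀ z : ℤ × ℤ, z ∈ F4 → inK (Psi P s t G) (zp z)) := by
    intro G hG
    obtain ⟨⟨hD, hT⟩, hv1, hv2, hv3⟩ := hG
    obtain ⟨n1, n2⟩ := ne_of_D hD
    have hDp : 0 < (D (Psi P s t G)) ^ 2 := by positivity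
    refine ⟨?_, ?_, ?_, ?_, ?_⟩
    · intro z hz
      have h1 := ((hT z).mpr hz).1
      rw [L0 P s t G _ n1 n2, mul_nonneg_iff_of_pos_left hDp] at h1
      linarith
    · intro z hz hk
      by_contra hc
      apply hz
      rw [← hT z]
      refine ⟨?_, hk.1, hk.2⟩
      rw [L0 P s t G _ n1 n2, mul_nonneg_iff_of_pos_left hDp]
      linarith
    · rw [L0 P s t G _ n1 n2] at hv1
      by_contra hc
      have : 0 ≤ (D (Psi P s t G)) ^ 2 * (1 - dot G (((-1, 0) : Pl) - P)) :=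
        mul_nonneg hDp.le (by linarith)
      linarith
    · rw [L0 P s t G _ n1 n2] at hv2
      by_contra hc
      have : 0 ≤ (D (Psi P s t G)) ^ 2 * (1 - dot G (((-1, 1) : Pl) - P)) :=
        mul_nonneg hDp.le (by linarith)
      linarith
    · intro z hz
      exact ((hT z).mpr hz).2
  have hG0 : Psi P s t G0 ∈ MF := ⟨⟨hD0, hT0⟩, hw1, hw2, hn1⟩
  obtain ⟨k1, k2, k3, k4, k5⟩ := key G0 hG0
  have f00 := k1 (0, 0) ((hF4 _).mpr (by simp))
  have f10 := k1 (1, 0) ((hF4 _).mpr (by simp))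
  have f01 := k1 (0, 1) ((hF4 _).mpr (by simp))
  have f11 := k1 (1, 1) ((hF4 _).mpr (by simp))
  have f02 := k2 (0, 2) (by rw [hF4]; simp) (by rw [z02]; exact hn1)
  rw [z00] at f00
  rw [z10] at f10
  rw [z01] at f01
  rw [z11] at f11
  rw [z02] at f02
  simp only [dot, Prod.fst_sub, Prod.snd_sub] at f00 f10 f01 f11 f02 k3 k4
  have hgood : Good P d1 d2 := by
    refine ⟨?_, ?_, ?_, ?_, ?_, ?_, ?_, ?_, ?_, ?_, ?_, ?_⟩
    · show e1 * (e2 * t) - e1 * s * e2 ≠ 0
      have h1 : e1 * (e2 * t) - e1 * s * e2 = e1 * e2 * (t - s) := by ring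
      rw [h1]
      have h2 : e1 ≠ 0 := by rintro rfl; norm_num at he1
      have h3 : e2 ≠ 0 := by rintro rfl; norm_num at he2
      exact mul_ne_zero (mul_ne_zero h2 h3) hst
    · rw [← hK0, ← z00]; exact k5 _ ((hF4 _).mpr (by simp))
    · rw [← hK0, ← z10]; exact k5 _ ((hF4 _).mpr (by simp))
    · rw [← hK0, ← z01]; exact k5 _ ((hF4 _).mpr (by simp))
    · rw [← hK0, ← z11]; exact k5 _ ((hF4 _).mpr (by simp))
    · rw [← hK0]; exact hn1
    · intro h
      rw [← hK0, ← zn0] at h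
      have h1 := k2 (0, -1) (by rw [hF4]; simp) h
      rw [zn0] at h1
      simp only [dot, Prod.fst_sub, Prod.snd_sub] at h1
      linarith
    · intro h
      rw [← hK0, ← zn1] at h
      have h1 := k2 (1, -1) (by rw [hF4]; simp) h
      rw [zn1] at h1
      simp only [dot, Prod.fst_sub, Prod.snd_sub] at h1
      linarith
    · intro h
      rw [← hK0, ← zn2] at h
      have h1 := k2 (2, -1) (by rw [hF4]; simp) h
      rw [zn2] at h1
      simp only [dot, Prod.fst_sub, Prod.snd_sub] at h1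
      linarith
    · intro h
      rw [← hK0, ← ze0] at h
      have h1 := k2 (2, 0) (by rw [hF4]; simp) h
      rw [ze0] at h1
      simp only [dot, Prod.fst_sub, Prod.snd_sub] at h1
      linarith
    · intro h
      rw [← hK0, ← ze1] at h
      have h1 := k2 (2, 1) (by rw [hF4]; simp) h
      rw [ze1] at h1
      simp only [dot, Prod.fst_sub, Prod.snd_sub] at h1
      linarith
    · intro h
      rw [← hK0, ← zt1] at h
      have h1 := k2 (1, 2) (by rw [hF4]; simp) h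
      rw [zt1] at h1
      simp only [dot, Prod.fst_sub, Prod.snd_sub] at h1
      linarith
  have hsub1 : {G | Psi P s t G ∈ MF} ⊆ SqG P d1 d2 := by
    intro G hG
    obtain ⟨q1, q2, q3, q4, q5⟩ := key G hG
    obtain ⟨n1, n2⟩ := ne_of_D hG.1.1
    have hDp : 0 < (D (Psi P s t G)) ^ 2 := by
      have := hG.1.1
      positivity
    have hDp0 : 0 < (D (Psi P s t G0)) ^ 2 := by positivity
    have a0 := q5 (0, 0) ((hF4 _).mpr (by simp))
    have a1 := q5 (0, 1) ((hF4 _).mpr (by simp))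
    have b0 := k5 (0, 0) ((hF4 _).mpr (by simp))
    have b1 := k5 (0, 1) ((hF4 _).mpr (by simp))
    rw [z00, inK, L1 P s t _ _ hst n1 n2, L2 P s t _ _ hst n1 n2, mul_nonneg_iff_of_pos_left hDp,
      mul_nonneg_iff_of_pos_left hDp] at a0
    rw [z01, inK, L1 P s t _ _ hst n1 n2, L2 P s t _ _ hst n1 n2, mul_nonneg_iff_of_pos_left hDp,
      mul_nonneg_iff_of_pos_left hDp] at a1
    rw [z00, inK, L1 P s t _ _ hst m1 m2, L2 P s t _ _ hst m1 m2, mul_nonneg_iff_of_pos_left hDp0,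
      mul_nonneg_iff_of_pos_left hDp0] at b0
    rw [z01, inK, L1 P s t _ _ hst m1 m2, L2 P s t _ _ hst m1 m2, mul_nonneg_iff_of_pos_left hDp0,
      mul_nonneg_iff_of_pos_left hDp0] at b1
    have hal : al P s t ((0, 0) : Pl) ≠ al P s t ((0, 1) : Pl) := by
      intro h
      have h1 : al P s t ((0, 0) : Pl) - al P s t ((0, 1) : Pl) = 1 / (t - s) := by
        simp only [al]
        field_simp
        ring
      rw [h, sub_self] at h1
      exact (one_div_ne_zero hst) h1.symm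
    have hbe : be P s t ((0, 0) : Pl) ≠ be P s t ((0, 1) : Pl) := by
      intro h
      have h1 : be P s t ((0, 1) : Pl) - be P s t ((0, 0) : Pl) = 1 / (t - s) := by
        simp only [be]
        field_simp
        ring
      rw [h, sub_self] at h1
      exact (one_div_ne_zero hst) h1.symm
    have hp1 : 0 < e1 * (G.1 + s * G.2) := same_sign he1 hs1 n1 hal b0.1 b1.1 a0.1 a1.1
    have hp2 : 0 < e2 * (G.1 + t * G.2) := same_sign he2 hs2 n2 hbe b0.2 b1.2 a0.2 a1.2
    refine ⟨?_, ?_, q1, ?_, q3, q4⟩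
    · show 0 < G.1 * e1 + G.2 * (e1 * s)
      linarith
    · show 0 < G.1 * e2 + G.2 * (e2 * t)
      linarith
    · intro z hz hzn
      apply q2 z hzn
      rw [inK_iff P s t hst e1 e2 he1 he2 G _ hp1 hp2]
      exact hz
  have hsub2 : TrG P d1 d2 ⊆ {G | Psi P s t G ∈ MD} := by
    intro G hG
    obtain ⟨g1, g2, g3, g4⟩ := hG
    have hp1 : 0 < e1 * (G.1 + s * G.2) := by
      have h : 0 < G.1 * e1 + G.2 * (e1 * s) := g1
      linarith
    have hp2 : 0 < e2 * (G.1 + t * G.2) := by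
      have h : 0 < G.1 * e2 + G.2 * (e2 * t) := g2
      linarith
    have n1 : G.1 + s * G.2 ≠ 0 := by
      intro h0; rw [h0, mul_zero] at hp1; exact lt_irrefl _ hp1
    have n2 : G.1 + t * G.2 ≠ 0 := by
      intro h0; rw [h0, mul_zero] at hp2; exact lt_irrefl _ hp2
    have hD : D (Psi P s t G) ≠ 0 := by
      rw [D_Psi]; exact div_ne_zero hst (mul_ne_zero n1 n2)
    have hDp : 0 < (D (Psi P s t G)) ^ 2 := by positivity
    have hK : ∀ z, inK (Psi P s t G) z ↔ z ∈ K P d1 d2 := fun z =>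
      inK_iff P s t hst e1 e2 he1 he2 G z hp1 hp2
    refine ⟨⟨hD, ?_⟩, ?_, ?_, ?_, ?_, ?_, ?_, ?_, ?_, ?_, ?_, ?_⟩
    · intro z
      constructor
      · rintro ⟨h1, h2, h3⟩
        by_contra hz
        have h4 := g4 z ((hK _).mp ⟨h2, h3⟩) hz
        rw [L0 P s t G _ n1 n2, mul_nonneg_iff_of_pos_left hDp] at h1
        linarith
      · intro hz
        have h1 : 0 ≤ L (Psi P s t G) (zp z) := by
          rw [L0 P s t G _ n1 n2, mul_nonneg_iff_of_pos_left hDp]
          linarith [g3 z hz]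
        have h2 : inK (Psi P s t G) (zp z) := by
          rw [hK]
          rcases (hD3 z).mp hz with h | h | h
          · rw [h, z00]; exact hgood.h00
          · rw [h, z10]; exact hgood.h10
          · rw [h, z11]; exact hgood.h11
        exact ⟨h1, h2.1, h2.2⟩
    · exact (hK _).mpr hgood.h00
    · exact (hK _).mpr hgood.h10
    · exact (hK _).mpr hgood.h01
    · exact (hK _).mpr hgood.h11
    · exact (hK _).mpr hgood.h02
    · exact fun h => hgood.n0 ((hK _).mp h)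
    · exact fun h => hgood.n1 ((hK _).mp h)
    · exact fun h => hgood.n2 ((hK _).mp h)
    · exact fun h => hgood.e0 ((hK _).mp h)
    · exact fun h => hgood.e1 ((hK _).mp h)
    · exact fun h => hgood.t1 ((hK _).mp h)
  calc 2 * volume {G | Psi P s t G ∈ MF} ≤ 2 * volume (SqG P d1 d2) := by
        gcongr
    _ ≤ volume (TrG P d1 d2) := hF P d1 d2 hgood
    _ ≤ volume {G | Psi P s t G ∈ MD} := measure_mono hsub2

end Pool.Agent.R723.KT.SLICE
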