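import Pool.Agent.R723.KT.Defs

set_option autoImplicit false
open MeasureTheory

namespace Pool.Agent.R723.KT.SYM

open Pool.Agent.R723.KT

theorem mp_dens {X : Type} [MeasurableSpace X] {μ : Measure X} {γ : X → X}
    (hγ : MeasurePreserving γ μ μ) {h : X → ENNReal} (hh : Measurable h)
    (hc : ∀ x, h (γ x) = h x) : MeasurePreserving γ (μ.withDensity h) (μ.withDensity h) := by
  refine ⟨hγ.measurable, ?_⟩
  ext s hs
  rw [Measure.map_apply hγ.measurable hs, withDensity_apply _ (hγ.measurable hs),
    withDensity_apply _ hs, ← hγ.setLIntegral_comp_preimage hs hh]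
  simp only [hc]

theorem meas_D : Measurable D := by
  unfold D ori
  fun_prop

theorem meas_dens : Measurable (fun p : Pl × Pl × Pl => ENNReal.ofReal ((|D p| ^ 3)⁻¹)) := by
  have h := meas_D
  fun_prop

theorem mp_aff (a b c d e f : ℝ) (h : |a * d - b * c| = 1) :
    MeasurePreserving (aff a b c d e f) (volume : Measure Pl) volume := by
  have hdet : LinearMap.det (Matrix.toLin (Module.Basis.finTwoProd ℝ) (Module.Basis.finTwoProd ℝ)
      !![a, b; c, d]) = a * d - b * c := by
    rw [LinearMap.det_toLin, Matrix.det_fin_two_of]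
  have hne : LinearMap.det (Matrix.toLin (Module.Basis.finTwoProd ℝ) (Module.Basis.finTwoProd ℝ)
      !![a, b; c, d]) ≠ 0 := by
    rw [hdet]
    intro h0
    rw [h0, abs_zero] at h
    exact zero_ne_one h
  have h1 : MeasurePreserving (Matrix.toLin (Module.Basis.finTwoProd ℝ) (Module.Basis.finTwoProd ℝ)
      !![a, b; c, d]) (volume : Measure Pl) volume := by
    refine ⟨?_, ?_⟩
    · exact (LinearMap.continuous_of_finiteDimensional _).measurable
    · rw [Measure.map_linearMap_addHaar_eq_smul_addHaar volume hne, hdet, abs_inv, h, inv_one,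
        ENNReal.ofReal_one, one_smul]
  have h2 : MeasurePreserving (fun z : Pl => z + ((e, f) : Pl)) (volume : Measure Pl) volume :=
    measurePreserving_add_right volume ((e, f) : Pl)
  have h3 := h2.comp h1
  have h4 : aff a b c d e f = (fun z : Pl => z + ((e, f) : Pl)) ∘
      (Matrix.toLin (Module.Basis.finTwoProd ℝ) (Module.Basis.finTwoProd ℝ) !![a, b; c, d]) := by
    funext z
    simp only [Function.comp, Matrix.toLin_finTwoProd_apply]
    rfl
  rw [h4]
  exact h3

theorem D_aff (a b c d e f : ℝ) (p : Pl × Pl × Pl) :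
    D (m3 (aff a b c d e f) p) = (a * d - b * c) * D p := by
  unfold D ori m3 aff
  ring

theorem D_rot (p : Pl × Pl × Pl) : D (rot p) = D p := by
  unfold D ori rot
  ring

theorem taskSYM : S_SYM := by
  refine ⟨?_, ?_⟩
  · intro a b c d e f h
    have h1 := mp_aff a b c d e f h
    have h2 : MeasurePreserving (m3 (aff a b c d e f)) (volume : Measure (Pl × Pl × Pl)) volume :=
      h1.prod (h1.prod h1)
    refine mp_dens h2 meas_dens ?_
    intro p
    rw [D_aff, abs_mul, h, one_mul]
  · have h1 : MeasurePreserving (fun q : (Pl × Pl) × Pl => (q.1.1, (q.1.2, q.2)))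
        (volume : Measure ((Pl × Pl) × Pl)) volume := volume_preserving_prodAssoc
    have h2 : MeasurePreserving (Prod.swap : Pl × (Pl × Pl) → (Pl × Pl) × Pl)
        (volume : Measure (Pl × (Pl × Pl))) volume := Measure.measurePreserving_swap
    have h3 : MeasurePreserving rot (volume : Measure (Pl × Pl × Pl)) volume := h1.comp h2
    refine mp_dens h3 meas_dens ?_
    intro p
    rw [D_rot]

end Pool.Agent.R723.KT.SYM
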